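import Mathlib
import Pool.Agent.HpBall2.Defs

set_option autoImplicit false

open MeasureTheory Complex
open scoped ENNReal NNReal

namespace Pool.Agent.BallAlg

open Pool.Agent.HpBall Pool.Agent.HpBall2

/-- complex sequences tending to zero, with the maximum norm -/
abbrev c0 : Type := ZeroAtInftyContinuousMap ℕ ℂ

/-- A model of the ball algebra: ev identifies the elements with the functions that are
continuous on the closed unit ball and holomorphic inside; the norm is the supremum norm. -/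
structure BModel (n : ℕ) (X : Type) [NormedAddCommGroup X] [NormedSpace ℂ X] where
  ev : X →ₗ[ℂ] (E n → ℂ)
  cont : ∀ f, ContinuousOn (ev f) (Metric.closedBall 0 1)
  hol : ∀ f, DifferentiableOn ℂ (ev f) (Metric.ball 0 1)
  bd : ∀ f z, ‖z‖ ≤ 1 → ‖ev f z‖ ≤ ‖f‖
  norm_le : ∀ f (M : ℝ), 0 ≤ M → (∀ z, ‖z‖ ≤ 1 → ‖ev f z‖ ≤ M) → ‖f‖ ≤ M
  surj : ∀ g : E n → ℂ, ContinuousOn g (Metric.closedBall 0 1) →
    DifferentiableOn ℂ g (Metric.ball 0 1) → ∃ f, ∀ z, ‖z‖ ≤ 1 → ev f z = g z

/-- A Banach space graded by projections H k, with bounded Fejer means and dense polynomials. -/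
structure Grad (X : Type) [NormedAddCommGroup X] [NormedSpace ℂ X] (H : ℕ → X →L[ℂ] X) : Prop where
  bd : ∀ k x, ‖H k x‖ ≤ ‖x‖
  comp : ∀ j k x, H j (H k x) = if j = k then H k x else 0
  fej : ∀ N : ℕ, 1 ≤ N → ∀ x,
    ‖∑ k ∈ Finset.range N, ((1 - (k : ℝ) / N : ℝ) : ℂ) • H k x‖ ≤ ‖x‖
  dense : ∀ x (ε : ℝ), 0 < ε → ∃ (N : ℕ) (y : X), y = ∑ k ∈ Finset.range N, H k y ∧ ‖x - y‖ ≤ ε

/-- the unit vectors of c0 -/
noncomputable def unit (k : ℕ) : c0 where
  toFun := Pi.single k 1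
  continuous_toFun := continuous_of_discreteTopology
  zero_at_infty' := by
    rw [Filter.cocompact_eq_cofinite, Nat.cofinite_eq_atTop]
    refine tendsto_const_nhds.congr' ?_
    filter_upwards [Filter.eventually_gt_atTop k] with j hj
    simp [hj.ne']

end Pool.Agent.BallAlg
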