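import Mathlib
import Pool.Agent.BallAlg.Defs

set_option autoImplicit false

open MeasureTheory Complex
open scoped ENNReal NNReal

namespace Pool.Agent.BallAlg

open Pool.Agent.HpBall Pool.Agent.HpBall2

theorem C11_sum_unit (c : ℕ → ℂ) (N j : ℕ) :
    (∑ k ∈ Finset.range N, c k • unit k : c0) j = if j < N then c j else 0 := by
  induction N with
  | zero => simp
  | succ N ih =>
    rw [Finset.sum_range_succ, ZeroAtInftyContinuousMap.add_apply, ih,
      ZeroAtInftyContinuousMap.smul_apply]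
    have hu : (unit N : c0) j = (Pi.single N (1 : ℂ) : ℕ → ℂ) j := rfl
    rw [hu]
    rcases lt_trichotomy j N with h | h | h
    · rw [if_pos h, if_pos (by omega), Pi.single_eq_of_ne h.ne, smul_zero, add_zero]
    · subst h
      rw [if_neg (lt_irrefl _), if_pos (Nat.lt_succ_self _), Pi.single_eq_same, smul_eq_mul,
        mul_one, zero_add]
    · rw [if_neg (by omega), if_neg (by omega), Pi.single_eq_of_ne h.ne', smul_zero, add_zero]

theorem C11_tendsto (c : c0) :
    Filter.Tendsto (fun N => ∑ k ∈ Finset.range N, c k • unit k) Filter.atTop (nhds c) := by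
  rw [ZeroAtInftyContinuousMap.tendsto_iff_tendstoUniformly, Metric.tendstoUniformly_iff]
  intro ε hε
  have h0 : Filter.Tendsto c Filter.atTop (nhds 0) := by
    have := c.zero_at_infty'
    rw [Filter.cocompact_eq_cofinite, Nat.cofinite_eq_atTop] at this
    exact this
  obtain ⟨N0, hN0⟩ := Metric.tendsto_atTop.1 h0 ε hε
  filter_upwards [Filter.eventually_ge_atTop N0] with N hN j
  rw [C11_sum_unit]
  split_ifs with h
  · rw [dist_self]; exact hε
  · exact hN0 j (by omega)

theorem C11_ev {f : ℕ → c0} {c : c0} (h : Filter.Tendsto f Filter.atTop (nhds c)) (j : ℕ) :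
    Filter.Tendsto (fun N => f N j) Filter.atTop (nhds (c j)) :=
  (ZeroAtInftyContinuousMap.tendsto_iff_tendstoUniformly.1 h).tendsto_at j

/-- TARGET -/
theorem basis_abs {X : Type} [NormedAddCommGroup X] [NormedSpace ℂ X] [CompleteSpace X]
    (a : X →L[ℂ] c0) (q : c0 →L[ℂ] c0) (b : ℕ → X) (h1 : ∀ c, q (q c) = q c)
    (h2 : ∀ x, q (a x) = 0) (h3 : ∀ k, a (b k) + q (unit k) = unit k)
    (h4 : ∀ x z, q z = z → Filter.Tendsto (fun N => ∑ k ∈ Finset.range N, ((a x + z) k) • b k)
        Filter.atTop (nhds x))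
    (S : c0 × c0 →L[ℂ] c0) (R : c0 →L[ℂ] c0 × c0) (hSR : ∀ w, S (R w) = w)
    (hRS : ∀ z v, q z = z → R (S (z, v)) = (z, v)) (hR : ∀ w, q (R w).1 = (R w).1)
    (U : c0 →L[ℂ] X) (V : X →L[ℂ] c0) (hVU : ∀ c, V (U c) = c) :
    ∃ e : ℕ → X, ∀ x, ∃! a : ℕ → ℂ,
      Filter.Tendsto (fun N => ∑ i ∈ Finset.range N, a i • e i) Filter.atTop (nhds x) := by
  set Φ : X × c0 →L[ℂ] X := ContinuousLinearMap.fst ℂ X c0 -
    (U.comp V).comp (ContinuousLinearMap.fst ℂ X c0) +
    U.comp (S.comp ((ContinuousLinearMap.snd ℂ X c0).prod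
      (V.comp (ContinuousLinearMap.fst ℂ X c0)))) with hΦ
  have Φa : ∀ p : X × c0, Φ p = p.1 - U (V p.1) + U (S (p.2, V p.1)) := fun p => rfl
  set P : X →L[ℂ] X := ContinuousLinearMap.id ℂ X - U.comp V +
    U.comp ((ContinuousLinearMap.snd ℂ c0 c0).comp (R.comp V)) with hP
  have Pa : ∀ x, P x = x - U (V x) + U (R (V x)).2 := fun x => rfl
  set Z : X →L[ℂ] c0 := (ContinuousLinearMap.fst ℂ c0 c0).comp (R.comp V) with hZ
  have Za : ∀ x, Z x = (R (V x)).1 := fun x => rfl
  set A : X →L[ℂ] c0 := a.comp P + Z with hA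
  have Aa : ∀ x, A x = a (P x) + Z x := fun x => rfl
  -- V Φ
  have hVΦ : ∀ p : X × c0, V (Φ p) = S (p.2, V p.1) := by
    intro p
    rw [Φa, map_add, map_sub, hVU, hVU, sub_self, zero_add]
  have hΨΦ : ∀ p : X × c0, q p.2 = p.2 → P (Φ p) = p.1 ∧ Z (Φ p) = p.2 := by
    intro p hp
    rw [Pa, Za, hVΦ, hRS _ _ hp]
    refine ⟨?_, rfl⟩
    rw [Φa]
    abel
  have hΦΨ : ∀ x, Φ (P x, Z x) = x := by
    intro x
    have hV : V (P x) = (R (V x)).2 := by
      rw [Pa, map_add, map_sub, hVU, hVU, sub_self, zero_add]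
    rw [Φa]
    simp only
    rw [hV, Za, Prod.mk.eta, hSR, Pa]
    abel
  have hAe : ∀ k, A (Φ (b k, q (unit k))) = unit k := by
    intro k
    obtain ⟨e1, e2⟩ := hΨΦ (b k, q (unit k)) (h1 _)
    rw [Aa, e1, e2]
    exact h3 k
  refine ⟨fun k => Φ (b k, q (unit k)), fun x => ⟨fun k => (A x) k, ?_, ?_⟩⟩
  · have hs : ∀ N, ∑ i ∈ Finset.range N, (A x) i • Φ (b i, q (unit i)) =
        Φ (∑ i ∈ Finset.range N, (A x) i • b i, q (∑ i ∈ Finset.range N, (A x) i • unit i)) := by
      intro N
      have e : ((∑ i ∈ Finset.range N, (A x) i • b i, q (∑ i ∈ Finset.range N, (A x) i • unit i)) :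
          X × c0) = ∑ i ∈ Finset.range N, (A x) i • (b i, q (unit i)) := by
        refine Prod.ext ?_ ?_
        · rw [Prod.fst_sum]; rfl
        · show q (∑ i ∈ Finset.range N, (A x) i • unit i) = _
          rw [Prod.snd_sum, map_sum]
          refine Finset.sum_congr rfl fun i _ => ?_
          rw [map_smul]; rfl
      rw [e, map_sum]
      refine Finset.sum_congr rfl fun i _ => ?_
      rw [map_smul]
    have hq : q (Z x) = Z x := hR (V x)
    have t1 : Filter.Tendsto (fun N => ∑ i ∈ Finset.range N, (A x) i • b i) Filter.atTop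
        (nhds (P x)) := h4 (P x) (Z x) hq
    have t2 := (q.continuous.tendsto _).comp (C11_tendsto (A x))
    have t3 := (Φ.continuous.tendsto _).comp (t1.prodMk_nhds t2)
    have e3 : q (A x) = Z x := by rw [Aa, map_add, h2, hq, zero_add]
    rw [e3, hΦΨ] at t3
    exact t3.congr fun N => (hs N).symm
  · intro c hc
    funext j
    have t1 := C11_ev ((A.continuous.tendsto _).comp hc) j
    have e1 : ∀ N, (A (∑ i ∈ Finset.range N, c i • Φ (b i, q (unit i)))) j =
        if j < N then c j else 0 := by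
      intro N
      have e2 : A (∑ i ∈ Finset.range N, c i • Φ (b i, q (unit i))) =
          ∑ i ∈ Finset.range N, c i • unit i := by
        rw [map_sum]
        refine Finset.sum_congr rfl fun i _ => ?_
        rw [map_smul, hAe]
      rw [e2, C11_sum_unit]
    have t2 : Filter.Tendsto (fun N => (A (∑ i ∈ Finset.range N, c i • Φ (b i, q (unit i)))) j)
        Filter.atTop (nhds (c j)) := by
      refine tendsto_const_nhds.congr' ?_
      filter_upwards [Filter.eventually_gt_atTop j] with N hN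
      rw [e1, if_pos hN]
    exact tendsto_nhds_unique t2 t1

end Pool.Agent.BallAlg
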