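import Mathlib
import Pool.Agent.BallAlg.Defs

set_option autoImplicit false

open MeasureTheory Complex
open scoped ENNReal NNReal

namespace Pool.Agent.BallAlg

open Pool.Agent.HpBall Pool.Agent.HpBall2

/-- the point of the circle with rational parameter `t` -/
noncomputable def C09_W (t : ℝ) : ℂ := (1 + t * Complex.I) / (1 - t * Complex.I)

theorem C09_ne (t : ℝ) : (1 - t * Complex.I : ℂ) ≠ 0 := by
  intro h
  have := congrArg Complex.re h
  simp at this

theorem C09_nsq (t : ℝ) : ‖(1 - t * Complex.I : ℂ)‖ ^ 2 = 1 + t ^ 2 := by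
  rw [← Complex.normSq_eq_norm_sq, Complex.normSq_apply]
  simp
  ring

theorem C09_nsq' (t : ℝ) : ‖(1 + t * Complex.I : ℂ)‖ ^ 2 = 1 + t ^ 2 := by
  rw [← Complex.normSq_eq_norm_sq, Complex.normSq_apply]
  simp
  ring

theorem C09_norm (t : ℝ) : ‖C09_W t‖ = 1 := by
  have h1 := C09_nsq t
  have h2 := C09_nsq' t
  have h3 : ‖(1 + t * Complex.I : ℂ)‖ = ‖(1 - t * Complex.I : ℂ)‖ := by
    have : ‖(1 + t * Complex.I : ℂ)‖ ^ 2 = ‖(1 - t * Complex.I : ℂ)‖ ^ 2 := by rw [h1, h2]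
    exact (pow_left_inj₀ (norm_nonneg _) (norm_nonneg _) two_ne_zero).1 this
  rw [C09_W, norm_div, h3]
  exact div_self (norm_ne_zero_iff.2 (C09_ne t))

theorem C09_zero : C09_W 0 = 1 := by simp [C09_W]

theorem C09_dist (s t : ℝ) (hs : |s| ≤ 1) (ht : |t| ≤ 1) : |s - t| ≤ ‖C09_W s - C09_W t‖ := by
  have e : C09_W s - C09_W t = (2 * (s - t : ℝ) * Complex.I) /
      ((1 - s * Complex.I) * (1 - t * Complex.I)) := by
    unfold C09_W
    rw [div_sub_div _ _ (C09_ne s) (C09_ne t)]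
    congr 1
    push_cast
    ring
  rw [e, norm_div, norm_mul, norm_mul, norm_mul, Complex.norm_I, Complex.norm_real, Real.norm_eq_abs]
  have hb : ∀ x : ℝ, |x| ≤ 1 → ‖(1 - x * Complex.I : ℂ)‖ ^ 2 ≤ 2 := by
    intro x hx
    rw [C09_nsq]
    have := (sq_le_one_iff_abs_le_one x).2 hx
    linarith
  have h1 := hb s hs
  have h2 := hb t ht
  have p1 : 0 < ‖(1 - s * Complex.I : ℂ)‖ := norm_pos_iff.2 (C09_ne s)
  have p2 : 0 < ‖(1 - t * Complex.I : ℂ)‖ := norm_pos_iff.2 (C09_ne t)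
  have h3 : ‖(1 - s * Complex.I : ℂ)‖ * ‖(1 - t * Complex.I : ℂ)‖ ≤ 2 := by
    nlinarith [sq_nonneg (‖(1 - s * Complex.I : ℂ)‖ - ‖(1 - t * Complex.I : ℂ)‖)]
  rw [le_div_iff₀ (mul_pos p1 p2)]
  have h4 : ‖(2 : ℂ)‖ = 2 := by simp
  rw [h4, mul_one, mul_comm (2 : ℝ)]
  exact mul_le_mul_of_nonneg_left h3 (abs_nonneg _)

theorem C09_peak (w u : ℂ) (hw : ‖w‖ = 1) (hu : ‖u‖ ≤ 1) :
    ‖(1 + (starRingEnd ℂ) w * u) / 2‖ ^ 2 ≤ 1 - ‖u - w‖ ^ 2 / 4 := by
  have hv : ‖(starRingEnd ℂ) w * u‖ ≤ 1 := by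
    rw [norm_mul, RCLike.norm_conj, hw, one_mul]
    exact hu
  have hd : ‖1 - (starRingEnd ℂ) w * u‖ = ‖u - w‖ := by
    have h1 : w * (1 - (starRingEnd ℂ) w * u) = w - u := by
      have : w * (starRingEnd ℂ) w = 1 := by
        rw [Complex.mul_conj, Complex.normSq_eq_norm_sq, hw]
        simp
      linear_combination (-u) * this
    have h2 := congrArg norm h1
    rw [norm_mul, hw, one_mul, norm_sub_rev] at h2
    rw [norm_sub_rev, h2, norm_sub_rev]
  have hp := parallelogram_law_with_norm ℝ (1 : ℂ) ((starRingEnd ℂ) w * u)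
  rw [hd, norm_one] at hp
  rw [norm_div, div_pow]
  have h4 : ‖(2 : ℂ)‖ = 2 := by simp
  rw [h4]
  have hv2 : ‖(starRingEnd ℂ) w * u‖ * ‖(starRingEnd ℂ) w * u‖ ≤ 1 := by
    have := norm_nonneg ((starRingEnd ℂ) w * u)
    nlinarith
  nlinarith

/-- TARGET -/
theorem exists_peaks : ∃ (w : ℕ → ℂ) (g : ℕ → ℂ → ℂ), (∀ j, ‖w j‖ = 1) ∧
    Filter.Tendsto w Filter.atTop (nhds 1) ∧ (∀ j, Differentiable ℂ (g j)) ∧
    (∀ j, g j (w j) = 1) ∧
    (∀ (u : ℂ) (s : Finset ℕ), ‖u‖ ≤ 1 → ∑ j ∈ s, ‖g j u‖ ≤ 2) ∧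
    (∀ (i : ℕ) (s : Finset ℕ), i ∉ s → ∑ j ∈ s, ‖g j (w i)‖ ≤ 1 / 4) ∧
    (∀ s : Finset ℕ, ∑ j ∈ s, ‖g j 1‖ ≤ 1 / 4) := by
  set t : ℕ → ℝ := fun j => (1 / 2 : ℝ) ^ j with ht
  have htpos : ∀ j, 0 < t j := fun j => by positivity
  have ht1 : ∀ j, t j ≤ 1 := fun j => pow_le_one₀ (by norm_num) (by norm_num)
  have htabs : ∀ j, |t j| ≤ 1 := fun j => by rw [abs_of_pos (htpos j)]; exact ht1 j
  set w : ℕ → ℂ := fun j => C09_W (t j) with hw
  have hwn : ∀ j, ‖w j‖ = 1 := fun j => C09_norm _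
  have hex : ∀ j, ∃ N : ℕ, (1 - (t j / 4) ^ 2 / 4) ^ N ≤ (1 / 2 : ℝ) ^ (j + 3) := by
    intro j
    have hlt : 1 - (t j / 4) ^ 2 / 4 < 1 := by
      have := htpos j
      have : 0 < (t j / 4) ^ 2 := by positivity
      linarith
    obtain ⟨N, hN⟩ := exists_pow_lt_of_lt_one (show (0 : ℝ) < (1 / 2 : ℝ) ^ (j + 3) by positivity) hlt
    exact ⟨N, hN.le⟩
  choose N hN using hex
  set g : ℕ → ℂ → ℂ := fun j u => ((1 + (starRingEnd ℂ) (w j) * u) / 2) ^ (2 * N j) with hg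
  have hgn : ∀ j u, ‖u‖ ≤ 1 → ‖g j u‖ ≤ (1 - ‖u - w j‖ ^ 2 / 4) ^ N j := by
    intro j u hu
    rw [hg]
    simp only [norm_pow, pow_mul]
    exact pow_le_pow_left₀ (by positivity) (C09_peak (w j) u (hwn j) hu) _
  have hg1 : ∀ j u, ‖u‖ ≤ 1 → ‖g j u‖ ≤ 1 := by
    intro j u hu
    refine (hgn j u hu).trans (pow_le_one₀ ?_ ?_)
    · have := C09_peak (w j) u (hwn j) hu
      exact le_trans (by positivity) this
    · have : 0 ≤ ‖u - w j‖ ^ 2 := by positivity
      linarith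
  have hgs : ∀ j u, ‖u‖ ≤ 1 → t j / 4 ≤ ‖u - w j‖ → ‖g j u‖ ≤ (1 / 2 : ℝ) ^ (j + 3) := by
    intro j u hu h
    refine (hgn j u hu).trans (le_trans ?_ (hN j))
    apply pow_le_pow_left₀
    · have := C09_peak (w j) u (hwn j) hu
      exact le_trans (by positivity) this
    · have h0 : 0 ≤ t j / 4 := by have := htpos j; positivity
      have : (t j / 4) ^ 2 ≤ ‖u - w j‖ ^ 2 := pow_le_pow_left₀ h0 h 2
      linarith
  have hgeo : ∀ s : Finset ℕ, ∑ j ∈ s, (1 / 2 : ℝ) ^ (j + 3) ≤ 1 / 4 := by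
    intro s
    have h1 : ∑ j ∈ s, (1 / 2 : ℝ) ^ (j + 3) = (∑ j ∈ s, (1 / 2 : ℝ) ^ j) * (1 / 8) := by
      rw [Finset.sum_mul]
      apply Finset.sum_congr rfl
      intro j _
      rw [pow_add]
      norm_num
    have h2 : ∑ j ∈ s, (1 / 2 : ℝ) ^ j ≤ 2 := by
      have := Summable.sum_le_tsum s (fun j _ => by positivity) summable_geometric_two
      rwa [tsum_geometric_two] at this
    rw [h1]
    linarith
  have hgood : ∀ (u : ℂ) (s : Finset ℕ), ‖u‖ ≤ 1 → (∀ j ∈ s, t j / 4 ≤ ‖u - w j‖) →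
      ∑ j ∈ s, ‖g j u‖ ≤ 1 / 4 := by
    intro u s hu h
    exact (Finset.sum_le_sum fun j hj => hgs j u hu (h j hj)).trans (hgeo s)
  have hsep : ∀ i j, i ≠ j → t j / 2 ≤ ‖w i - w j‖ := by
    intro i j hij
    refine le_trans ?_ (C09_dist (t i) (t j) (htabs i) (htabs j))
    rcases lt_or_gt_of_ne hij with h | h
    · -- i < j
      have h1 : t j ≤ t i / 2 := by
        have h2 : t j ≤ t (i + 1) := pow_le_pow_of_le_one (by norm_num) (by norm_num) h
        have h3 : t (i + 1) = t i / 2 := by rw [ht]; simp only [pow_succ]; ring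
        linarith
      have := htpos j
      rw [abs_of_nonneg (by linarith [htpos i])]
      linarith
    · have h1 : t i ≤ t j / 2 := by
        have h2 : t i ≤ t (j + 1) := pow_le_pow_of_le_one (by norm_num) (by norm_num) h
        have h3 : t (j + 1) = t j / 2 := by rw [ht]; simp only [pow_succ]; ring
        linarith
      rw [abs_sub_comm, abs_of_nonneg (by linarith [htpos j])]
      linarith
  have hone : ∀ j, t j ≤ ‖(1 : ℂ) - w j‖ := by
    intro j
    have := C09_dist 0 (t j) (by simp) (htabs j)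
    rw [C09_zero, zero_sub, abs_neg, abs_of_pos (htpos j)] at this
    exact this
  refine ⟨w, g, hwn, ?_, ?_, ?_, ?_, ?_, ?_⟩
  · have h1 : Filter.Tendsto t Filter.atTop (nhds 0) :=
      tendsto_pow_atTop_nhds_zero_of_lt_one (by norm_num) (by norm_num)
    have h2 : ContinuousAt C09_W 0 := by
      unfold C09_W
      refine ContinuousAt.div ?_ ?_ (C09_ne 0)
      · fun_prop
      · fun_prop
    have h3 := h2.tendsto.comp h1
    rw [C09_zero] at h3
    exact h3
  · intro j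
    rw [hg]
    fun_prop
  · intro j
    have h1 : (starRingEnd ℂ) (w j) * w j = 1 := by
      rw [mul_comm, Complex.mul_conj, Complex.normSq_eq_norm_sq, hwn]
      simp
    rw [hg]
    simp only [h1]
    norm_num
  · intro u s hu
    by_cases h : ∃ j0, ‖u - w j0‖ < t j0 / 4
    · obtain ⟨j0, hj0⟩ := h
      have hoth : ∀ j ∈ s.erase j0, t j / 4 ≤ ‖u - w j‖ := by
        intro j hj
        have hne : j ≠ j0 := (Finset.mem_erase.1 hj).1
        by_contra hcon
        push Not at hcon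
        have s1 := hsep j j0 hne
        have s2 := hsep j0 j hne.symm
        rw [norm_sub_rev] at s2
        have s3 : ‖w j - w j0‖ ≤ ‖u - w j‖ + ‖u - w j0‖ := by
          have : w j - w j0 = (u - w j0) - (u - w j) := by ring
          rw [this, add_comm]
          exact norm_sub_le _ _
        linarith
      have h1 := hgood u (s.erase j0) hu hoth
      by_cases hm : j0 ∈ s
      · rw [← Finset.add_sum_erase s _ hm]
        have := hg1 j0 u hu
        linarith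
      · rw [Finset.erase_eq_of_notMem hm] at h1
        linarith
    · push Not at h
      have := hgood u s hu (fun j _ => h j)
      linarith
  · intro i s hi
    refine hgood (w i) s (hwn i).le (fun j hj => ?_)
    have hne : i ≠ j := fun h => hi (h ▸ hj)
    have := hsep i j hne
    have := htpos j
    linarith
  · intro s
    refine hgood 1 s (by simp) (fun j _ => ?_)
    have := hone j
    have := htpos j
    linarith

end Pool.Agent.BallAlg
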