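import Mathlib
import Pool.Agent.BallAlg.Defs
import Pool.Agent.BallAlg.Peaks

set_option autoImplicit false

open MeasureTheory Complex
open scoped ENNReal NNReal

namespace Pool.Agent.BallAlg

open Pool.Agent.HpBall Pool.Agent.HpBall2

theorem C10_coord (c : c0) (j : ℕ) : ‖c j‖ ≤ ‖c‖ := by
  rw [← ZeroAtInftyContinuousMap.norm_toBCF_eq_norm]
  exact c.toBCF.norm_coe_le_norm j

theorem C10_norm_le (c : c0) (K : ℝ) (hK : 0 ≤ K) (h : ∀ j, ‖c j‖ ≤ K) : ‖c‖ ≤ K := by
  rw [← ZeroAtInftyContinuousMap.norm_toBCF_eq_norm]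
  exact (BoundedContinuousFunction.norm_le hK).2 h

theorem C10_finite (c : c0) (ε : ℝ) (hε : 0 < ε) : {j | ε ≤ ‖c j‖}.Finite := by
  have h := c.zero_at_infty'
  rw [Filter.cocompact_eq_cofinite] at h
  have h2 := (Metric.tendsto_nhds.1 h) ε hε
  rw [Filter.eventually_cofinite] at h2
  refine h2.subset ?_
  intro j hj
  simp only [Set.mem_setOf_eq, not_lt, dist_zero_right] at hj ⊢
  exact hj

section
variable {n : ℕ} {X : Type} [NormedAddCommGroup X] [NormedSpace ℂ X] (M : BModel n X)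

/-- evaluation as a continuous linear map -/
noncomputable def C10_evL (z : E n) (hz : ‖z‖ ≤ 1) : X →L[ℂ] ℂ :=
  LinearMap.mkContinuous
    { toFun := fun x => M.ev x z
      map_add' := fun x y => by rw [map_add]; rfl
      map_smul' := fun a x => by rw [map_smul]; rfl } 1
    (fun x => by rw [one_mul]; exact M.bd x z hz)

theorem C10_evL_apply (z : E n) (hz : ‖z‖ ≤ 1) (x : X) : C10_evL M z hz x = M.ev x z := rfl

theorem C10_sum_le (G : ℕ → X) (g : ℕ → ℂ → ℂ) (i0 : Fin n)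
    (hG : ∀ j z, ‖z‖ ≤ 1 → M.ev (G j) z = g j (z i0))
    (hg : ∀ (u : ℂ) (s : Finset ℕ), ‖u‖ ≤ 1 → ∑ j ∈ s, ‖g j u‖ ≤ 2)
    (c : ℕ → ℂ) (s : Finset ℕ) (K : ℝ) (hK : 0 ≤ K) (hc : ∀ j ∈ s, ‖c j‖ ≤ K) :
    ‖∑ j ∈ s, c j • G j‖ ≤ 2 * K := by
  refine M.norm_le _ _ (by positivity) ?_
  intro z hz
  have h1 : M.ev (∑ j ∈ s, c j • G j) z = ∑ j ∈ s, c j * g j (z i0) := by
    have := map_sum (C10_evL M z hz) (fun j => c j • G j) s
    simp only [C10_evL_apply] at this
    rw [this]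
    refine Finset.sum_congr rfl ?_
    intro j _
    rw [← C10_evL_apply M z hz, map_smul, C10_evL_apply, hG j z hz, smul_eq_mul]
  rw [h1]
  have hz0 : ‖z i0‖ ≤ 1 := (PiLp.norm_apply_le z i0).trans hz
  calc ‖∑ j ∈ s, c j * g j (z i0)‖ ≤ ∑ j ∈ s, ‖c j * g j (z i0)‖ := norm_sum_le _ _
    _ ≤ ∑ j ∈ s, K * ‖g j (z i0)‖ := by
        refine Finset.sum_le_sum ?_
        intro j hj
        rw [norm_mul]
        exact mul_le_mul_of_nonneg_right (hc j hj) (norm_nonneg _)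
    _ = K * ∑ j ∈ s, ‖g j (z i0)‖ := by rw [Finset.mul_sum]
    _ ≤ K * 2 := mul_le_mul_of_nonneg_left (hg _ s hz0) hK
    _ = 2 * K := by ring

theorem C10_summable [CompleteSpace X] (G : ℕ → X) (g : ℕ → ℂ → ℂ) (i0 : Fin n)
    (hG : ∀ j z, ‖z‖ ≤ 1 → M.ev (G j) z = g j (z i0))
    (hg : ∀ (u : ℂ) (s : Finset ℕ), ‖u‖ ≤ 1 → ∑ j ∈ s, ‖g j u‖ ≤ 2)
    (c : c0) : Summable (fun j => c j • G j) := by
  rw [summable_iff_vanishing_norm]
  intro ε hε
  refine ⟨(C10_finite c (ε / 3) (by positivity)).toFinset, ?_⟩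
  intro t ht
  have h1 : ∀ j ∈ t, ‖c j‖ ≤ ε / 3 := by
    intro j hj
    have h2 := Finset.disjoint_left.1 ht hj
    simp only [Set.Finite.mem_toFinset, Set.mem_setOf_eq, not_le] at h2
    exact h2.le
  have h3 := C10_sum_le M G g i0 hG hg c t (ε / 3) (by positivity) h1
  linarith

theorem C10_tsum_le [CompleteSpace X] (G : ℕ → X) (g : ℕ → ℂ → ℂ) (i0 : Fin n)
    (hG : ∀ j z, ‖z‖ ≤ 1 → M.ev (G j) z = g j (z i0))
    (hg : ∀ (u : ℂ) (s : Finset ℕ), ‖u‖ ≤ 1 → ∑ j ∈ s, ‖g j u‖ ≤ 2)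
    (c : c0) : ‖∑' j, c j • G j‖ ≤ 2 * ‖c‖ := by
  have h1 := (C10_summable M G g i0 hG hg c).hasSum
  have h2 : Filter.Tendsto (fun s : Finset ℕ => ‖∑ j ∈ s, c j • G j‖) Filter.atTop
      (nhds ‖∑' j, c j • G j‖) := (continuous_norm.tendsto _).comp h1
  refine le_of_tendsto' h2 ?_
  intro s
  exact C10_sum_le M G g i0 hG hg c s ‖c‖ (norm_nonneg _) (fun j _ => C10_coord c j)

/-- the map `c ↦ ∑ c j G j` -/
noncomputable def C10_U [CompleteSpace X] (G : ℕ → X) (g : ℕ → ℂ → ℂ) (i0 : Fin n)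
    (hG : ∀ j z, ‖z‖ ≤ 1 → M.ev (G j) z = g j (z i0))
    (hg : ∀ (u : ℂ) (s : Finset ℕ), ‖u‖ ≤ 1 → ∑ j ∈ s, ‖g j u‖ ≤ 2) : c0 →L[ℂ] X :=
  LinearMap.mkContinuous
    { toFun := fun c => ∑' j, c j • G j
      map_add' := fun c d => by
        rw [← (C10_summable M G g i0 hG hg c).tsum_add (C10_summable M G g i0 hG hg d)]
        congr 1; ext j
        rw [ZeroAtInftyContinuousMap.add_apply, add_smul]
      map_smul' := fun a c => by
        rw [RingHom.id_apply, ← (C10_summable M G g i0 hG hg c).tsum_const_smul a]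
        congr 1; ext j
        rw [ZeroAtInftyContinuousMap.smul_apply, smul_eq_mul, mul_smul] } 2
    (fun c => C10_tsum_le M G g i0 hG hg c)

/-- the map `x ↦ (x(ζ j) - x(ζ))_j` -/
noncomputable def C10_V (ζ : ℕ → E n) (e : E n) (hζ : ∀ j, ‖ζ j‖ ≤ 1) (he : ‖e‖ ≤ 1)
    (hlim : Filter.Tendsto ζ Filter.atTop (nhds e)) : X →L[ℂ] c0 :=
  LinearMap.mkContinuous
    { toFun := fun x =>
        { toFun := fun j => M.ev x (ζ j) - M.ev x e
          continuous_toFun := continuous_of_discreteTopology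
          zero_at_infty' := by
            rw [Filter.cocompact_eq_cofinite, Nat.cofinite_eq_atTop]
            have h1 : Filter.Tendsto (fun j => M.ev x (ζ j)) Filter.atTop (nhds (M.ev x e)) := by
              have h2 := (M.cont x) e (by simpa using he)
              refine Filter.Tendsto.comp h2 ?_
              refine tendsto_nhdsWithin_iff.2 ⟨hlim, Filter.Eventually.of_forall ?_⟩
              intro j
              simpa using hζ j
            have h3 := h1.sub (tendsto_const_nhds (x := M.ev x e))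
            rwa [sub_self] at h3 }
      map_add' := fun x y => by
        ext j
        change M.ev (x + y) (ζ j) - M.ev (x + y) e
          = (M.ev x (ζ j) - M.ev x e) + (M.ev y (ζ j) - M.ev y e)
        rw [map_add]
        simp only [Pi.add_apply]
        ring
      map_smul' := fun a x => by
        ext j
        change M.ev (a • x) (ζ j) - M.ev (a • x) e = a • (M.ev x (ζ j) - M.ev x e)
        rw [map_smul]
        simp only [Pi.smul_apply, smul_eq_mul]
        ring } 2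
    (fun x => by
      refine C10_norm_le _ _ (by positivity) ?_
      intro j
      change ‖M.ev x (ζ j) - M.ev x e‖ ≤ 2 * ‖x‖
      calc ‖M.ev x (ζ j) - M.ev x e‖ ≤ ‖M.ev x (ζ j)‖ + ‖M.ev x e‖ := norm_sub_le _ _
        _ ≤ ‖x‖ + ‖x‖ := add_le_add (M.bd x _ (hζ j)) (M.bd x _ he)
        _ = 2 * ‖x‖ := by ring)

theorem C10_V_apply (ζ : ℕ → E n) (e : E n) (hζ : ∀ j, ‖ζ j‖ ≤ 1) (he : ‖e‖ ≤ 1)
    (hlim : Filter.Tendsto ζ Filter.atTop (nhds e)) (x : X) (j : ℕ) :
    C10_V M ζ e hζ he hlim x j = M.ev x (ζ j) - M.ev x e := rfl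

theorem C10_ev_U [CompleteSpace X] (G : ℕ → X) (g : ℕ → ℂ → ℂ) (i0 : Fin n)
    (hG : ∀ j z, ‖z‖ ≤ 1 → M.ev (G j) z = g j (z i0))
    (hg : ∀ (u : ℂ) (s : Finset ℕ), ‖u‖ ≤ 1 → ∑ j ∈ s, ‖g j u‖ ≤ 2) (c : c0)
    (z : E n) (hz : ‖z‖ ≤ 1) :
    HasSum (fun j => c j * g j (z i0)) (M.ev (C10_U M G g i0 hG hg c) z) := by
  have h1 := (C10_summable M G g i0 hG hg c).hasSum
  have h2 := h1.mapL (C10_evL M z hz)
  have h3 : (fun j => (C10_evL M z hz) (c j • G j)) = fun j => c j * g j (z i0) := by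
    ext j
    rw [map_smul, C10_evL_apply, hG j z hz, smul_eq_mul]
  rw [h3] at h2
  exact h2

end

/-- TARGET -/
theorem exists_c0 (n : ℕ) (hn : 1 ≤ n) {X : Type} [NormedAddCommGroup X] [NormedSpace ℂ X]
    [CompleteSpace X] (M : BModel n X) :
    ∃ (U : c0 →L[ℂ] X) (V : X →L[ℂ] c0), ∀ c, V (U c) = c := by
  classical
  obtain ⟨w, g, hw, hwlim, hgd, hgw, hg2, hg4, hg1⟩ := exists_peaks
  let i0 : Fin n := ⟨0, hn⟩
  have hex : ∀ j, ∃ f : X, ∀ z : E n, ‖z‖ ≤ 1 → M.ev f z = g j (z i0) := by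
    intro j
    refine M.surj (fun z => g j (z i0)) ?_ ?_
    · exact ((hgd j).continuous.comp (by fun_prop)).continuousOn
    · exact ((hgd j).comp (by fun_prop)).differentiableOn
  choose G hG using hex
  let ζ : ℕ → E n := fun j => EuclideanSpace.single i0 (w j)
  let e : E n := EuclideanSpace.single i0 1
  have hζ : ∀ j, ‖ζ j‖ ≤ 1 := by
    intro j
    simp only [ζ, EuclideanSpace.norm_single, hw j, le_refl]
  have he : ‖e‖ ≤ 1 := by
    simp [e]
  have hlim : Filter.Tendsto ζ Filter.atTop (nhds e) := by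
    have hc : Continuous (fun a : ℂ => (EuclideanSpace.single i0 a : E n)) := by
      have : (fun a : ℂ => (EuclideanSpace.single i0 a : E n))
          = fun a => a • (EuclideanSpace.single i0 (1 : ℂ) : E n) := by
        ext a k
        simp [EuclideanSpace.single_apply]
      rw [this]
      fun_prop
    exact (hc.tendsto 1).comp hwlim
  let U := C10_U M G g i0 hG hg2
  let V := C10_V M ζ e hζ he hlim
  let T : c0 →L[ℂ] c0 := V.comp U
  have hT : ∀ c i, HasSum (fun j => c j * (g j (w i) - g j 1)) (T c i) := by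
    intro c i
    have h1 := C10_ev_U M G g i0 hG hg2 c (ζ i) (hζ i)
    have h2 := C10_ev_U M G g i0 hG hg2 c e he
    have h3 := h1.sub h2
    have h4 : (ζ i) i0 = w i := by simp [ζ]
    have h5 : e i0 = 1 := by simp [e]
    rw [h4, h5] at h3
    have h6 : (fun j => c j * g j (w i) - c j * g j 1) = fun j => c j * (g j (w i) - g j 1) := by
      ext j; ring
    rw [h6] at h3
    exact h3
  have hbound : ∀ c : c0, ‖(1 - T) c‖ ≤ 1 / 2 * ‖c‖ := by
    intro c
    refine C10_norm_le _ _ (by positivity) ?_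
    intro i
    have h1 : HasSum (fun j => if j = i then c i else 0) (c i) := hasSum_ite_eq i (c i)
    have h2 := h1.sub (hT c i)
    have h3 : ((1 - T) c) i = c i - T c i := by
      rfl
    rw [h3]
    have h4 : Filter.Tendsto (fun s : Finset ℕ =>
        ‖∑ j ∈ s, ((if j = i then c i else 0) - c j * (g j (w i) - g j 1))‖) Filter.atTop
        (nhds ‖c i - T c i‖) := (continuous_norm.tendsto _).comp h2
    refine le_of_tendsto h4 ?_
    filter_upwards [Filter.eventually_ge_atTop ({i} : Finset ℕ)] with s hs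
    have hi : i ∈ s := hs (Finset.mem_singleton_self i)
    have h5 : ∑ j ∈ s, ((if j = i then c i else 0) - c j * (g j (w i) - g j 1))
        = (∑ j ∈ s, c j * g j 1) - ∑ j ∈ s.erase i, c j * g j (w i) := by
      have h6 : ∑ j ∈ s, c j * g j (w i) = c i * g i (w i) + ∑ j ∈ s.erase i, c j * g j (w i) :=
        (Finset.add_sum_erase s _ hi).symm
      have h7 : ∑ j ∈ s, (if j = i then c i else 0) = c i := by
        rw [Finset.sum_ite_eq' s i]; simp [hi]
      rw [hgw i, mul_one] at h6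
      rw [Finset.sum_sub_distrib, h7]
      have h8 : ∑ j ∈ s, c j * (g j (w i) - g j 1)
          = (∑ j ∈ s, c j * g j (w i)) - ∑ j ∈ s, c j * g j 1 := by
        rw [← Finset.sum_sub_distrib]
        refine Finset.sum_congr rfl ?_
        intro j _; ring
      rw [h8, h6]; ring
    rw [h5]
    have h9 : ‖∑ j ∈ s, c j * g j 1‖ ≤ ‖c‖ * (1 / 4) := by
      calc ‖∑ j ∈ s, c j * g j 1‖ ≤ ∑ j ∈ s, ‖c j * g j 1‖ := norm_sum_le _ _
        _ ≤ ∑ j ∈ s, ‖c‖ * ‖g j 1‖ := by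
            refine Finset.sum_le_sum ?_
            intro j hj
            rw [norm_mul]
            exact mul_le_mul_of_nonneg_right (C10_coord c j) (norm_nonneg _)
        _ = ‖c‖ * ∑ j ∈ s, ‖g j 1‖ := by rw [Finset.mul_sum]
        _ ≤ ‖c‖ * (1 / 4) := mul_le_mul_of_nonneg_left (hg1 s) (norm_nonneg _)
    have h10 : ‖∑ j ∈ s.erase i, c j * g j (w i)‖ ≤ ‖c‖ * (1 / 4) := by
      calc ‖∑ j ∈ s.erase i, c j * g j (w i)‖ ≤ ∑ j ∈ s.erase i, ‖c j * g j (w i)‖ :=
            norm_sum_le _ _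
        _ ≤ ∑ j ∈ s.erase i, ‖c‖ * ‖g j (w i)‖ := by
            refine Finset.sum_le_sum ?_
            intro j hj
            rw [norm_mul]
            exact mul_le_mul_of_nonneg_right (C10_coord c j) (norm_nonneg _)
        _ = ‖c‖ * ∑ j ∈ s.erase i, ‖g j (w i)‖ := by rw [Finset.mul_sum]
        _ ≤ ‖c‖ * (1 / 4) := mul_le_mul_of_nonneg_left
            (hg4 i (s.erase i) (Finset.notMem_erase i s)) (norm_nonneg _)
    calc _ ≤ ‖∑ j ∈ s, c j * g j 1‖ + ‖∑ j ∈ s.erase i, c j * g j (w i)‖ := norm_sub_le _ _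
      _ ≤ ‖c‖ * (1 / 4) + ‖c‖ * (1 / 4) := add_le_add h9 h10
      _ = 1 / 2 * ‖c‖ := by ring
  have hn1 : ‖(1 : c0 →L[ℂ] c0) - T‖ < 1 := by
    refine lt_of_le_of_lt (ContinuousLinearMap.opNorm_le_bound _ (by norm_num) hbound) ?_
    norm_num
  have hu : IsUnit T := by
    have h1 := (Units.oneSub ((1 : c0 →L[ℂ] c0) - T) hn1).isUnit
    rw [Units.val_oneSub] at h1
    have h2 : (1 : c0 →L[ℂ] c0) - (1 - T) = T := by
      refine ContinuousLinearMap.ext fun c => ?_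
      change c - (c - T c) = T c
      abel
    rw [h2] at h1
    exact h1
  obtain ⟨u, hu⟩ := hu
  refine ⟨U, (↑u⁻¹ : c0 →L[ℂ] c0).comp V, ?_⟩
  intro c
  have h1 : ((↑u⁻¹ : c0 →L[ℂ] c0) * (↑u : c0 →L[ℂ] c0)) c = c := by
    rw [Units.inv_mul]; rfl
  rw [hu] at h1
  exact h1

end Pool.Agent.BallAlg
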