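import Mathlib
import Pool.Agent.BallAlg.Defs
import Pool.Agent.HpBall.Sphere
import Pool.Agent.HpBall.Geom
import Pool.Agent.HpBall2.KkDecay
import Pool.Agent.HpBall2.Repro
import Pool.Agent.HpBall2.Bands
import Pool.Agent.HpBall.KerInt

set_option autoImplicit false

open MeasureTheory Complex
open scoped ENNReal NNReal

namespace Pool.Agent.BallAlg

open Pool.Agent.HpBall Pool.Agent.HpBall2

theorem C04_bump : ∃ χ : ℝ → ℝ, Bump χ (1 / 4) 16 ∧ ∀ x, 1 / 2 ≤ x → x ≤ 8 → χ x = 1 := by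
  let f : ContDiffBump (17 / 4 : ℝ) := ⟨15 / 4, 4, by norm_num, by norm_num⟩
  refine ⟨f, ⟨by norm_num, by norm_num, f.contDiff, ?_, ?_⟩, ?_⟩
  · intro x hx
    apply f.zero_of_le_dist
    show (4 : ℝ) ≤ dist x (17 / 4)
    rw [Real.dist_eq, abs_of_nonpos (by linarith)]
    linarith
  · intro x hx
    apply f.zero_of_le_dist
    show (4 : ℝ) ≤ dist x (17 / 4)
    rw [Real.dist_eq, abs_of_nonneg (by linarith)]
    linarith
  · intro x h1 h2
    apply f.one_of_mem_closedBall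
    show x ∈ Metric.closedBall (17 / 4) (15 / 4)
    rw [Metric.mem_closedBall, Real.dist_eq, abs_le]
    constructor <;> linarith

theorem C04_chi0 {χ : ℝ → ℝ} {a b : ℝ} (hχ : Bump χ a b) (N : ℝ) :
    χ (((0 : ℕ) : ℝ) / N) = 0 := by
  rw [Nat.cast_zero, zero_div]
  exact hχ.lo 0 hχ.apos.le

theorem C04_L1 (n : ℕ) (hn : 1 ≤ n) (χ : ℝ → ℝ) (a b : ℝ) (hχ : Bump χ a b) : ∃ D : ℝ, 0 < D ∧
    ∀ N : ℝ, 1 ≤ N → ∀ z : E n, ‖z‖ ≤ 1 → ∫ ζ, ‖kk n χ N ζ z‖ ∂(sig n) ≤ D := by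
  obtain ⟨B, hB, hdec⟩ := kk_decay n hn χ a b hχ ((n : ℝ) + 1) (by positivity) 1 one_pos
  obtain ⟨C, hC, hint⟩ := kernel_int n hn ((n : ℝ) + 1) (by linarith)
  refine ⟨B * C, by positivity, ?_⟩
  intro N hN z hz
  have hN0 : 0 < N := by linarith
  by_cases hz0 : z = 0
  · have h0 : ∀ ζ : E n, kk n χ N ζ z = 0 := by
      intro ζ
      rw [hz0]
      unfold kk
      have : ∀ k : ℕ, ((χ ((k : ℝ) / N) * cn n k : ℝ) : ℂ) * (inner ℂ ζ (0 : E n)) ^ k = 0 := by
        intro k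
        rcases Nat.eq_zero_or_pos k with hk | hk
        · subst hk
          rw [C04_chi0 hχ N]
          simp
        · rw [inner_zero_right, zero_pow hk.ne', mul_zero]
      simp only [this, tsum_zero]
    simp only [h0, norm_zero, integral_zero]
    positivity
  · have hr0 : ‖z‖ ≠ 0 := norm_ne_zero_iff.2 hz0
    have hrc : ((‖z‖ : ℝ) : ℂ) ≠ 0 := by exact_mod_cast hr0
    obtain ⟨ξ, hξ⟩ : ∃ ξ : E n, ξ = ((‖z‖ : ℝ) : ℂ)⁻¹ • z := ⟨_, rfl⟩
    have hξ1 : ‖ξ‖ = 1 := by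
      rw [hξ, norm_smul, norm_inv, Complex.norm_real, norm_norm, inv_mul_cancel₀ hr0]
    have hzξ : ((‖z‖ : ℝ) : ℂ) • ξ = z := by
      rw [hξ, smul_smul, mul_inv_cancel₀ hrc, one_smul]
    have hpt : ∀ᵐ ζ ∂(sig n), ‖kk n χ N ζ z‖ ≤
        B * N ^ (n : ℝ) * (1 + N * rho ζ ξ) ^ (-((n : ℝ) + 1)) := by
      filter_upwards [sig_ae_norm hn] with ζ hζ
      have h1 := hdec N hN ζ ξ hζ hξ1 ‖z‖ (norm_nonneg _) hz
      rw [hzξ, rho_comm ξ ζ] at h1
      exact h1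
    have hpos : ∀ ζ : E n, 0 < 1 + N * rho ζ ξ := by
      intro ζ
      have := rho_nonneg ζ ξ
      positivity
    have hcont : Continuous (fun ζ : E n => (1 + N * rho ζ ξ) ^ (-((n : ℝ) + 1))) := by
      apply Continuous.rpow_const
      · exact continuous_const.add (continuous_const.mul (continuous_rho_left' ξ))
      · intro ζ
        exact Or.inl (hpos ζ).ne'
    have hintg : Integrable (fun ζ : E n => (1 + N * rho ζ ξ) ^ (-((n : ℝ) + 1))) (sig n) := by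
      apply Integrable.of_bound hcont.aestronglyMeasurable 1
      refine Filter.Eventually.of_forall fun ζ => ?_
      rw [Real.norm_eq_abs, abs_of_nonneg (Real.rpow_nonneg (hpos ζ).le _)]
      apply Real.rpow_le_one_of_one_le_of_nonpos
      · have := rho_nonneg ζ ξ
        have : 0 ≤ N * rho ζ ξ := by positivity
        linarith
      · have : (0 : ℝ) ≤ n := Nat.cast_nonneg n
        linarith
    have hle : ∫ ζ, (1 + N * rho ζ ξ) ^ (-((n : ℝ) + 1)) ∂(sig n) ≤ C * N ^ (-(n : ℝ)) := by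
      rw [integral_eq_lintegral_of_nonneg_ae
        (Filter.Eventually.of_forall fun ζ => Real.rpow_nonneg (hpos ζ).le _)
        hcont.aestronglyMeasurable]
      exact ENNReal.toReal_le_of_le_ofReal (by positivity) (hint ξ hξ1 N hN0)
    calc ∫ ζ, ‖kk n χ N ζ z‖ ∂(sig n)
        ≤ ∫ ζ, B * N ^ (n : ℝ) * (1 + N * rho ζ ξ) ^ (-((n : ℝ) + 1)) ∂(sig n) :=
          integral_mono_of_nonneg (Filter.Eventually.of_forall fun _ => norm_nonneg _)
            (hintg.const_mul _) hpt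
      _ = B * N ^ (n : ℝ) * ∫ ζ, (1 + N * rho ζ ξ) ^ (-((n : ℝ) + 1)) ∂(sig n) :=
          integral_const_mul _ _
      _ ≤ B * N ^ (n : ℝ) * (C * N ^ (-(n : ℝ))) :=
          mul_le_mul_of_nonneg_left hle (by positivity)
      _ = B * C * (N ^ (n : ℝ) * N ^ (-(n : ℝ))) := by ring
      _ = B * C := by
          rw [← Real.rpow_add hN0, add_neg_cancel, Real.rpow_zero, mul_one]

theorem C04_int (n : ℕ) (hn : 1 ≤ n) (k : ℕ) (P : E n → ℂ) (hP : Differentiable ℂ P)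
    (hh : ∀ (c : ℂ) (z : E n), P (c • z) = c ^ k * P z) (j : ℕ) (z : E n) :
    ∫ ζ, P ζ * (inner ℂ ζ z : ℂ) ^ j ∂(sig n) = if k = j then P z / (cn n j : ℂ) else 0 := by
  by_cases hjk : k = j
  · rw [if_pos hjk]
    subst hjk
    have h1 := repro_hom n hn k P hP hh z
    have hcn : (cn n k : ℂ) ≠ 0 := by exact_mod_cast (B02_cn_pos n k).ne'
    rw [eq_div_iff hcn, mul_comm]
    exact h1.symm
  · rw [if_neg hjk]
    have h1 := m_orth hjk P (fun ξ => (inner ℂ z ξ : ℂ) ^ j) hh (by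
      intro c ξ
      show (inner ℂ z (c • ξ) : ℂ) ^ j = c ^ j * (inner ℂ z ξ : ℂ) ^ j
      rw [inner_smul_right, mul_pow])
    rw [← h1]
    congr 1
    funext ξ
    rw [map_pow, inner_conj_symm]

/-- TARGET -/
theorem kern_facts (n : ℕ) (hn : 1 ≤ n) : ∃ D : ℝ, 0 < D ∧ ∀ l : ℕ, ∃ K : E n → E n → ℂ,
    Continuous (fun q : E n × E n => K q.1 q.2) ∧ (∀ ζ, Differentiable ℂ (K ζ)) ∧
    (∀ z : E n, ‖z‖ ≤ 1 → ∫ ζ, ‖K ζ z‖ ∂(sig n) ≤ D) ∧
    (∀ (k : ℕ) (P : E n → ℂ), Differentiable ℂ P → (∀ (c : ℂ) (z : E n), P (c • z) = c ^ k * P z) →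
      (k = 0 ∨ 2 ^ l ≤ 2 * k ∧ k ≤ 2 ^ (l + 3)) → ∀ z, ∫ ζ, P ζ * K ζ z ∂(sig n) = P z) := by
  obtain ⟨χ, hχ, hχ1⟩ := C04_bump
  obtain ⟨D1, hD1, hL1⟩ := C04_L1 n hn χ (1 / 4) 16 hχ
  have hc0 := B02_cn_pos n 0
  refine ⟨cn n 0 * (sig n).real Set.univ + D1, by positivity, ?_⟩
  intro l
  have hN1 : (1 : ℝ) ≤ (2 : ℝ) ^ l := one_le_pow₀ (by norm_num)
  have hN0 : (0 : ℝ) < (2 : ℝ) ^ l := by positivity
  have hkc := kk_cont n χ (1 / 4) 16 hχ ((2 : ℝ) ^ l) hN0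
  obtain ⟨R, hR, hR0⟩ : ∃ R : ℕ, ⌈(16 : ℝ) * (2 : ℝ) ^ l⌉₊ ≤ R ∧ 0 < R :=
    ⟨⌈(16 : ℝ) * (2 : ℝ) ^ l⌉₊ + 1, by omega, by omega⟩
  have hkk := fun x z : E n => B16_kk (n := n) hχ hN0 hR x z
  refine ⟨fun ζ z => (cn n 0 : ℂ) + kk n χ ((2 : ℝ) ^ l) ζ z, ?_, ?_, ?_, ?_⟩
  · exact continuous_const.add hkc
  · intro ζ
    apply (differentiable_const _).add
    have h1 : kk n χ ((2 : ℝ) ^ l) ζ = fun z => ∑ k ∈ Finset.range R,
        ((χ ((k : ℝ) / (2 : ℝ) ^ l) * cn n k : ℝ) : ℂ) * (inner ℂ ζ z) ^ k := by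
      funext z
      exact hkk ζ z
    rw [h1]
    have h2 : Differentiable ℂ (fun z : E n => (inner ℂ ζ z : ℂ)) :=
      (innerSL ℂ ζ).differentiable
    apply Differentiable.fun_sum
    intro k _
    exact (h2.pow k).const_mul _
  · intro z hz
    have hk2 : Continuous (fun ζ : E n => kk n χ ((2 : ℝ) ^ l) ζ z) :=
      hkc.comp (continuous_id.prodMk continuous_const)
    have hI1 := (m_integrable hn hk2).norm
    have hI2 := (m_integrable hn ((continuous_const (y := (cn n 0 : ℂ))).add hk2)).norm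
    calc ∫ ζ, ‖(cn n 0 : ℂ) + kk n χ ((2 : ℝ) ^ l) ζ z‖ ∂(sig n)
        ≤ ∫ ζ, (cn n 0 + ‖kk n χ ((2 : ℝ) ^ l) ζ z‖) ∂(sig n) := by
          apply integral_mono hI2 ((integrable_const _).add hI1)
          intro ζ
          refine (norm_add_le _ _).trans ?_
          rw [Complex.norm_real, Real.norm_eq_abs, abs_of_pos hc0]
          exact le_refl _
      _ = cn n 0 * (sig n).real Set.univ + ∫ ζ, ‖kk n χ ((2 : ℝ) ^ l) ζ z‖ ∂(sig n) := by
          rw [integral_add (integrable_const _) hI1, integral_const, smul_eq_mul, mul_comm]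
      _ ≤ cn n 0 * (sig n).real Set.univ + D1 := by
          have := hL1 ((2 : ℝ) ^ l) hN1 z hz
          linarith
  · intro k P hP hh hk z
    obtain ⟨w, hw⟩ : ∃ w : ℕ → ℂ, w = fun j : ℕ => (if j = 0 then (cn n 0 : ℂ) else 0) +
      ((χ ((j : ℝ) / (2 : ℝ) ^ l) * cn n j : ℝ) : ℂ) := ⟨_, rfl⟩
    have hK : ∀ ζ : E n, P ζ * ((cn n 0 : ℂ) + kk n χ ((2 : ℝ) ^ l) ζ z) =
        ∑ j ∈ Finset.range R, w j * (P ζ * (inner ℂ ζ z : ℂ) ^ j) := by
      intro ζ
      have h1 : (cn n 0 : ℂ) = ∑ j ∈ Finset.range R,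
          (if j = 0 then (cn n 0 : ℂ) else 0) * (inner ℂ ζ z : ℂ) ^ j := by
        rw [Finset.sum_eq_single 0]
        · simp
        · intro j _ hj
          rw [if_neg hj, zero_mul]
        · intro h
          exact absurd (Finset.mem_range.2 hR0) h
      rw [hkk ζ z]
      conv_lhs => rw [h1]
      rw [← Finset.sum_add_distrib, Finset.mul_sum]
      refine Finset.sum_congr rfl fun j _ => ?_
      rw [hw]
      ring
    have hcontj : ∀ j : ℕ, Continuous (fun ζ : E n => w j * (P ζ * (inner ℂ ζ z : ℂ) ^ j)) := by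
      intro j
      exact continuous_const.mul (hP.continuous.mul
        ((continuous_id.inner continuous_const).pow j))
    show ∫ ζ, P ζ * ((cn n 0 : ℂ) + kk n χ ((2 : ℝ) ^ l) ζ z) ∂(sig n) = P z
    simp_rw [hK]
    rw [integral_finsetSum _ (fun j _ => m_integrable hn (hcontj j))]
    simp_rw [integral_const_mul, C04_int n hn k P hP hh]
    have hwk : w k = (cn n k : ℂ) ∧ k ∈ Finset.range R := by
      rcases Nat.eq_zero_or_pos k with hk0 | hk0
      · subst hk0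
        refine ⟨?_, Finset.mem_range.2 hR0⟩
        rw [hw]
        show (if (0 : ℕ) = 0 then (cn n 0 : ℂ) else 0) + _ = _
        rw [C04_chi0 hχ]
        simp
      · have hk' := hk.resolve_left hk0.ne'
        have h1 : ((2 : ℝ) ^ l) ≤ 2 * (k : ℝ) := by exact_mod_cast hk'.1
        have h2 : (k : ℝ) ≤ (2 : ℝ) ^ (l + 3) := by exact_mod_cast hk'.2
        have h3 : χ ((k : ℝ) / (2 : ℝ) ^ l) = 1 := by
          apply hχ1
          · rw [le_div_iff₀ hN0]; linarith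
          · rw [div_le_iff₀ hN0]
            rw [pow_add] at h2
            linarith
        refine ⟨?_, ?_⟩
        · rw [hw]
          show (if k = 0 then (cn n 0 : ℂ) else 0) + _ = _
          rw [if_neg hk0.ne', h3]
          simp
        · by_contra hcon
          have h4 := B16_zero hχ hN0 hR hcon
          rw [h3] at h4
          exact one_ne_zero h4
    rw [Finset.sum_eq_single k]
    · rw [if_pos rfl, hwk.1]
      have hcn : (cn n k : ℂ) ≠ 0 := by exact_mod_cast (B02_cn_pos n k).ne'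
      field_simp
    · intro j _ hj
      rw [if_neg hj.symm, mul_zero]
    · intro h
      exact absurd hwk.2 h

end Pool.Agent.BallAlg
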