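import Mathlib
import Pool.Agent.BallAlg.Defs
import Pool.Agent.HpBall.Sphere
import Pool.Agent.HpBall.Geom
import Pool.Agent.HpBall2.HcProps
import Pool.Agent.BallAlg.Kern

set_option autoImplicit false

open MeasureTheory Complex
open scoped ENNReal NNReal

namespace Pool.Agent.BallAlg

open Pool.Agent.HpBall Pool.Agent.HpBall2

theorem C05_cauchy {n : ℕ} {f : E n → ℂ} (hf : Differentiable ℂ f) (z : E n) (M : ℝ)
    (hM : ∀ w ∈ Metric.closedBall z 1, ‖f w‖ ≤ M) : ‖fderiv ℂ f z‖ ≤ M := by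
  have hM0 : 0 ≤ M := (norm_nonneg _).trans (hM z (Metric.mem_closedBall_self zero_le_one))
  refine ContinuousLinearMap.opNorm_le_bound _ hM0 fun v => ?_
  by_cases hv : v = 0
  · subst hv; simp
  have hvn : 0 < ‖v‖ := norm_pos_iff.mpr hv
  have hd : HasDerivAt (fun t : ℂ => f (z + t • v)) (fderiv ℂ f z v) 0 := by
    have h1 : HasDerivAt (fun t : ℂ => z + t • v) v 0 := by
      have := ((hasDerivAt_id (0 : ℂ)).smul_const v).const_add z
      simpa using this
    have h2 : HasFDerivAt f (fderiv ℂ f z) (z + (0 : ℂ) • v) := by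
      rw [zero_smul, add_zero]; exact (hf z).hasFDerivAt
    exact h2.comp_hasDerivAt (0 : ℂ) h1
  have hdc : DiffContOnCl ℂ (fun t : ℂ => f (z + t • v)) (Metric.ball 0 (1 / ‖v‖)) := by
    apply Differentiable.diffContOnCl
    exact hf.comp ((differentiable_const z).add (differentiable_id.smul_const v))
  have h3 := Complex.norm_deriv_le_of_forall_mem_sphere_norm_le (by positivity) hdc (C := M) (by
    intro t ht
    apply hM
    rw [mem_sphere_zero_iff_norm] at ht
    rw [Metric.mem_closedBall, dist_eq_norm, add_sub_cancel_left, norm_smul, ht]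
    rw [one_div, inv_mul_cancel₀ hvn.ne'])
  rw [hd.deriv, div_div_eq_mul_div, div_one] at h3
  exact h3

theorem C05_int {n : ℕ} {μ : Measure (E n)} [IsFiniteMeasure μ] (hμ : ∀ᵐ ζ ∂μ, ‖ζ‖ = 1)
    {f : E n → ℂ} (hf : Continuous f) : Integrable f μ := by
  obtain ⟨M, hM⟩ := (isCompact_closedBall (0 : E n) 1).exists_bound_of_continuousOn hf.continuousOn
  refine (integrable_const M).mono' hf.aestronglyMeasurable ?_
  filter_upwards [hμ] with ζ hζ
  exact hM ζ (by rw [mem_closedBall_zero_iff, hζ])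

theorem C05_diff {n : ℕ} {μ : Measure (E n)} [IsFiniteMeasure μ] (hμ : ∀ᵐ ζ ∂μ, ‖ζ‖ = 1)
    {K : E n → E n → ℂ} (hK : Continuous (fun q : E n × E n => K q.1 q.2))
    (hd : ∀ ζ, Differentiable ℂ (K ζ)) : Differentiable ℂ fun z => ∫ ζ, K ζ z ∂μ := by
  intro z0
  obtain ⟨M, hM⟩ := ((isCompact_closedBall (0 : E n) 1).prod
    (isCompact_closedBall z0 2)).exists_bound_of_continuousOn hK.continuousOn
  have hKz : ∀ z, Continuous fun ζ => K ζ z := fun z => by
    have h1 : Continuous fun ζ : E n => ((ζ, z) : E n × E n) := by fun_prop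
    exact hK.comp h1
  have := hasFDerivAt_integral_of_dominated_of_fderiv_le (𝕜 := ℂ) (μ := μ) (x₀ := z0)
    (F := fun z ζ => K ζ z) (F' := fun z ζ => fderiv ℂ (K ζ) z) (bound := fun _ => M)
    (s := Metric.ball z0 1) (Metric.ball_mem_nhds z0 one_pos)
    (Filter.Eventually.of_forall fun z => (hKz z).aestronglyMeasurable)
    (C05_int hμ (hKz z0))
    (by
      have h1 : Measurable (fun p : E n × E n => fderiv ℂ (K p.1) p.2) :=
        measurable_fderiv_with_param ℂ (f := K) hK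
      have h2 : Measurable (fun ζ : E n => fderiv ℂ (K ζ) z0) :=
        h1.comp (measurable_id.prodMk measurable_const)
      exact h2.aestronglyMeasurable)
    (by
      filter_upwards [hμ] with ζ hζ z hz
      apply C05_cauchy (hd ζ)
      intro w hw
      apply hM (ζ, w)
      refine ⟨by rw [mem_closedBall_zero_iff, hζ], ?_⟩
      rw [Metric.mem_closedBall] at hw ⊢
      rw [Metric.mem_ball] at hz
      calc dist w z0 ≤ dist w z + dist z z0 := dist_triangle _ _ _
        _ ≤ 2 := by linarith)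
    (integrable_const M)
    (Filter.Eventually.of_forall fun ζ z _ => (hd ζ z).hasFDerivAt)
  exact this.differentiableAt

theorem C05_band {X : Type} [NormedAddCommGroup X] [NormedSpace ℂ X] {H : ℕ → X →L[ℂ] X}
    (hG : Grad X H) (T : ℕ) (x : X) (hx : ∀ k, T ≤ k → H k x = 0) :
    x = ∑ k ∈ Finset.range T, H k x := by
  set x' := ∑ k ∈ Finset.range T, H k x with hx'
  set d := x - x' with hd
  have hHx' : ∀ k, H k x' = H k x := by
    intro k
    rw [hx', map_sum]
    simp only [hG.comp]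
    rw [Finset.sum_ite_eq (Finset.range T) k]
    split_ifs with h
    · rfl
    · rw [Finset.mem_range, not_lt] at h
      exact (hx k h).symm
  have hHd : ∀ k, H k d = 0 := fun k => by rw [hd, map_sub, hHx', sub_self]
  have hnorm : ∀ ε : ℝ, 0 < ε → ‖d‖ ≤ 2 * ε := by
    intro ε hε
    obtain ⟨N, y, hy, hdy⟩ := hG.dense d ε hε
    have hHy : ∀ k, N ≤ k → H k y = 0 := by
      intro k hk
      rw [hy, map_sum]
      simp only [hG.comp]
      rw [Finset.sum_ite_eq (Finset.range N) k, if_neg (by rw [Finset.mem_range]; omega)]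
    have hF : ∀ M : ℕ, 1 ≤ M → N ≤ M →
        ‖∑ k ∈ Finset.range N, ((1 - (k : ℝ) / M : ℝ) : ℂ) • H k y‖ ≤ ε := by
      intro M hM hNM
      have h1 := hG.fej M hM (y - d)
      have h2 : ∑ k ∈ Finset.range M, ((1 - (k : ℝ) / M : ℝ) : ℂ) • H k (y - d) =
          ∑ k ∈ Finset.range N, ((1 - (k : ℝ) / M : ℝ) : ℂ) • H k y := by
        simp only [map_sub, hHd, sub_zero]
        rw [← Finset.sum_subset (Finset.range_mono hNM)]
        intro k _ hk
        rw [Finset.mem_range, not_lt] at hk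
        rw [hHy k hk, smul_zero]
      rw [h2, norm_sub_rev] at h1
      exact h1.trans hdy
    have hlim : Filter.Tendsto (fun M : ℕ => ∑ k ∈ Finset.range N, ((1 - (k : ℝ) / M : ℝ) : ℂ) • H k y)
        Filter.atTop (nhds (∑ k ∈ Finset.range N, ((1 - 0 : ℝ) : ℂ) • H k y)) := by
      apply tendsto_finsetSum
      intro k _
      apply Filter.Tendsto.smul_const
      apply (Complex.continuous_ofReal.tendsto _).comp
      exact tendsto_const_nhds.sub (tendsto_const_div_atTop_nhds_zero_nat _)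
    have hlim' : ∑ k ∈ Finset.range N, ((1 - 0 : ℝ) : ℂ) • H k y = y := by
      simp only [sub_zero, Complex.ofReal_one, one_smul]
      exact hy.symm
    rw [hlim'] at hlim
    have hy' : ‖y‖ ≤ ε := by
      refine le_of_tendsto hlim.norm ?_
      filter_upwards [Filter.eventually_ge_atTop (max 1 N)] with M hM
      exact hF M ((le_max_left _ _).trans hM) ((le_max_right _ _).trans hM)
    calc ‖d‖ = ‖(d - y) + y‖ := by rw [sub_add_cancel]
      _ ≤ ‖d - y‖ + ‖y‖ := norm_add_le _ _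
      _ ≤ 2 * ε := by linarith
  have hd0 : d = 0 := by
    rw [← norm_le_zero_iff]
    refine le_of_forall_pos_le_add fun ε hε => ?_
    have := hnorm (ε / 2) (by positivity)
    linarith
  rw [hd, sub_eq_zero] at hd0
  exact hd0

/-- TARGET -/
theorem disc (n : ℕ) (hn : 1 ≤ n) {X : Type} [NormedAddCommGroup X] [NormedSpace ℂ X]
    (M : BModel n X) (H : ℕ → X →L[ℂ] X) (hG : Grad X H)
    (hH : ∀ k x z, ‖z‖ ≤ 1 → M.ev (H k x) z = hc (M.ev x) k z) :
    ∃ D : ℝ, 0 < D ∧ ∀ (l : ℕ) (ε : ℝ), 0 < ε → ∃ (m : ℕ) (σ : X →L[ℂ] (Fin m → ℂ))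
      (B : (Fin m → ℂ) →L[ℂ] X), 0 < m ∧ (∀ x, ‖σ x‖ ≤ ‖x‖) ∧ (∀ c, ‖B c‖ ≤ D * ‖c‖) ∧
      ∀ x, (∀ k, k ≠ 0 → (2 * k < 2 ^ l ∨ 2 ^ (l + 3) < k) → H k x = 0) →
        ‖B (σ x) - x‖ ≤ ε * ‖x‖ := by
  obtain ⟨D, hD0, hDK⟩ := kern_facts n hn
  refine ⟨D, hD0, ?_⟩
  intro l ε hε
  obtain ⟨K, hK, hKd, hKD, hKP⟩ := hDK l
  have hae := sig_ae_norm (n := n) hn
  set μ := sig n with hμ
  set s := μ.real Set.univ with hs
  have hs0 : 0 ≤ s := measureReal_nonneg
  have hKz : ∀ z, Continuous fun ζ => K ζ z := fun z => by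
    have h1 : Continuous fun ζ : E n => ((ζ, z) : E n × E n) := by fun_prop
    exact hK.comp h1
  have hKi : ∀ z, Integrable (fun ζ => K ζ z) μ := fun z => C05_int hae (hKz z)
  have hrest : μ.restrict (Metric.closedBall 0 1) = μ := by
    apply Measure.restrict_eq_self_of_ae_mem
    filter_upwards [hae] with ζ hζ
    rw [mem_closedBall_zero_iff, hζ]
  have hevm : ∀ x, AEStronglyMeasurable (M.ev x) μ := fun x => by
    have := (M.cont x).aestronglyMeasurable (μ := μ) measurableSet_closedBall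
    rwa [hrest] at this
  have hevb : ∀ x, ∀ᵐ ζ ∂μ, ‖M.ev x ζ‖ ≤ ‖x‖ := by
    intro x
    filter_upwards [hae] with ζ hζ
    exact M.bd x ζ hζ.le
  have hevK : ∀ x z, Integrable (fun ζ => M.ev x ζ * K ζ z) μ := fun x z =>
    (hKi z).bdd_mul (hevm x) (hevb x)
  -- reproducing formula
  have hrep : ∀ x, (∀ k, k ≠ 0 → (2 * k < 2 ^ l ∨ 2 ^ (l + 3) < k) → H k x = 0) →
      ∀ z, ‖z‖ ≤ 1 → ∫ ζ, M.ev x ζ * K ζ z ∂μ = M.ev x z := by
    intro x hx z hz
    have hxs := C05_band hG (2 ^ (l + 3) + 1) x (fun k hk =>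
      hx k (Nat.ne_of_gt (lt_of_lt_of_le (Nat.succ_pos _) hk)) (Or.inr (Nat.lt_of_succ_le hk)))
    have hev : ∀ w, M.ev x w = ∑ k ∈ Finset.range (2 ^ (l + 3) + 1), M.ev (H k x) w := by
      intro w
      have := congrArg (fun y => M.ev y w) hxs
      simp only [map_sum, Finset.sum_apply] at this
      exact this
    have h1 : ∫ ζ, M.ev x ζ * K ζ z ∂μ =
        ∫ ζ, ∑ k ∈ Finset.range (2 ^ (l + 3) + 1), M.ev (H k x) ζ * K ζ z ∂μ := by
      congr 1
      funext ζ
      rw [hev ζ, Finset.sum_mul]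
    rw [h1, integral_finsetSum _ (fun k _ => hevK (H k x) z), hev z]
    refine Finset.sum_congr rfl fun k _ => ?_
    by_cases hk : k = 0 ∨ 2 ^ l ≤ 2 * k ∧ k ≤ 2 ^ (l + 3)
    · obtain ⟨p1, p2, -⟩ := hc_props n (M.ev x) (M.hol x)
      have h2 := hKP k (hc (M.ev x) k) (p1 k) (p2 k) hk z
      rw [hH k x z hz, ← h2]
      apply integral_congr_ae
      filter_upwards [hae] with ζ hζ
      rw [hH k x ζ hζ.le]
    · push Not at hk
      have h2 : H k x = 0 := by
        apply hx k hk.1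
        by_cases h3 : 2 * k < 2 ^ l
        · exact Or.inl h3
        · exact Or.inr (hk.2 (not_lt.mp h3))
      rw [h2, map_zero]
      simp
  -- uniform continuity
  set ε' := ε / (s * D + 1) with hε'
  have hε'0 : 0 < ε' := by positivity
  have hε's : ε' * s * D ≤ ε := by
    have : ε' * (s * D + 1) = ε := by rw [hε']; field_simp
    nlinarith
  have huc := ((isCompact_closedBall (0 : E n) 1).prod
    (isCompact_closedBall (0 : E n) 1)).uniformContinuousOn_of_continuous hK.continuousOn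
  rw [Metric.uniformContinuousOn_iff] at huc
  obtain ⟨δ, hδ0, hδ⟩ := huc ε' hε'0
  have hmod : ∀ x, (∀ k, k ≠ 0 → (2 * k < 2 ^ l ∨ 2 ^ (l + 3) < k) → H k x = 0) →
      ∀ z z' : E n, ‖z‖ ≤ 1 → ‖z'‖ ≤ 1 → dist z z' < δ →
      ‖M.ev x z - M.ev x z'‖ ≤ ‖x‖ * ε' * s := by
    intro x hx z z' hz hz' hzz
    rw [← hrep x hx z hz, ← hrep x hx z' hz', ← integral_sub (hevK x z) (hevK x z')]
    apply norm_integral_le_of_norm_le_const
    filter_upwards [hae, hevb x] with ζ hζ hζb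
    rw [← mul_sub, norm_mul]
    apply mul_le_mul hζb _ (norm_nonneg _) (norm_nonneg _)
    have h1 := hδ (ζ, z) ⟨by rw [mem_closedBall_zero_iff, hζ], by rw [mem_closedBall_zero_iff]; exact hz⟩
      (ζ, z') ⟨by rw [mem_closedBall_zero_iff, hζ], by rw [mem_closedBall_zero_iff]; exact hz'⟩
      (by rw [Prod.dist_eq, dist_self]; exact max_lt hδ0 hzz)
    rw [dist_eq_norm] at h1
    exact h1.le
  -- partition
  obtain ⟨t, htS, htf, htc⟩ := (isCompact_sphere (0 : E n) 1).finite_cover_balls hδ0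
  have : Fintype t := htf.fintype
  set m := Fintype.card t with hm
  set e := Fintype.equivFin t with he
  set y : Fin m → E n := fun i => (e.symm i : E n) with hy
  have hyn : ∀ i, ‖y i‖ = 1 := fun i => by
    have := htS (e.symm i).2
    rwa [mem_sphere_zero_iff_norm] at this
  have hm0 : 0 < m := by
    obtain ⟨ξ, hξ⟩ := hae.exists
    have h1 := htc (mem_sphere_zero_iff_norm.mpr hξ)
    obtain ⟨w, hw, -⟩ := Set.mem_iUnion₂.mp h1
    exact Fintype.card_pos_iff.mpr ⟨⟨w, hw⟩⟩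
  set U : Fin m → Set (E n) := fun i => Metric.ball (y i) δ with hU
  set R : Fin m → Set (E n) := disjointed U with hR
  have hRm : ∀ i, MeasurableSet (R i) := fun i =>
    disjointedRec (fun _ _ ht => MeasurableSet.diff ht measurableSet_ball) measurableSet_ball
  have hRd : Pairwise (Function.onFun Disjoint R) := disjoint_disjointed U
  have hRU : ∀ i, R i ⊆ U i := disjointed_subset U
  have hRc : ∀ ζ : E n, ‖ζ‖ = 1 → ζ ∈ ⋃ i, R i := by
    intro ζ hζ
    rw [hR, iUnion_disjointed]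
    have h1 := htc (mem_sphere_zero_iff_norm.mpr hζ)
    obtain ⟨w, hw, hw'⟩ := Set.mem_iUnion₂.mp h1
    refine Set.mem_iUnion.mpr ⟨e ⟨w, hw⟩, ?_⟩
    show ζ ∈ Metric.ball (e.symm (e ⟨w, hw⟩) : E n) δ
    rw [Equiv.symm_apply_apply]
    exact hw'
  have hsplit : ∀ f : E n → ℂ, Integrable f μ → ∫ ζ, f ζ ∂μ = ∑ i, ∫ ζ in R i, f ζ ∂μ := by
    intro f hf
    rw [← integral_iUnion_fintype hRm hRd (fun i => hf.integrableOn)]
    rw [Measure.restrict_eq_self_of_ae_mem]
    filter_upwards [hae] with ζ hζ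
    exact hRc ζ hζ
  have hsplitn : ∀ f : E n → ℝ, Integrable f μ → ∑ i, ∫ ζ in R i, f ζ ∂μ = ∫ ζ, f ζ ∂μ := by
    intro f hf
    rw [← integral_iUnion_fintype hRm hRd (fun i => hf.integrableOn)]
    rw [Measure.restrict_eq_self_of_ae_mem]
    filter_upwards [hae] with ζ hζ
    exact hRc ζ hζ
  have hb : ∀ i, ∃ b : X, ∀ z, ‖z‖ ≤ 1 → M.ev b z = ∫ ζ in R i, K ζ z ∂μ := by
    intro i
    have hd := C05_diff (μ := μ.restrict (R i)) (ae_restrict_of_ae hae) hK hKd
    exact M.surj _ hd.continuous.continuousOn hd.differentiableOn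
  choose b hb using hb
  set B : (Fin m → ℂ) →L[ℂ] X :=
    ∑ i, (ContinuousLinearMap.proj i : (Fin m → ℂ) →L[ℂ] ℂ).smulRight (b i) with hB
  have hBc : ∀ c z, ‖z‖ ≤ 1 → M.ev (B c) z = ∑ i, c i * ∫ ζ in R i, K ζ z ∂μ := by
    intro c z hz
    have h1 : B c = ∑ i, c i • b i := by
      rw [hB, _root_.sum_apply]
      rfl
    rw [h1, map_sum, Finset.sum_apply]
    refine Finset.sum_congr rfl fun i _ => ?_
    rw [map_smul, Pi.smul_apply, hb i z hz, smul_eq_mul]
  set σ : X →L[ℂ] (Fin m → ℂ) := LinearMap.mkContinuous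
    { toFun := fun x i => M.ev x (y i)
      map_add' := fun x x' => by ext i; rw [map_add]; rfl
      map_smul' := fun c x => by ext i; rw [map_smul]; rfl } 1 (by
      intro x
      rw [one_mul]
      refine (pi_norm_le_iff_of_nonneg (norm_nonneg _)).mpr fun i => ?_
      exact M.bd x (y i) (hyn i).le) with hσ
  have hσa : ∀ x i, σ x i = M.ev x (y i) := fun x i => rfl
  refine ⟨m, σ, B, hm0, ?_, ?_, ?_⟩
  · intro x
    refine (pi_norm_le_iff_of_nonneg (norm_nonneg _)).mpr fun i => ?_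
    rw [hσa]
    exact M.bd x (y i) (hyn i).le
  · intro c
    apply M.norm_le _ _ (by positivity)
    intro z hz
    rw [hBc c z hz]
    calc ‖∑ i, c i * ∫ ζ in R i, K ζ z ∂μ‖ ≤ ∑ i, ‖c i * ∫ ζ in R i, K ζ z ∂μ‖ := norm_sum_le _ _
      _ ≤ ∑ i, ‖c‖ * ∫ ζ in R i, ‖K ζ z‖ ∂μ := by
          refine Finset.sum_le_sum fun i _ => ?_
          rw [norm_mul]
          exact mul_le_mul (norm_le_pi_norm c i) (norm_integral_le_integral_norm _) (norm_nonneg _)
            (norm_nonneg _)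
      _ = ‖c‖ * ∫ ζ, ‖K ζ z‖ ∂μ := by
          rw [← Finset.mul_sum, hsplitn _ (hKi z).norm]
      _ ≤ ‖c‖ * D := mul_le_mul_of_nonneg_left (hKD z hz) (norm_nonneg _)
      _ = D * ‖c‖ := mul_comm _ _
  · intro x hx
    apply M.norm_le _ _ (by positivity)
    intro z hz
    rw [map_sub, Pi.sub_apply, hBc _ z hz, ← hrep x hx z hz, hsplit _ (hevK x z),
      ← Finset.sum_sub_distrib]
    have h1 : ∀ i, σ x i * (∫ ζ in R i, K ζ z ∂μ) - ∫ ζ in R i, M.ev x ζ * K ζ z ∂μ =
        ∫ ζ in R i, (M.ev x (y i) - M.ev x ζ) * K ζ z ∂μ := by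
      intro i
      rw [hσa, ← integral_const_mul, ← integral_sub ((hKi z).integrableOn.const_mul _)
        (hevK x z).integrableOn]
      congr 1
      funext ζ
      ring
    simp only [h1]
    calc ‖∑ i, ∫ ζ in R i, (M.ev x (y i) - M.ev x ζ) * K ζ z ∂μ‖
        ≤ ∑ i, ‖∫ ζ in R i, (M.ev x (y i) - M.ev x ζ) * K ζ z ∂μ‖ := norm_sum_le _ _
      _ ≤ ∑ i, ∫ ζ in R i, (‖x‖ * ε' * s) * ‖K ζ z‖ ∂μ := by
          refine Finset.sum_le_sum fun i _ => ?_
          apply norm_integral_le_of_norm_le ((hKi z).norm.integrableOn.const_mul _)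
          filter_upwards [ae_restrict_of_ae hae, ae_restrict_mem (hRm i)] with ζ hζ hζR
          rw [norm_mul]
          apply mul_le_mul_of_nonneg_right _ (norm_nonneg _)
          apply hmod x hx _ _ (hyn i).le hζ.le
          rw [dist_comm]
          exact hRU i hζR
      _ = (‖x‖ * ε' * s) * ∫ ζ, ‖K ζ z‖ ∂μ := by
          rw [hsplitn _ ((hKi z).norm.const_mul _), integral_const_mul]
      _ ≤ (‖x‖ * ε' * s) * D := mul_le_mul_of_nonneg_left (hKD z hz) (by positivity)
      _ = ‖x‖ * (ε' * s * D) := by ring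
      _ ≤ ‖x‖ * ε := mul_le_mul_of_nonneg_left hε's (norm_nonneg _)
      _ = ε * ‖x‖ := mul_comm _ _

end Pool.Agent.BallAlg
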