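import Mathlib
import Pool.Agent.BallAlg.Defs

set_option autoImplicit false

open MeasureTheory Complex
open scoped ENNReal NNReal

namespace Pool.Agent.BallAlg

open Pool.Agent.HpBall Pool.Agent.HpBall2

theorem C06_inv {X : Type} [NormedAddCommGroup X] [NormedSpace ℂ X] [CompleteSpace X]
    (A : X →L[ℂ] X) (hA : ∀ x, ‖A x‖ ≤ 1 / 4 * ‖x‖) :
    ∃ R : X →L[ℂ] X, (∀ x, R (x + A x) = x) ∧ (∀ x, R x + A (R x) = x) ∧
      ∀ x, ‖R x‖ ≤ 4 / 3 * ‖x‖ := by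
  have hn : ‖A‖ ≤ 1 / 4 := A.opNorm_le_bound (by norm_num) hA
  have hu : IsUnit (1 + A) := by
    have h1 : ‖-A‖ < 1 := by
      rw [norm_neg]
      linarith
    have h2 := isUnit_one_sub_of_norm_lt_one h1
    rwa [sub_neg_eq_add] at h2
  obtain ⟨u, hu⟩ := hu
  have e1 : (↑u⁻¹ : X →L[ℂ] X) * (1 + A) = 1 := by rw [← hu]; exact u.inv_mul
  have e2 : (1 + A) * (↑u⁻¹ : X →L[ℂ] X) = 1 := by rw [← hu]; exact u.mul_inv
  refine ⟨(↑u⁻¹ : X →L[ℂ] X), ?_, ?_, ?_⟩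
  · intro x
    have := congrArg (fun f : X →L[ℂ] X => f x) e1
    simpa using this
  · intro x
    have := congrArg (fun f : X →L[ℂ] X => f x) e2
    simpa using this
  · intro x
    have h3 := congrArg (fun f : X →L[ℂ] X => f x) e2
    have h4 : (↑u⁻¹ : X →L[ℂ] X) x + A ((↑u⁻¹ : X →L[ℂ] X) x) = x := by simpa using h3
    set y := (↑u⁻¹ : X →L[ℂ] X) x with hy
    have h5 : ‖y‖ ≤ ‖x‖ + ‖A y‖ := by
      have h6 : y = x - A y := eq_sub_of_add_eq h4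
      calc ‖y‖ = ‖x - A y‖ := by rw [← h6]
        _ ≤ ‖x‖ + ‖A y‖ := norm_sub_le _ _
    have h7 := hA y
    linarith

/-- TARGET -/
theorem factor_abs {X Y : Type} [NormedAddCommGroup X] [NormedSpace ℂ X] [CompleteSpace X]
    [NormedAddCommGroup Y] [NormedSpace ℂ Y] (T T' P : X →L[ℂ] X) (σ : X →L[ℂ] Y)
    (B : Y →L[ℂ] X) (C D d ε : ℝ) (hC : 1 ≤ C) (hD : 0 < D) (hd : 1 ≤ d) (hε : 0 ≤ ε)
    (hεd : ε * (4 * C * d ^ 2) ≤ 1)
    (hTn : ∀ x, ‖T x‖ ≤ C * ‖x‖) (hPn : ∀ x, ‖P x‖ ≤ d * ‖x‖) (hBn : ∀ c, ‖B c‖ ≤ D * ‖c‖)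
    (hTT : ∀ x, T (T' x) = T x) (hPT : ∀ x, P (T' x) = T' x) (hTP : ∀ x, T (P x) = T x)
    (hBσ : ∀ x, ‖B (σ (P x)) - P x‖ ≤ ε * ‖P x‖) :
    ∃ β : Y →L[ℂ] X, (∀ x, β (σ (T' x)) = T x) ∧ (∀ c, ‖β c‖ ≤ 2 * C * D * ‖c‖) ∧
      ∀ c, ∃ x, β c = T x := by
  set F : X →L[ℂ] X := (B.comp σ).comp P - P with hF
  have hFx : ∀ x, F x = B (σ (P x)) - P x := fun x => by simp [hF]
  have hFn : ∀ x, ‖F x‖ ≤ ε * d * ‖x‖ := by
    intro x
    rw [hFx]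
    refine (hBσ x).trans ?_
    have := hPn x
    calc ε * ‖P x‖ ≤ ε * (d * ‖x‖) := by gcongr
      _ = _ := by ring
  have hC0 : 0 < C := by linarith
  have hd0 : 0 < d := by linarith
  have hA : ∀ x, ‖(P.comp F) x‖ ≤ 1 / 4 * ‖x‖ := by
    intro x
    rw [ContinuousLinearMap.comp_apply]
    have h1 : ε * d ^ 2 ≤ 1 / 4 := by
      have h2 : ε * (4 * 1 * d ^ 2) ≤ ε * (4 * C * d ^ 2) := by gcongr
      linarith
    calc ‖P (F x)‖ ≤ d * ‖F x‖ := hPn _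
      _ ≤ d * (ε * d * ‖x‖) := by
          have := hFn x
          gcongr
      _ = (ε * d ^ 2) * ‖x‖ := by ring
      _ ≤ 1 / 4 * ‖x‖ := by gcongr
  obtain ⟨R, hR1, hR2, hR3⟩ := C06_inv (P.comp F) hA
  have key : ∀ x, (T' x) + (P.comp F) (T' x) = P (B (σ (T' x))) := by
    intro x
    rw [ContinuousLinearMap.comp_apply, hFx, hPT, map_sub, hPT, add_sub_cancel]
  refine ⟨T.comp (R.comp (P.comp B)), ?_, ?_, ?_⟩
  · intro x
    simp only [ContinuousLinearMap.comp_apply]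
    have h1 := key x
    rw [← h1, hR1, hTT]
  · intro c
    simp only [ContinuousLinearMap.comp_apply]
    set z := R (P (B c)) with hz
    have h1 : z + P (F z) = P (B c) := by
      have := hR2 (P (B c))
      rwa [ContinuousLinearMap.comp_apply] at this
    have h2 : T z = T (B c) - T (F z) := by
      have h3 : T z + T (F z) = T (B c) := by
        rw [← hTP (F z), ← map_add, h1, hTP]
      exact eq_sub_of_add_eq h3
    have hBc := hBn c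
    have h4 : ‖z‖ ≤ 4 / 3 * (d * (D * ‖c‖)) := by
      refine (hR3 _).trans ?_
      have h5 : ‖P (B c)‖ ≤ d * (D * ‖c‖) := (hPn _).trans (by gcongr)
      gcongr
    have h6 : ‖F z‖ ≤ ε * d * (4 / 3 * (d * (D * ‖c‖))) := (hFn z).trans (by gcongr)
    rw [h2]
    have hDc : 0 ≤ D * ‖c‖ := by positivity
    calc ‖T (B c) - T (F z)‖ ≤ ‖T (B c)‖ + ‖T (F z)‖ := norm_sub_le _ _
      _ ≤ C * (D * ‖c‖) + C * (ε * d * (4 / 3 * (d * (D * ‖c‖)))) := by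
          gcongr
          · exact (hTn _).trans (by gcongr)
          · exact (hTn _).trans (by gcongr)
      _ = C * (D * ‖c‖) + (ε * (4 * C * d ^ 2)) * (1 / 3 * (D * ‖c‖)) := by ring
      _ ≤ C * (D * ‖c‖) + 1 * (1 / 3 * (D * ‖c‖)) := by gcongr
      _ ≤ 2 * C * D * ‖c‖ := by nlinarith
  · intro c
    exact ⟨R (P (B c)), rfl⟩

end Pool.Agent.BallAlg
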