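import Mathlib
import Pool.Agent.BallAlg.Defs
import Pool.Agent.HpBall.Coef

set_option autoImplicit false

open MeasureTheory Complex
open scoped ENNReal NNReal

namespace Pool.Agent.BallAlg

open Pool.Agent.HpBall Pool.Agent.HpBall2

theorem C02_cont (G : ℂ → ℂ) (hG : DifferentiableOn ℂ G (Metric.ball 0 1)) {r : ℝ} (hr0 : 0 < r)
    (hr1 : r < 1) : Continuous (fun θ : ℝ => G (r * Complex.exp (θ * I))) := by
  have h1 : ContinuousOn G (Metric.ball 0 1) := hG.continuousOn
  apply h1.comp_continuous (by fun_prop)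
  intro θ
  rw [mem_ball_zero_iff, norm_mul, Complex.norm_exp_ofReal_mul_I, mul_one, Complex.norm_real,
    Real.norm_eq_abs, abs_of_pos hr0]
  exact hr1

theorem C02_norm {r : ℝ} (hr0 : 0 < r) (hr1 : r < 1) (θ : ℝ) :
    ‖(r : ℂ) * Complex.exp (θ * I)‖ < 1 := by
  rw [norm_mul, Complex.norm_exp_ofReal_mul_I, mul_one, Complex.norm_real,
    Real.norm_eq_abs, abs_of_pos hr0]
  exact hr1

/-- negative frequencies -/
theorem C02_neg (G : ℂ → ℂ) (hG : DifferentiableOn ℂ G (Metric.ball 0 1)) {r : ℝ} (hr0 : 0 < r)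
    (hr1 : r < 1) (m : ℕ) (hm : 1 ≤ m) :
    ∫ θ in (0:ℝ)..(2 * Real.pi), Complex.exp (θ * I) ^ m * G (r * Complex.exp (θ * I)) = 0 := by
  have hG2 : DifferentiableOn ℂ (fun z => z ^ m * G z) (Metric.ball 0 1) :=
    (differentiable_id.pow m).differentiableOn.mul hG
  have h := J15_coef hG2 hr0 hr1 0
  have htc : tc (fun z => z ^ m * G z) 0 = 0 := by
    unfold tc
    rw [iteratedDeriv_zero]
    simp [zero_pow (by omega : m ≠ 0)]
  rw [htc, zero_mul, mul_zero] at h
  have e1 : ∀ θ : ℝ, Complex.exp (-(θ * I)) ^ 0 * ((r * Complex.exp (θ * I)) ^ m *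
      G (r * Complex.exp (θ * I)))
      = (r : ℂ) ^ m * (Complex.exp (θ * I) ^ m * G (r * Complex.exp (θ * I))) := by
    intro θ; rw [pow_zero, mul_pow]; ring
  simp_rw [e1] at h
  rw [intervalIntegral.integral_const_mul] at h
  rcases mul_eq_zero.1 h with h | h
  · exfalso
    have : (r : ℂ) ≠ 0 := by exact_mod_cast hr0.ne'
    exact pow_ne_zero m this h
  · exact h

theorem C02_count (c : ℕ → ℂ) (N : ℕ) :
    ∑ j ∈ Finset.range N, ∑ i ∈ Finset.range N, (if j ≤ i then c (i - j) else 0)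
      = ∑ k ∈ Finset.range N, ((N : ℂ) - k) * c k := by
  induction N with
  | zero => simp
  | succ N ih =>
    have e1 : ∑ j ∈ Finset.range (N + 1), ∑ i ∈ Finset.range (N + 1),
        (if j ≤ i then c (i - j) else 0)
        = (∑ j ∈ Finset.range N, ∑ i ∈ Finset.range N, (if j ≤ i then c (i - j) else 0))
          + ∑ j ∈ Finset.range (N + 1), c (N - j) := by
      rw [Finset.sum_range_succ (fun j => ∑ i ∈ Finset.range (N + 1),
        (if j ≤ i then c (i - j) else 0)) N]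
      have e2 : ∑ i ∈ Finset.range (N + 1), (if N ≤ i then c (i - N) else 0) = c 0 := by
        rw [Finset.sum_range_succ, if_pos le_rfl, Nat.sub_self]
        rw [Finset.sum_eq_zero, zero_add]
        intro i hi
        have := Finset.mem_range.1 hi
        rw [if_neg (by omega)]
      have e3 : ∑ j ∈ Finset.range N, ∑ i ∈ Finset.range (N + 1), (if j ≤ i then c (i - j) else 0)
          = (∑ j ∈ Finset.range N, ∑ i ∈ Finset.range N, (if j ≤ i then c (i - j) else 0))
            + ∑ j ∈ Finset.range N, c (N - j) := by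
        rw [← Finset.sum_add_distrib]
        refine Finset.sum_congr rfl fun j hj => ?_
        have := Finset.mem_range.1 hj
        rw [Finset.sum_range_succ, if_pos (by omega : j ≤ N)]
      rw [e2, e3, Finset.sum_range_succ (fun j => c (N - j)) N, Nat.sub_self, add_assoc]
    rw [e1, ih]
    have e4 : ∑ j ∈ Finset.range (N + 1), c (N - j) = ∑ j ∈ Finset.range (N + 1), c j := by
      have := Finset.sum_range_reflect (fun j => c j) (N + 1)
      simpa using this
    rw [e4, Finset.sum_range_succ (fun k => (((N + 1 : ℕ) : ℂ) - k) * c k) N,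
      Finset.sum_range_succ (fun k => c k) N, ← add_assoc, ← Finset.sum_add_distrib]
    congr 1
    · refine Finset.sum_congr rfl fun k _ => ?_
      push_cast; ring
    · push_cast; ring

/-- the Fejer kernel -/
noncomputable def C02_F (N : ℕ) (θ : ℝ) : ℝ :=
  (1 / (N : ℝ)) * ‖∑ j ∈ Finset.range N, Complex.exp (θ * I) ^ j‖ ^ 2

theorem C02_F_nonneg (N : ℕ) (θ : ℝ) : 0 ≤ C02_F N θ := by unfold C02_F; positivity

theorem C02_F_cont (N : ℕ) : Continuous (C02_F N) := by
  unfold C02_F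
  fun_prop

theorem C02_F_eq (N : ℕ) (θ : ℝ) : ((C02_F N θ : ℝ) : ℂ)
    = (1 / (N : ℂ)) * ∑ j ∈ Finset.range N, ∑ i ∈ Finset.range N,
      (Complex.exp (θ * I) ^ j * Complex.exp (-(θ * I)) ^ i) := by
  unfold C02_F
  push_cast
  congr 1
  have h1 : ((‖∑ j ∈ Finset.range N, Complex.exp (θ * I) ^ j‖ : ℂ)) ^ 2
      = (∑ j ∈ Finset.range N, Complex.exp (θ * I) ^ j) *
        (starRingEnd ℂ) (∑ j ∈ Finset.range N, Complex.exp (θ * I) ^ j) := by
    rw [Complex.mul_conj, Complex.normSq_eq_norm_sq]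
    push_cast; rfl
  rw [h1, map_sum, Finset.sum_mul_sum]
  refine Finset.sum_congr rfl fun j _ => Finset.sum_congr rfl fun i _ => ?_
  rw [map_pow, ← Complex.exp_conj]
  simp

theorem C02_id (G : ℂ → ℂ) (hG : DifferentiableOn ℂ G (Metric.ball 0 1)) {r : ℝ} (hr0 : 0 < r)
    (hr1 : r < 1) (N : ℕ) (hN : 1 ≤ N) :
    ∫ θ in (0:ℝ)..(2 * Real.pi), ((C02_F N θ : ℝ) : ℂ) * G (r * Complex.exp (θ * I))
      = 2 * Real.pi * ∑ k ∈ Finset.range N, ((1 - (k : ℝ) / N : ℝ) : ℂ) * (tc G k * r ^ k) := by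
  have hcont := C02_cont G hG hr0 hr1
  have hN0 : (N : ℂ) ≠ 0 := by exact_mod_cast (by omega : N ≠ 0)
  have e1 : ∀ θ : ℝ, ((C02_F N θ : ℝ) : ℂ) * G (r * Complex.exp (θ * I))
      = (1 / (N : ℂ)) * ∑ j ∈ Finset.range N, ∑ i ∈ Finset.range N,
        (Complex.exp (θ * I) ^ j * Complex.exp (-(θ * I)) ^ i * G (r * Complex.exp (θ * I))) := by
    intro θ
    rw [C02_F_eq, mul_assoc, Finset.sum_mul]
    congr 1
    refine Finset.sum_congr rfl fun j _ => ?_
    rw [Finset.sum_mul]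
  simp_rw [e1]
  rw [intervalIntegral.integral_const_mul, intervalIntegral.integral_finsetSum]
  swap
  · intro j _
    apply Continuous.intervalIntegrable
    apply continuous_finsetSum
    intro i _
    exact (Continuous.mul (by fun_prop) (by fun_prop)).mul hcont
  have e2 : ∀ j ∈ Finset.range N, ∫ θ in (0:ℝ)..(2 * Real.pi), ∑ i ∈ Finset.range N,
        (Complex.exp (θ * I) ^ j * Complex.exp (-(θ * I)) ^ i * G (r * Complex.exp (θ * I)))
      = ∑ i ∈ Finset.range N, (if j ≤ i then 2 * Real.pi * (tc G (i - j) * r ^ (i - j)) else 0) := by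
    intro j _
    rw [intervalIntegral.integral_finsetSum]
    swap
    · intro i _
      apply Continuous.intervalIntegrable
      exact (Continuous.mul (by fun_prop) (by fun_prop)).mul hcont
    refine Finset.sum_congr rfl fun i _ => ?_
    have hE : ∀ θ : ℝ, Complex.exp (θ * I) * Complex.exp (-(θ * I)) = 1 := by
      intro θ; rw [← Complex.exp_add, add_neg_cancel, Complex.exp_zero]
    split_ifs with hji
    · rw [← J15_coef hG hr0 hr1 (i - j)]
      congr 1
      funext θ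
      obtain ⟨k, rfl⟩ := Nat.exists_eq_add_of_le hji
      rw [Nat.add_sub_cancel_left, pow_add, ← mul_assoc, ← mul_pow, hE, one_pow, one_mul]
    · push Not at hji
      obtain ⟨k, rfl⟩ := Nat.exists_eq_add_of_lt hji
      rw [← C02_neg G hG hr0 hr1 (k + 1) (by omega)]
      congr 1
      funext θ
      have : Complex.exp (θ * I) ^ (i + k + 1) * Complex.exp (-(θ * I)) ^ i
          = Complex.exp (θ * I) ^ (k + 1) * (Complex.exp (θ * I) * Complex.exp (-(θ * I))) ^ i := by
        rw [mul_pow]; ring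
      rw [this, hE, one_pow, mul_one]
  rw [Finset.sum_congr rfl e2, C02_count (fun k => 2 * Real.pi * (tc G k * r ^ k)) N,
    Finset.mul_sum, Finset.mul_sum]
  refine Finset.sum_congr rfl fun k _ => ?_
  push_cast
  field_simp

theorem C02_mass (N : ℕ) (hN : 1 ≤ N) :
    ∫ θ in (0:ℝ)..(2 * Real.pi), C02_F N θ = 2 * Real.pi := by
  have h := C02_id (fun _ => 1) (differentiableOn_const 1) (r := 1 / 2) (by norm_num) (by norm_num)
    N hN
  have htc : ∀ k, tc (fun _ => (1:ℂ)) k = if k = 0 then 1 else 0 := by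
    intro k
    unfold tc
    rw [iteratedDeriv_const]
    split_ifs with hk
    · subst hk; simp
    · simp
  have e2 : ∑ k ∈ Finset.range N, ((1 - (k : ℝ) / N : ℝ) : ℂ) *
      (tc (fun _ => (1:ℂ)) k * ((1 / 2 : ℝ) : ℂ) ^ k) = 1 := by
    rw [Finset.sum_eq_single_of_mem 0 (Finset.mem_range.2 (by omega))]
    · rw [htc, if_pos rfl]; simp
    · intro k _ hk
      rw [htc, if_neg hk]; simp
  rw [e2, mul_one] at h
  simp only [mul_one] at h
  rw [intervalIntegral.integral_ofReal] at h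
  exact_mod_cast h

/-- TARGET -/
theorem coef_le (G : ℂ → ℂ) (hG : DifferentiableOn ℂ G (Metric.ball 0 1)) (C : ℝ)
    (hC : ∀ w : ℂ, ‖w‖ < 1 → ‖G w‖ ≤ C) (k : ℕ) : ‖tc G k‖ ≤ C := by
  have hpi := Real.pi_pos
  have key : ∀ r : ℝ, 0 < r → r < 1 → ‖tc G k * (r : ℂ) ^ k‖ ≤ C := by
    intro r hr0 hr1
    have h := J15_coef hG hr0 hr1 k
    have h2 : ‖∫ θ in (0:ℝ)..(2 * Real.pi), Complex.exp (-(θ * I)) ^ k *
        G (r * Complex.exp (θ * I))‖ ≤ C * |2 * Real.pi - 0| := by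
      apply intervalIntegral.norm_integral_le_of_norm_le_const
      intro θ _
      rw [norm_mul, norm_pow]
      have h3 : ‖Complex.exp (-((θ : ℂ) * I))‖ = 1 := by
        have : -((θ : ℂ) * I) = ((-θ : ℝ) : ℂ) * I := by push_cast; ring
        rw [this, Complex.norm_exp_ofReal_mul_I]
      rw [h3, one_pow, one_mul]
      exact hC _ (C02_norm hr0 hr1 θ)
    rw [h, norm_mul, sub_zero, abs_of_pos (by positivity)] at h2
    have h3 : ‖(2 * Real.pi : ℂ)‖ = 2 * Real.pi := by
      rw [norm_mul, Complex.norm_real, Real.norm_eq_abs, abs_of_pos hpi]; simp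
    rw [h3] at h2
    have h4 : 0 < 2 * Real.pi := by positivity
    nlinarith
  have hlim : Filter.Tendsto (fun r : ℝ => ‖tc G k * (r : ℂ) ^ k‖) (nhdsWithin 1 (Set.Iio 1))
      (nhds ‖tc G k * ((1 : ℝ) : ℂ) ^ k‖) := by
    apply tendsto_nhdsWithin_of_tendsto_nhds
    apply Continuous.tendsto
    fun_prop
  have := le_of_tendsto hlim (b := C) (by
    have h1 : Set.Ioo (0:ℝ) 1 ∈ nhdsWithin 1 (Set.Iio (1:ℝ)) := Ioo_mem_nhdsLT (by norm_num)
    filter_upwards [h1] with r hr
    exact key r hr.1 hr.2)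
  simpa using this

/-- TARGET -/
theorem fejer_bound (G : ℂ → ℂ) (hG : DifferentiableOn ℂ G (Metric.ball 0 1)) (C : ℝ)
    (hC : ∀ w : ℂ, ‖w‖ < 1 → ‖G w‖ ≤ C) (N : ℕ) (hN : 1 ≤ N) :
    ‖∑ k ∈ Finset.range N, ((1 - (k : ℝ) / N : ℝ) : ℂ) * tc G k‖ ≤ C := by
  have hpi := Real.pi_pos
  have key : ∀ r : ℝ, 0 < r → r < 1 →
      ‖∑ k ∈ Finset.range N, ((1 - (k : ℝ) / N : ℝ) : ℂ) * (tc G k * (r : ℂ) ^ k)‖ ≤ C := by
    intro r hr0 hr1
    have h := C02_id G hG hr0 hr1 N hN
    have h2 : ‖∫ θ in (0:ℝ)..(2 * Real.pi), ((C02_F N θ : ℝ) : ℂ) *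
        G (r * Complex.exp (θ * I))‖ ≤ ∫ θ in (0:ℝ)..(2 * Real.pi), C02_F N θ * C := by
      apply intervalIntegral.norm_integral_le_of_norm_le (by positivity)
      · refine Filter.Eventually.of_forall fun θ _ => ?_
        rw [norm_mul, Complex.norm_real, Real.norm_eq_abs, abs_of_nonneg (C02_F_nonneg N θ)]
        exact mul_le_mul_of_nonneg_left (hC _ (C02_norm hr0 hr1 θ)) (C02_F_nonneg N θ)
      · exact ((C02_F_cont N).mul continuous_const).intervalIntegrable _ _
    rw [h, intervalIntegral.integral_mul_const, C02_mass N hN, norm_mul] at h2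
    have h3 : ‖(2 * Real.pi : ℂ)‖ = 2 * Real.pi := by
      rw [norm_mul, Complex.norm_real, Real.norm_eq_abs, abs_of_pos hpi]; simp
    rw [h3] at h2
    have h4 : 0 < 2 * Real.pi := by positivity
    exact le_of_mul_le_mul_left h2 h4
  have hlim : Filter.Tendsto (fun r : ℝ => ‖∑ k ∈ Finset.range N, ((1 - (k : ℝ) / N : ℝ) : ℂ) *
      (tc G k * (r : ℂ) ^ k)‖) (nhdsWithin 1 (Set.Iio 1))
      (nhds ‖∑ k ∈ Finset.range N, ((1 - (k : ℝ) / N : ℝ) : ℂ) * (tc G k * ((1:ℝ) : ℂ) ^ k)‖) := by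
    apply tendsto_nhdsWithin_of_tendsto_nhds
    apply Continuous.tendsto
    fun_prop
  have := le_of_tendsto hlim (b := C) (by
    have h1 : Set.Ioo (0:ℝ) 1 ∈ nhdsWithin 1 (Set.Iio (1:ℝ)) := Ioo_mem_nhdsLT (by norm_num)
    filter_upwards [h1] with r hr
    exact key r hr.1 hr.2)
  simpa using this

end Pool.Agent.BallAlg
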