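import Mathlib
import Pool.Agent.BallAlg.Defs
import Pool.Agent.HopfPinch.GLib

set_option autoImplicit false

open MeasureTheory Complex
open scoped ENNReal NNReal

namespace Pool.Agent.BallAlg

open Pool.Agent.HpBall Pool.Agent.HpBall2

/-- TARGET -/
theorem lim_hol {n : ℕ} (f : ℕ → E n → ℂ) (g : E n → ℂ)
    (hf : ∀ k, DifferentiableOn ℂ (f k) (Metric.ball 0 1))
    (h : TendstoUniformlyOn f g Filter.atTop (Metric.ball 0 1)) :
    DifferentiableOn ℂ g (Metric.ball 0 1) := by
  intro z hz
  have hz1 : ‖z‖ < 1 := by simpa using hz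
  have hsub : Metric.ball z (1 - ‖z‖) ⊆ Metric.ball (0 : E n) 1 := by
    apply Metric.ball_subset_ball'
    simp
  have h1 := Pool.Agent.HopfPinch.differentiableOn_of_uniform_limit
    (fun k => (hf k).mono hsub) (h.mono hsub)
  have h2 : 0 < (1 - ‖z‖) / 2 := by linarith
  exact (h1.differentiableAt (Metric.ball_mem_nhds z h2)).differentiableWithinAt

/-- extension by zero -/
noncomputable def C01_ev (n : ℕ) :
    BoundedContinuousFunction (Metric.closedBall (0 : E n) 1) ℂ →ₗ[ℂ] (E n → ℂ) where
  toFun f z := by
    classical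
    exact if h : z ∈ Metric.closedBall (0 : E n) 1 then f ⟨z, h⟩ else 0
  map_add' f g := by
    funext z
    rw [Pi.add_apply]
    by_cases h : z ∈ Metric.closedBall (0 : E n) 1
    · simp only [dif_pos h]; rfl
    · simp only [dif_neg h, add_zero]
  map_smul' c f := by
    funext z
    rw [RingHom.id_apply, Pi.smul_apply]
    by_cases h : z ∈ Metric.closedBall (0 : E n) 1
    · simp only [dif_pos h]; rfl
    · simp only [dif_neg h, smul_zero]

lemma C01_ev_apply (n : ℕ) (f : BoundedContinuousFunction (Metric.closedBall (0 : E n) 1) ℂ)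
    (z : E n) (h : z ∈ Metric.closedBall (0 : E n) 1) : C01_ev n f z = f ⟨z, h⟩ := by
  simp only [C01_ev, LinearMap.coe_mk, AddHom.coe_mk]
  exact dif_pos h

/-- the subspace of holomorphic functions -/
noncomputable def C01_S (n : ℕ) :
    Submodule ℂ (BoundedContinuousFunction (Metric.closedBall (0 : E n) 1) ℂ) where
  carrier := {f | DifferentiableOn ℂ (C01_ev n f) (Metric.ball 0 1)}
  add_mem' := by
    intro f g hf hg
    simp only [Set.mem_ofPred_eq, map_add] at *
    exact hf.add hg
  zero_mem' := by
    simp only [Set.mem_ofPred_eq, map_zero]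
    exact differentiableOn_const 0
  smul_mem' := by
    intro c f hf
    simp only [Set.mem_ofPred_eq, map_smul] at *
    exact hf.const_smul c

lemma C01_closed (n : ℕ) :
    IsClosed (C01_S n : Set (BoundedContinuousFunction (Metric.closedBall (0 : E n) 1) ℂ)) := by
  apply isClosed_of_closure_subset
  intro f hf
  obtain ⟨x, hx, hlim⟩ := mem_closure_iff_seq_limit.1 hf
  have h1 : TendstoUniformlyOn (fun k => C01_ev n (x k)) (C01_ev n f) Filter.atTop
      (Metric.ball 0 1) := by
    rw [Metric.tendstoUniformlyOn_iff]
    intro ε hε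
    have h2 := Metric.tendsto_atTop.1 hlim ε hε
    obtain ⟨N, hN⟩ := h2
    filter_upwards [Filter.eventually_ge_atTop N] with k hk z hz
    have hz' : z ∈ Metric.closedBall (0 : E n) 1 := Metric.ball_subset_closedBall hz
    rw [C01_ev_apply n f z hz', C01_ev_apply n (x k) z hz', dist_comm]
    exact (BoundedContinuousFunction.dist_coe_le_dist _).trans_lt (hN k hk)
  exact lim_hol _ _ hx h1

/-- TARGET -/
theorem exists_bmodel (n : ℕ) : ∃ (X : Type) (_ : NormedAddCommGroup X) (_ : NormedSpace ℂ X)
    (_ : CompleteSpace X), Nonempty (BModel n X) := by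
  have hc : CompleteSpace (C01_S n) := (C01_closed n).completeSpace_coe
  refine ⟨C01_S n, inferInstance, inferInstance, hc, ⟨?_⟩⟩
  refine
    { ev := (C01_ev n).comp (C01_S n).subtype
      cont := ?_
      hol := fun f => f.2
      bd := ?_
      norm_le := ?_
      surj := ?_ }
  · intro f
    rw [continuousOn_iff_continuous_domRestrict]
    have : (Metric.closedBall (0 : E n) 1).domRestrict (((C01_ev n).comp (C01_S n).subtype) f) =
        (f : BoundedContinuousFunction (Metric.closedBall (0 : E n) 1) ℂ) := by
      funext z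
      simp only [Set.domRestrict_apply, LinearMap.comp_apply, Submodule.subtype_apply]
      rw [C01_ev_apply n _ z.1 z.2]
    rw [this]
    exact (f : BoundedContinuousFunction (Metric.closedBall (0 : E n) 1) ℂ).continuous
  · intro f z hz
    have hz' : z ∈ Metric.closedBall (0 : E n) 1 := by simpa using hz
    simp only [LinearMap.comp_apply, Submodule.subtype_apply]
    rw [C01_ev_apply n _ z hz']
    exact BoundedContinuousFunction.norm_coe_le_norm _ _
  · intro f M hM h
    have : ‖(f : BoundedContinuousFunction (Metric.closedBall (0 : E n) 1) ℂ)‖ ≤ M := by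
      rw [BoundedContinuousFunction.norm_le hM]
      intro z
      have hz : ‖(z : E n)‖ ≤ 1 := by
        have := z.2
        rwa [Metric.mem_closedBall, dist_zero_right] at this
      have h2 := h z hz
      simp only [LinearMap.comp_apply, Submodule.subtype_apply] at h2
      rwa [C01_ev_apply n _ z z.2] at h2
    exact this
  · intro g hg hd
    have : CompactSpace (Metric.closedBall (0 : E n) 1) :=
      isCompact_iff_compactSpace.1 (isCompact_closedBall 0 1)
    let F : BoundedContinuousFunction (Metric.closedBall (0 : E n) 1) ℂ :=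
      BoundedContinuousFunction.mkOfCompact
        ⟨(Metric.closedBall (0 : E n) 1).domRestrict g, continuousOn_iff_continuous_domRestrict.1 hg⟩
    have hF : ∀ z, ‖z‖ ≤ 1 → C01_ev n F z = g z := by
      intro z hz
      have hz' : z ∈ Metric.closedBall (0 : E n) 1 := by simpa using hz
      rw [C01_ev_apply n _ z hz']
      rfl
    refine ⟨⟨F, ?_⟩, hF⟩
    refine hd.congr ?_
    intro z hz
    apply hF
    exact (by simpa using hz : ‖z‖ < 1).le

end Pool.Agent.BallAlg
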