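import Mathlib
import Pool.Agent.BallAlg.Defs
import Pool.Agent.BallAlg.Model

set_option autoImplicit false

open MeasureTheory Complex
open scoped ENNReal NNReal

namespace Pool.Agent.BallAlg

open Pool.Agent.HpBall Pool.Agent.HpBall2

theorem C13_iff {n : ℕ} {X : Type} [NormedAddCommGroup X] [NormedSpace ℂ X] (M : BModel n X)
    (e : ℕ → X) (f : EuclideanSpace ℂ (Fin n) → ℂ) (x : X) (hx : ∀ z, ‖z‖ ≤ 1 → M.ev x z = f z)
    (a : ℕ → ℂ) :
    TendstoUniformlyOn
      (fun (N : ℕ) (z : EuclideanSpace ℂ (Fin n)) => ∑ i ∈ Finset.range N, a i * M.ev (e i) z)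
      f Filter.atTop (Metric.closedBall (0 : EuclideanSpace ℂ (Fin n)) 1) ↔
    Filter.Tendsto (fun N => ∑ i ∈ Finset.range N, a i • e i) Filter.atTop (nhds x) := by
  have hev : ∀ N z, M.ev (∑ i ∈ Finset.range N, a i • e i) z =
      ∑ i ∈ Finset.range N, a i * M.ev (e i) z := by
    intro N z
    rw [map_sum, Finset.sum_apply]
    exact Finset.sum_congr rfl fun i _ => by rw [map_smul]; rfl
  have hdiff : ∀ N z, ‖z‖ ≤ 1 → M.ev ((∑ i ∈ Finset.range N, a i • e i) - x) z =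
      (∑ i ∈ Finset.range N, a i * M.ev (e i) z) - f z := by
    intro N z hz
    rw [map_sub]
    show M.ev (∑ i ∈ Finset.range N, a i • e i) z - M.ev x z = _
    rw [hev, hx z hz]
  rw [Metric.tendstoUniformlyOn_iff, Metric.tendsto_atTop]
  constructor
  · intro h ε hε
    obtain ⟨N, hN⟩ := Filter.eventually_atTop.1 (h (ε / 2) (by positivity))
    refine ⟨N, fun m hm => ?_⟩
    rw [dist_eq_norm]
    have h1 : ‖(∑ i ∈ Finset.range m, a i • e i) - x‖ ≤ ε / 2 := by
      apply M.norm_le _ _ (by positivity)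
      intro z hz
      rw [hdiff m z hz, ← dist_eq_norm, dist_comm]
      exact (hN m hm z (mem_closedBall_zero_iff.2 hz)).le
    linarith
  · intro h ε hε
    obtain ⟨N, hN⟩ := h ε hε
    refine Filter.eventually_atTop.2 ⟨N, fun m hm z hz => ?_⟩
    have hz' : ‖z‖ ≤ 1 := mem_closedBall_zero_iff.1 hz
    have h1 := hN m hm
    rw [dist_eq_norm] at h1
    rw [dist_comm, dist_eq_norm, ← hdiff m z hz']
    exact (M.bd _ z hz').trans_lt h1

/-- TARGET -/
theorem S03139_of (hmain : ∀ (n : ℕ) (hn : 1 ≤ n) (X : Type) [NormedAddCommGroup X]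
      [NormedSpace ℂ X] [CompleteSpace X] (M : BModel n X), ∃ e : ℕ → X, ∀ x, ∃! a : ℕ → ℂ,
      Filter.Tendsto (fun N => ∑ i ∈ Finset.range N, a i • e i) Filter.atTop (nhds x)) :
    ∀ n : ℕ, 2 ≤ n →
      ∃ e : ℕ → (EuclideanSpace ℂ (Fin n) → ℂ),
        (∀ i, ContinuousOn (e i) (Metric.closedBall (0 : EuclideanSpace ℂ (Fin n)) 1) ∧
              DifferentiableOn ℂ (e i) (Metric.ball (0 : EuclideanSpace ℂ (Fin n)) 1)) ∧
        ∀ f : EuclideanSpace ℂ (Fin n) → ℂ,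
          ContinuousOn f (Metric.closedBall (0 : EuclideanSpace ℂ (Fin n)) 1) →
          DifferentiableOn ℂ f (Metric.ball (0 : EuclideanSpace ℂ (Fin n)) 1) →
          ∃! a : ℕ → ℂ,
            TendstoUniformlyOn
              (fun (N : ℕ) (z : EuclideanSpace ℂ (Fin n)) => ∑ i ∈ Finset.range N, a i * e i z)
              f Filter.atTop (Metric.closedBall (0 : EuclideanSpace ℂ (Fin n)) 1) := by
  intro n hn
  obtain ⟨X, i1, i2, i3, ⟨M⟩⟩ := exists_bmodel n
  obtain ⟨e, he⟩ := hmain n (by omega) X M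
  refine ⟨fun i => M.ev (e i), fun i => ⟨M.cont (e i), M.hol (e i)⟩, ?_⟩
  intro f hf hf'
  obtain ⟨x, hx⟩ := M.surj f hf hf'
  obtain ⟨a, ha, hau⟩ := he x
  refine ⟨a, (C13_iff M e f x hx a).2 ha, fun b hb => hau b ((C13_iff M e f x hx b).1 hb)⟩

end Pool.Agent.BallAlg
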