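import Mathlib
import Pool.Agent.BallAlg.Defs
import Pool.Agent.HpBall2.HcProps
import Pool.Agent.HpBall.Coef
import Pool.Agent.BallAlg.Fejer

set_option autoImplicit false

open MeasureTheory Complex
open scoped ENNReal NNReal

namespace Pool.Agent.BallAlg

open Pool.Agent.HpBall Pool.Agent.HpBall2

lemma C03_twopi_half_ne (k : ℕ) : (2 * Real.pi * ((1 / 2 : ℝ) : ℂ) ^ k : ℂ) ≠ 0 := by
  have h1 : (Real.pi : ℂ) ≠ 0 := by exact_mod_cast Real.pi_ne_zero
  have h2 : (((1 / 2 : ℝ) : ℂ)) ≠ 0 := by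
    exact_mod_cast (by norm_num : (1 / 2 : ℝ) ≠ 0)
  exact mul_ne_zero (mul_ne_zero two_ne_zero h1) (pow_ne_zero _ h2)

/-- linearity of Taylor coefficients -/
lemma C03_tc_lin {f g : ℂ → ℂ} (hf : DifferentiableOn ℂ f (Metric.ball 0 1))
    (hg : DifferentiableOn ℂ g (Metric.ball 0 1)) (a b : ℂ) (k : ℕ) :
    tc (fun z => a * f z + b * g z) k = a * tc f k + b * tc g k := by
  have hr0 : (0 : ℝ) < 1 / 2 := by norm_num
  have hr1 : (1 / 2 : ℝ) < 1 := by norm_num
  have h1 := J15_coef hf hr0 hr1 k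
  have h2 := J15_coef hg hr0 hr1 k
  have h3 := J15_coef (G := fun z => a * f z + b * g z)
    ((hf.const_mul a).add (hg.const_mul b)) hr0 hr1 k
  have c1 := J15_cont hf hr0 hr1
  have c2 := J15_cont hg hr0 hr1
  have e : ∀ θ : ℝ, Complex.exp (-(θ * I)) ^ k *
      (a * f ((1 / 2 : ℝ) * Complex.exp (θ * I)) + b * g ((1 / 2 : ℝ) * Complex.exp (θ * I))) =
      a * (Complex.exp (-(θ * I)) ^ k * f ((1 / 2 : ℝ) * Complex.exp (θ * I))) +
      b * (Complex.exp (-(θ * I)) ^ k * g ((1 / 2 : ℝ) * Complex.exp (θ * I))) := by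
    intro θ; ring
  simp_rw [e] at h3
  have ce : Continuous fun θ : ℝ => Complex.exp (-(θ * I)) ^ k := by fun_prop
  have i1 : IntervalIntegrable (fun θ : ℝ => a * (Complex.exp (-(θ * I)) ^ k *
      f ((1 / 2 : ℝ) * Complex.exp (θ * I)))) volume 0 (2 * Real.pi) :=
    (continuous_const.mul (ce.mul c1)).intervalIntegrable _ _
  have i2 : IntervalIntegrable (fun θ : ℝ => b * (Complex.exp (-(θ * I)) ^ k *
      g ((1 / 2 : ℝ) * Complex.exp (θ * I)))) volume 0 (2 * Real.pi) :=
    (continuous_const.mul (ce.mul c2)).intervalIntegrable _ _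
  rw [intervalIntegral.integral_add i1 i2, intervalIntegral.integral_const_mul,
    intervalIntegral.integral_const_mul, h1, h2] at h3
  apply mul_left_cancel₀ (C03_twopi_half_ne k)
  linear_combination -h3

lemma C03_tc_mono (l : ℕ) (a : ℂ) (k : ℕ) :
    tc (fun w => w ^ l * a) k = if k = l then a else 0 := by
  unfold tc
  have h1 : (fun w : ℂ => w ^ l * a) = fun w => a * w ^ l := by
    ext w; ring
  rw [h1, iteratedDeriv_const_mul_field, iteratedDeriv_fun_pow_zero]
  have hm : (k.factorial : ℂ) ≠ 0 := by exact_mod_cast k.factorial_ne_zero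
  split_ifs with h
  · subst h
    push_cast
    field_simp
  · push_cast
    ring

lemma C03_tc_congr {f g : ℂ → ℂ} (h : ∀ w : ℂ, ‖w‖ < 1 → f w = g w) (k : ℕ) : tc f k = tc g k := by
  unfold tc
  congr 1
  apply Filter.EventuallyEq.iteratedDeriv_eq
  filter_upwards [Metric.ball_mem_nhds (0 : ℂ) one_pos] with w hw
  exact h w (by rwa [mem_ball_zero_iff] at hw)

lemma C03_norm_smul_le {n : ℕ} {z : E n} (hz : ‖z‖ ≤ 1) (w : ℂ) : ‖w • z‖ ≤ ‖w‖ := by
  rw [norm_smul]
  exact mul_le_of_le_one_right (norm_nonneg _) hz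

lemma C03_slice {n : ℕ} {g : E n → ℂ} (hg : DifferentiableOn ℂ g (Metric.ball 0 1)) {z : E n}
    (hz : ‖z‖ ≤ 1) : DifferentiableOn ℂ (fun w : ℂ => g (w • z)) (Metric.ball 0 1) := by
  apply hg.comp (f := fun w : ℂ => w • z)
  · exact (differentiable_id.smul_const z).differentiableOn
  · intro w hw
    rw [mem_ball_zero_iff] at hw ⊢
    exact (C03_norm_smul_le hz w).trans_lt hw

section
variable {n : ℕ} {X : Type} [NormedAddCommGroup X] [NormedSpace ℂ X]

lemma C03_uniq (M : BModel n X) {f g : X} (h : ∀ z, ‖z‖ ≤ 1 → M.ev f z = M.ev g z) : f = g := by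
  have h1 : ‖f - g‖ ≤ 0 := by
    apply M.norm_le (f - g) 0 le_rfl
    intro z hz
    rw [map_sub, Pi.sub_apply, h z hz, sub_self, norm_zero]
  exact sub_eq_zero.1 (norm_le_zero_iff.1 h1)

lemma C03_bd (M : BModel n X) (x : X) (k : ℕ) {z : E n} (hz : ‖z‖ ≤ 1) : ‖hc (M.ev x) k z‖ ≤ ‖x‖ := by
  apply coef_le (fun w => M.ev x (w • z)) (C03_slice (M.hol x) hz) ‖x‖
  intro w hw
  exact M.bd x _ ((C03_norm_smul_le hz w).trans hw.le)

lemma C03_lin (M : BModel n X) (x y : X) (a b : ℂ) (k : ℕ) {z : E n} (hz : ‖z‖ ≤ 1) :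
    hc (M.ev (a • x + b • y)) k z = a * hc (M.ev x) k z + b * hc (M.ev y) k z := by
  have h := C03_tc_lin (C03_slice (M.hol x) hz) (C03_slice (M.hol y) hz) a b k
  unfold hc
  rw [← h]
  congr 1
  funext w
  rw [map_add, map_smul, map_smul, Pi.add_apply, Pi.smul_apply, Pi.smul_apply, smul_eq_mul, smul_eq_mul]

lemma C03_ex (M : BModel n X) (k : ℕ) (x : X) : ∃ f : X, ∀ z, ‖z‖ ≤ 1 → M.ev f z = hc (M.ev x) k z := by
  have h := (hc_props n (M.ev x) (M.hol x)).1 k
  exact M.surj (hc (M.ev x) k) h.continuous.continuousOn h.differentiableOn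

/-- the projections -/
noncomputable def C03_H (M : BModel n X) (k : ℕ) : X →L[ℂ] X :=
  LinearMap.mkContinuous
    { toFun := fun x => (C03_ex M k x).choose
      map_add' := by
        intro x y
        apply C03_uniq M
        intro z hz
        rw [(C03_ex M k (x + y)).choose_spec z hz, map_add M.ev (C03_ex M k x).choose, Pi.add_apply,
          (C03_ex M k x).choose_spec z hz, (C03_ex M k y).choose_spec z hz]
        have := C03_lin M x y 1 1 k hz
        simp only [one_smul, one_mul] at this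
        exact this
      map_smul' := by
        intro c x
        apply C03_uniq M
        intro z hz
        rw [(C03_ex M k (c • x)).choose_spec z hz, RingHom.id_apply,
          map_smul M.ev c (C03_ex M k x).choose, Pi.smul_apply,
          (C03_ex M k x).choose_spec z hz]
        have := C03_lin M x 0 c 0 k hz
        rw [smul_zero, add_zero, zero_mul, add_zero] at this
        exact this } 1 (by
    intro x
    rw [one_mul]
    apply M.norm_le _ _ (norm_nonneg _)
    intro z hz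
    show ‖M.ev ((C03_ex M k x).choose) z‖ ≤ ‖x‖
    rw [(C03_ex M k x).choose_spec z hz]
    exact C03_bd M x k hz)

lemma C03_H_ev (M : BModel n X) (k : ℕ) (x : X) {z : E n} (hz : ‖z‖ ≤ 1) :
    M.ev (C03_H M k x) z = hc (M.ev x) k z := (C03_ex M k x).choose_spec z hz

lemma C03_H_comp (M : BModel n X) (j k : ℕ) (x : X) :
    C03_H M j (C03_H M k x) = if j = k then C03_H M k x else 0 := by
  apply C03_uniq M
  intro z hz
  rw [C03_H_ev M j _ hz]
  have h1 : hc (M.ev (C03_H M k x)) j z = tc (fun w => w ^ k * hc (M.ev x) k z) j := by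
    unfold hc
    apply C03_tc_congr
    intro w hw
    show M.ev (C03_H M k x) (w • z) = w ^ k * hc (M.ev x) k z
    rw [C03_H_ev M k x ((C03_norm_smul_le hz w).trans hw.le)]
    exact (hc_props n (M.ev x) (M.hol x)).2.1 k w z
  rw [h1, C03_tc_mono]
  split_ifs with h
  · rw [C03_H_ev M k x hz]
  · rw [map_zero, Pi.zero_apply]

lemma C03_dil (M : BModel n X) (x : X) {ε : ℝ} (hε : 0 < ε) :
    ∃ (r : ℝ) (xr : X), 0 < r ∧ r < 1 ∧ (∀ z, ‖z‖ ≤ 1 → M.ev xr z = M.ev x ((r : ℂ) • z)) ∧ ‖x - xr‖ ≤ ε := by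
  have huc : UniformContinuousOn (M.ev x) (Metric.closedBall 0 1) :=
    (isCompact_closedBall (0 : E n) 1).uniformContinuousOn_of_continuous (M.cont x)
  rw [Metric.uniformContinuousOn_iff] at huc
  obtain ⟨δ, hδ, hδ2⟩ := huc ε hε
  set r : ℝ := 1 - min (δ / 2) (1 / 2) with hr
  have h1 : min (δ / 2) (1 / 2) ≤ 1 / 2 := min_le_right _ _
  have h2 : min (δ / 2) (1 / 2) ≤ δ / 2 := min_le_left _ _
  have h3 : 0 < min (δ / 2) (1 / 2) := lt_min (by linarith) (by norm_num)
  have hr0 : 0 < r := by rw [hr]; linarith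
  have hr1 : r < 1 := by rw [hr]; linarith
  have hrn : ‖(r : ℂ)‖ = r := by rw [Complex.norm_real, Real.norm_of_nonneg hr0.le]
  have hmaps : ∀ z : E n, ‖z‖ ≤ 1 → ‖(r : ℂ) • z‖ ≤ 1 := by
    intro z hz
    have := C03_norm_smul_le hz (r : ℂ)
    rw [hrn] at this
    linarith
  obtain ⟨xr, hxr⟩ := M.surj (fun z => M.ev x ((r : ℂ) • z))
    (by
      apply (M.cont x).comp (f := fun z : E n => (r : ℂ) • z) (by fun_prop)
      intro z hz
      rw [mem_closedBall_zero_iff] at hz ⊢
      exact hmaps z hz)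
    (by
      apply (M.hol x).comp (f := fun z : E n => (r : ℂ) • z)
      · exact (differentiable_id.const_smul (r : ℂ)).differentiableOn
      · intro z hz
        rw [mem_ball_zero_iff] at hz ⊢
        rw [norm_smul, hrn]
        nlinarith [norm_nonneg z])
  refine ⟨r, xr, hr0, hr1, hxr, ?_⟩
  apply M.norm_le _ _ hε.le
  intro z hz
  rw [map_sub, Pi.sub_apply, hxr z hz]
  have h4 := hδ2 z (by rw [mem_closedBall_zero_iff]; exact hz) ((r : ℂ) • z)
    (by rw [mem_closedBall_zero_iff]; exact hmaps z hz) (by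
      rw [dist_eq_norm]
      have : z - (r : ℂ) • z = ((1 - r : ℝ) : ℂ) • z := by
        push_cast
        rw [sub_smul, one_smul]
      rw [this]
      have h5 := C03_norm_smul_le hz (((1 - r : ℝ)) : ℂ)
      rw [Complex.norm_real, Real.norm_of_nonneg (by linarith)] at h5
      linarith)
  rw [dist_eq_norm] at h4
  exact h4.le

end

/-- TARGET -/
theorem exists_grad (n : ℕ) (hn : 1 ≤ n) {X : Type} [NormedAddCommGroup X] [NormedSpace ℂ X]
    (M : BModel n X) : ∃ H : ℕ → X →L[ℂ] X, Grad X H ∧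
      ∀ k x z, ‖z‖ ≤ 1 → M.ev (H k x) z = hc (M.ev x) k z := by
  refine ⟨C03_H M, ⟨?_, C03_H_comp M, ?_, ?_⟩, fun k x z hz => C03_H_ev M k x hz⟩
  · intro k x
    apply M.norm_le _ _ (norm_nonneg _)
    intro z hz
    rw [C03_H_ev M k x hz]
    exact C03_bd M x k hz
  · intro N hN x
    apply M.norm_le _ _ (norm_nonneg _)
    intro z hz
    have h1 : M.ev (∑ k ∈ Finset.range N, ((1 - (k : ℝ) / N : ℝ) : ℂ) • C03_H M k x) z =
        ∑ k ∈ Finset.range N, ((1 - (k : ℝ) / N : ℝ) : ℂ) * tc (fun w => M.ev x (w • z)) k := by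
      rw [map_sum, Finset.sum_apply]
      apply Finset.sum_congr rfl
      intro k _
      rw [map_smul, Pi.smul_apply, C03_H_ev M k x hz, smul_eq_mul]
      rfl
    rw [h1]
    apply fejer_bound _ (C03_slice (M.hol x) hz) ‖x‖ _ N hN
    intro w hw
    exact M.bd x _ ((C03_norm_smul_le hz w).trans hw.le)
  · intro x ε hε
    obtain ⟨r, xr, hr0, hr1, hxr, hxx⟩ := C03_dil M x (half_pos hε)
    have hrn : ‖(r : ℂ)‖ = r := by rw [Complex.norm_real, Real.norm_of_nonneg hr0.le]
    -- choose N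
    have hlim : Filter.Tendsto (fun N : ℕ => ‖x‖ * r ^ N / (1 - r)) Filter.atTop (nhds 0) := by
      have h1 := (tendsto_pow_atTop_nhds_zero_of_lt_one hr0.le hr1).const_mul ‖x‖
      rw [mul_zero] at h1
      have h2 := h1.div_const (1 - r)
      rw [zero_div] at h2
      exact h2
    obtain ⟨N, hN⟩ := (hlim.eventually_le_const (half_pos hε)).exists
    refine ⟨N, ∑ k ∈ Finset.range N, ((r : ℂ) ^ k) • C03_H M k x, ?_, ?_⟩
    · apply Finset.sum_congr rfl
      intro k hk
      rw [map_sum]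
      rw [Finset.sum_eq_single k]
      · rw [map_smul, C03_H_comp, if_pos rfl]
      · intro j _ hjk
        rw [map_smul, C03_H_comp, if_neg (Ne.symm hjk), smul_zero]
      · intro h
        exact absurd hk h
    · have h1 : ‖xr - ∑ k ∈ Finset.range N, ((r : ℂ) ^ k) • C03_H M k x‖ ≤ ε / 2 := by
        apply M.norm_le _ _ (half_pos hε).le
        intro z hz
        have e1 : M.ev (xr - ∑ k ∈ Finset.range N, ((r : ℂ) ^ k) • C03_H M k x) z =
            M.ev x ((r : ℂ) • z) - ∑ k ∈ Finset.range N, hc (M.ev x) k ((r : ℂ) • z) := by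
          rw [map_sub, Pi.sub_apply, hxr z hz, map_sum, Finset.sum_apply]
          congr 1
          apply Finset.sum_congr rfl
          intro k _
          rw [map_smul, Pi.smul_apply, C03_H_ev M k x hz, smul_eq_mul,
            (hc_props n (M.ev x) (M.hol x)).2.1]
        rw [e1]
        have hrz : ‖(r : ℂ) • z‖ < 1 := by
          have := C03_norm_smul_le hz (r : ℂ)
          rw [hrn] at this
          linarith
        have hs := ((hc_props n (M.ev x) (M.hol x)).2.2 _ hrz).2
        have ht := hs.tendsto_sum_nat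
        have h2 := dist_le_of_le_geometric_of_tendsto r ‖x‖ hr1
          (f := fun N => ∑ k ∈ Finset.range N, hc (M.ev x) k ((r : ℂ) • z)) (by
            intro m
            rw [dist_eq_norm, Finset.sum_range_succ, sub_add_cancel_left, norm_neg,
              (hc_props n (M.ev x) (M.hol x)).2.1, norm_mul, norm_pow, hrn, mul_comm]
            exact mul_le_mul_of_nonneg_right (C03_bd M x m hz) (by positivity)) ht N
        rw [dist_comm, dist_eq_norm] at h2
        exact h2.trans hN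
      calc ‖x - ∑ k ∈ Finset.range N, ((r : ℂ) ^ k) • C03_H M k x‖
          = ‖(x - xr) + (xr - ∑ k ∈ Finset.range N, ((r : ℂ) ^ k) • C03_H M k x)‖ := by congr 1; abel
        _ ≤ ‖x - xr‖ + ‖xr - ∑ k ∈ Finset.range N, ((r : ℂ) ^ k) • C03_H M k x‖ := norm_add_le _ _
        _ ≤ ε / 2 + ε / 2 := add_le_add hxx h1
        _ = ε := by ring


end Pool.Agent.BallAlg
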