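import Mathlib
import Pool.Agent.BallAlg.Defs
import Pool.Agent.BallAlg.Factor

set_option autoImplicit false

open MeasureTheory Complex
open scoped ENNReal NNReal

namespace Pool.Agent.BallAlg

open Pool.Agent.HpBall Pool.Agent.HpBall2

section C12

variable {X : Type} [NormedAddCommGroup X] [NormedSpace ℂ X]

/-- multiplier operators -/
noncomputable def C12_mult (H : ℕ → X →L[ℂ] X) (f : ℕ → ℝ) (K : ℕ) : X →L[ℂ] X :=
  ∑ k ∈ Finset.range K, ((f k : ℝ) : ℂ) • H k

theorem C12_apply (H : ℕ → X →L[ℂ] X) (f : ℕ → ℝ) (K : ℕ) (x : X) :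
    C12_mult H f K x = ∑ k ∈ Finset.range K, ((f k : ℝ) : ℂ) • H k x := by
  simp [C12_mult]

theorem C12_comp {H : ℕ → X →L[ℂ] X} (hG : Grad X H) {f g : ℕ → ℝ} {K K' : ℕ}
    (hg : ∀ k, K' ≤ k → g k = 0) (x : X) :
    C12_mult H f K (C12_mult H g K' x) = C12_mult H (fun k => f k * g k) K x := by
  rw [C12_apply, C12_apply, C12_apply]
  apply Finset.sum_congr rfl
  intro j hj
  rw [map_sum]
  have h1 : ∀ k ∈ Finset.range K', H j (((g k : ℝ) : ℂ) • H k x) =
      if j = k then ((g j : ℝ) : ℂ) • H j x else 0 := by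
    intro k _
    rw [map_smul, hG.comp]
    split_ifs with h
    · rw [h]
    · rw [smul_zero]
  rw [Finset.sum_congr rfl h1, Finset.sum_ite_eq]
  split_ifs with h
  · rw [smul_smul, Complex.ofReal_mul]
  · rw [hg j (by simpa using h)]
    simp

theorem C12_H_mult {H : ℕ → X →L[ℂ] X} (hG : Grad X H) {f : ℕ → ℝ} {K : ℕ} {j : ℕ}
    (hf : f j = 0) (x : X) : H j (C12_mult H f K x) = 0 := by
  rw [C12_apply, map_sum]
  apply Finset.sum_eq_zero
  intro k _
  rw [map_smul, hG.comp]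
  split_ifs with h
  · rw [← h, hf]
    simp
  · rw [smul_zero]

theorem C12_ext (H : ℕ → X →L[ℂ] X) {f g : ℕ → ℝ} {K K' : ℕ} (hf : ∀ k, K ≤ k → f k = 0)
    (hg : ∀ k, K' ≤ k → g k = 0) (h : ∀ k, f k = g k) (x : X) :
    C12_mult H f K x = C12_mult H g K' x := by
  have aux : ∀ (f : ℕ → ℝ) (K M : ℕ), (∀ k, K ≤ k → f k = 0) → K ≤ M →
      C12_mult H f K x = C12_mult H f M x := by
    intro f K M hf hKM
    rw [C12_apply, C12_apply]
    apply Finset.sum_subset (Finset.range_mono hKM)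
    intro k _ hk
    rw [hf k (by simpa using hk)]
    simp
  obtain rfl : f = g := funext h
  rw [aux f K (max K K') hf (le_max_left _ _), aux f K' (max K K') hg (le_max_right _ _)]

/-- the de la Vallee-Poussin multiplier -/
noncomputable def C12_vv (l k : ℕ) : ℝ :=
  if l = 0 then 0 else max 0 (min 1 (2 - (k : ℝ) / 2 ^ l))

theorem C12_vv_one {l k : ℕ} (hl : l ≠ 0) (hk : k ≤ 2 ^ l) : C12_vv l k = 1 := by
  unfold C12_vv
  rw [if_neg hl]
  have h1 : (k : ℝ) / 2 ^ l ≤ 1 := by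
    rw [div_le_one (by positivity)]
    exact_mod_cast hk
  rw [min_eq_left (by linarith)]
  norm_num

theorem C12_vv_zero {l k : ℕ} (h : l = 0 ∨ 2 ^ (l + 1) ≤ k) : C12_vv l k = 0 := by
  unfold C12_vv
  rcases h with h | h
  · rw [if_pos h]
  · by_cases hl : l = 0
    · rw [if_pos hl]
    · rw [if_neg hl]
      have h1 : (2 : ℝ) ≤ (k : ℝ) / 2 ^ l := by
        rw [le_div_iff₀ (by positivity)]
        have : (2 : ℝ) * 2 ^ l = 2 ^ (l + 1) := by ring
        rw [this]
        exact_mod_cast h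
      rw [min_eq_right (by linarith)]
      exact max_eq_left (by linarith)

/-- de la Vallee-Poussin operator -/
noncomputable def C12_V (H : ℕ → X →L[ℂ] X) (l : ℕ) : X →L[ℂ] X :=
  C12_mult H (C12_vv l) (2 ^ (l + 1))

theorem C12_V_norm {H : ℕ → X →L[ℂ] X} (hG : Grad X H) (l : ℕ) (x : X) :
    ‖C12_V H l x‖ ≤ 3 * ‖x‖ := by
  by_cases hl : l = 0
  · have : C12_V H l x = 0 := by
      unfold C12_V
      rw [C12_apply]
      apply Finset.sum_eq_zero
      intro k _
      rw [C12_vv_zero (Or.inl hl)]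
      simp
    rw [this, norm_zero]
    positivity
  · obtain ⟨N, hN⟩ : ∃ N, N = 2 ^ l := ⟨_, rfl⟩
    have hN1 : 1 ≤ N := by rw [hN]; exact Nat.one_le_two_pow
    have hNr : (0 : ℝ) < N := by exact_mod_cast hN1
    have hNc : (N : ℝ) = 2 ^ l := by rw [hN]; push_cast; rfl
    have e1 : C12_V H l x = (2 : ℂ) • C12_mult H (fun k => 1 - (k : ℝ) / ((2 * N : ℕ) : ℝ)) (2 * N) x -
        C12_mult H (fun k => if k < N then 1 - (k : ℝ) / N else 0) (2 * N) x := by
      unfold C12_V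
      rw [C12_apply, C12_apply, C12_apply, Finset.smul_sum, ← Finset.sum_sub_distrib,
        show 2 ^ (l + 1) = 2 * N by rw [hN]; ring]
      apply Finset.sum_congr rfl
      intro k hk
      rw [Finset.mem_range] at hk
      rw [smul_smul, ← sub_smul]
      congr 1
      have e2 : C12_vv l k = 2 * (1 - (k : ℝ) / ((2 * N : ℕ) : ℝ)) - (if k < N then 1 - (k : ℝ) / N else 0) := by
        have e3 : 2 * (1 - (k : ℝ) / ((2 * N : ℕ) : ℝ)) = 2 - (k : ℝ) / N := by
          push_cast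
          field_simp
        rw [e3]
        split_ifs with h
        · rw [C12_vv_one hl (by omega)]
          ring
        · unfold C12_vv
          rw [if_neg hl, ← hNc]
          have h1 : 1 ≤ (k : ℝ) / N := by
            rw [one_le_div hNr]
            exact_mod_cast (by omega : N ≤ k)
          have h2 : (k : ℝ) / N ≤ 2 := by
            rw [div_le_iff₀ hNr]
            exact_mod_cast hk.le
          rw [min_eq_right (by linarith), max_eq_right (by linarith), sub_zero]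
      rw [e2]
      push_cast
      ring
    have e4 : C12_mult H (fun k => if k < N then 1 - (k : ℝ) / N else 0) (2 * N) x =
        ∑ k ∈ Finset.range N, ((1 - (k : ℝ) / N : ℝ) : ℂ) • H k x := by
      have h1 := C12_ext H (f := fun k => if k < N then 1 - (k : ℝ) / N else 0)
        (g := fun k => if k < N then 1 - (k : ℝ) / N else 0) (K := 2 * N) (K' := N)
        (fun k hk => if_neg (by omega)) (fun k hk => if_neg (by omega)) (fun k => rfl) x
      rw [h1, C12_apply]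
      apply Finset.sum_congr rfl
      intro k hk
      rw [if_pos (Finset.mem_range.1 hk)]
    have f1 := hG.fej (2 * N) (by omega) x
    have f2 := hG.fej N hN1 x
    rw [e1, e4]
    refine (norm_sub_le _ _).trans ?_
    rw [norm_smul, C12_apply]
    have : ‖(2 : ℂ)‖ = 2 := by norm_num
    rw [this]
    linarith

theorem C12_V_id {H : ℕ → X →L[ℂ] X} (hG : Grad X H) {N l : ℕ} (hl : l ≠ 0) (hN : N ≤ 2 ^ l)
    {y : X} (hy : y = ∑ k ∈ Finset.range N, H k y) : C12_V H l y = y := by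
  have e1 : y = C12_mult H (fun k => if k < N then 1 else 0) N y := by
    rw [C12_apply]
    conv_lhs => rw [hy]
    apply Finset.sum_congr rfl
    intro k hk
    rw [if_pos (Finset.mem_range.1 hk)]
    simp
  have hp : N ≤ 2 ^ (l + 1) := hN.trans (Nat.pow_le_pow_right (by norm_num) (by omega))
  calc C12_V H l y = C12_V H l (C12_mult H (fun k => if k < N then 1 else 0) N y) := by rw [← e1]
    _ = C12_mult H (fun k => C12_vv l k * (if k < N then 1 else 0)) (2 ^ (l + 1)) y := by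
        unfold C12_V
        exact C12_comp hG (fun k hk => if_neg (by omega)) y
    _ = C12_mult H (fun k => if k < N then 1 else 0) N y := by
        apply C12_ext
        · intro k hk
          rw [if_neg (by omega), mul_zero]
        · exact fun k hk => if_neg (by omega)
        · intro k
          by_cases h : k < N
          · rw [if_pos h, C12_vv_one hl (by omega), one_mul]
          · rw [if_neg h, mul_zero]
    _ = y := e1.symm

theorem C12_V_tendsto {H : ℕ → X →L[ℂ] X} (hG : Grad X H) (x : X) :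
    Filter.Tendsto (fun L => C12_V H L x) Filter.atTop (nhds x) := by
  rw [Metric.tendsto_atTop]
  intro ε hε
  obtain ⟨N, y, hy, hxy⟩ := hG.dense x (ε / 8) (by positivity)
  refine ⟨N + 1, fun L hL => ?_⟩
  have h1 : N ≤ 2 ^ L := by
    have : L < 2 ^ L := Nat.lt_two_pow_self
    omega
  have h2 := C12_V_id hG (by omega : L ≠ 0) h1 hy
  rw [dist_eq_norm]
  have h3 : C12_V H L x - x = C12_V H L (x - y) - (x - y) := by
    rw [map_sub, h2]
    abel
  rw [h3]
  have h4 := C12_V_norm hG L (x - y)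
  have h5 := norm_sub_le (C12_V H L (x - y)) (x - y)
  linarith

theorem C12_diff_mult (H : ℕ → X →L[ℂ] X) {f g : ℕ → ℝ} {K K' M : ℕ} (hf : ∀ k, K ≤ k → f k = 0)
    (hg : ∀ k, K' ≤ k → g k = 0) (hK : K ≤ M) (hK' : K' ≤ M) (x : X) :
    C12_mult H f K x - C12_mult H g K' x = C12_mult H (fun k => f k - g k) M x := by
  rw [C12_ext H (f := f) (g := f) (K := K) (K' := M) hf (fun k hk => hf k (by omega)) (fun _ => rfl),
    C12_ext H (f := g) (g := g) (K := K') (K' := M) hg (fun k hk => hg k (by omega)) (fun _ => rfl)]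
  rw [C12_apply, C12_apply, C12_apply, ← Finset.sum_sub_distrib]
  apply Finset.sum_congr rfl
  intro k _
  rw [← sub_smul]
  push_cast
  rfl

/-- multiplier of the block -/
noncomputable def C12_t (l k : ℕ) : ℝ := C12_vv (l + 1) k - C12_vv l k

noncomputable def C12_t' (l k : ℕ) : ℝ := C12_vv (l + 2) k - C12_vv (l - 1) k

noncomputable def C12_p (l k : ℕ) : ℝ :=
  if k ≤ 2 ^ (l + 3) ∧ (k = 0 ∨ 2 ^ l ≤ 2 * k) then 1 else 0

theorem C12_t_zero {l k : ℕ} (h : 2 ^ (l + 2) ≤ k) : C12_t l k = 0 := by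
  unfold C12_t
  rw [C12_vv_zero (Or.inr h), C12_vv_zero (Or.inr _), sub_zero]
  exact le_trans (Nat.pow_le_pow_right (by norm_num) (by omega)) h

theorem C12_t_zero' {l k : ℕ} (hl : l ≠ 0) (h : k ≤ 2 ^ l) : C12_t l k = 0 := by
  unfold C12_t
  rw [C12_vv_one (by omega) (h.trans (Nat.pow_le_pow_right (by norm_num) (by omega))),
    C12_vv_one hl h, sub_self]

theorem C12_t'_zero {l k : ℕ} (h : 2 ^ (l + 3) ≤ k) : C12_t' l k = 0 := by
  unfold C12_t'
  rw [C12_vv_zero (Or.inr h), C12_vv_zero (Or.inr _), sub_zero]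
  exact le_trans (Nat.pow_le_pow_right (by norm_num) (by omega)) h

theorem C12_t'_zero' {l k : ℕ} (hl : 2 ≤ l) (h : k ≤ 2 ^ (l - 1)) : C12_t' l k = 0 := by
  unfold C12_t'
  rw [C12_vv_one (by omega) (h.trans (Nat.pow_le_pow_right (by norm_num) (by omega))),
    C12_vv_one (by omega) h, sub_self]

theorem C12_t'_one {l k : ℕ} (hl : l = 0 ∨ 2 ^ l ≤ k) (h : k ≤ 2 ^ (l + 2)) : C12_t' l k = 1 := by
  unfold C12_t'
  rw [C12_vv_one (by omega) h, C12_vv_zero _, sub_zero]
  rcases hl with hl | hl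
  · left; omega
  · by_cases h0 : l - 1 = 0
    · left; exact h0
    · right
      rwa [show l - 1 + 1 = l by omega]

theorem C12_tt' (l k : ℕ) : C12_t l k * C12_t' l k = C12_t l k := by
  by_cases h1 : 2 ^ (l + 2) ≤ k
  · rw [C12_t_zero h1, zero_mul]
  · by_cases hl : l = 0
    · rw [C12_t'_one (Or.inl hl) (by omega), mul_one]
    · by_cases h2 : k ≤ 2 ^ l
      · rw [C12_t_zero' hl h2, zero_mul]
      · rw [C12_t'_one (Or.inr (by omega)) (by omega), mul_one]

theorem C12_pt' (l k : ℕ) : C12_p l k * C12_t' l k = C12_t' l k := by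
  by_cases h1 : 2 ^ (l + 3) ≤ k
  · rw [C12_t'_zero h1, mul_zero]
  · unfold C12_p
    by_cases h2 : k = 0 ∨ 2 ^ l ≤ 2 * k
    · rw [if_pos ⟨by omega, h2⟩, one_mul]
    · have hl : 2 ≤ l := by
        by_contra hl
        have : l = 0 ∨ l = 1 := by omega
        rcases this with rfl | rfl
        · omega
        · omega
      have h3 : k ≤ 2 ^ (l - 1) := by
        have : 2 ^ l = 2 * 2 ^ (l - 1) := by
          rw [← pow_succ', show l - 1 + 1 = l by omega]
        omega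
      rw [C12_t'_zero' hl h3, mul_zero]

theorem C12_tp (l k : ℕ) : C12_t l k * C12_p l k = C12_t l k := by
  by_cases h1 : 2 ^ (l + 2) ≤ k
  · rw [C12_t_zero h1, zero_mul]
  · have h3 : 2 ^ (l + 2) ≤ 2 ^ (l + 3) := Nat.pow_le_pow_right (by norm_num) (by omega)
    unfold C12_p
    by_cases hl : l = 0
    · rw [if_pos ⟨by omega, by subst hl; norm_num; omega⟩, mul_one]
    · by_cases h2 : k ≤ 2 ^ l
      · rw [C12_t_zero' hl h2, zero_mul]
      · rw [if_pos ⟨by omega, by right; omega⟩, mul_one]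

theorem C12_t't (l j k : ℕ) (h : l + 3 ≤ j ∨ j + 3 ≤ l) : C12_t' l k * C12_t j k = 0 := by
  rcases h with h | h
  · by_cases h1 : k ≤ 2 ^ j
    · rw [C12_t_zero' (by omega) h1, mul_zero]
    · have h2 : 2 ^ (l + 3) ≤ 2 ^ j := Nat.pow_le_pow_right (by norm_num) h
      rw [C12_t'_zero (by omega), zero_mul]
  · by_cases h1 : 2 ^ (j + 2) ≤ k
    · rw [C12_t_zero h1, mul_zero]
    · have h2 : 2 ^ (j + 2) ≤ 2 ^ (l - 1) := Nat.pow_le_pow_right (by norm_num) (by omega)
      rw [C12_t'_zero' (by omega) (by omega), zero_mul]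

end C12

/-- TARGET -/
theorem grad_factor {X : Type} [NormedAddCommGroup X] [NormedSpace ℂ X] [CompleteSpace X]
    (H : ℕ → X →L[ℂ] X) (hG : Grad X H) (D : ℝ) (hD : 0 < D)
    (hdisc : ∀ (l : ℕ) (ε : ℝ), 0 < ε → ∃ (m : ℕ) (σ : X →L[ℂ] (Fin m → ℂ))
      (B : (Fin m → ℂ) →L[ℂ] X), 0 < m ∧ (∀ x, ‖σ x‖ ≤ ‖x‖) ∧ (∀ c, ‖B c‖ ≤ D * ‖c‖) ∧
      ∀ x, (∀ k, k ≠ 0 → (2 * k < 2 ^ l ∨ 2 ^ (l + 3) < k) → H k x = 0) →
        ‖B (σ x) - x‖ ≤ ε * ‖x‖) :
    ∃ (m : ℕ → ℕ) (α : ∀ l, X →L[ℂ] (Fin (m l) → ℂ)) (β : ∀ l, (Fin (m l) → ℂ) →L[ℂ] X) (C : ℝ),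
      (∀ l, 0 < m l) ∧ (∀ l x, ‖α l x‖ ≤ C * ‖x‖) ∧ (∀ l c, ‖β l c‖ ≤ C * ‖c‖) ∧
      (∀ l j, l + 3 ≤ j ∨ j + 3 ≤ l → ∀ c, α l (β j c) = 0) ∧
      ∀ x, Filter.Tendsto (fun L => ∑ l ∈ Finset.range L, β l (α l x)) Filter.atTop (nhds x) := by
  have hpow : ∀ a b : ℕ, a ≤ b → 2 ^ a ≤ 2 ^ b := fun a b h => Nat.pow_le_pow_right (by norm_num) h
  have vz : ∀ l k, 2 ^ (l + 1) ≤ k → C12_vv l k = 0 := fun l k h => C12_vv_zero (Or.inr h)
  obtain ⟨T, hT⟩ : ∃ T : ℕ → X →L[ℂ] X, T = fun l => C12_V H (l + 1) - C12_V H l := ⟨_, rfl⟩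
  obtain ⟨T', hT'⟩ : ∃ T' : ℕ → X →L[ℂ] X, T' = fun l => C12_V H (l + 2) - C12_V H (l - 1) :=
    ⟨_, rfl⟩
  obtain ⟨P, hP⟩ : ∃ P : ℕ → X →L[ℂ] X, P = fun l => C12_mult H (C12_p l) (2 ^ (l + 3) + 1) :=
    ⟨_, rfl⟩
  have hTm : ∀ l x, T l x = C12_mult H (C12_t l) (2 ^ (l + 2)) x := by
    intro l x
    rw [hT]
    show C12_V H (l + 1) x - C12_V H l x = _
    exact C12_diff_mult H (vz _) (vz _) (hpow _ _ (by omega)) (hpow _ _ (by omega)) x
  have hT'm : ∀ l x, T' l x = C12_mult H (C12_t' l) (2 ^ (l + 3)) x := by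
    intro l x
    rw [hT']
    show C12_V H (l + 2) x - C12_V H (l - 1) x = _
    exact C12_diff_mult H (vz _) (vz _) (hpow _ _ (by omega)) (hpow _ _ (by omega)) x
  have hPm : ∀ l x, P l x = C12_mult H (C12_p l) (2 ^ (l + 3) + 1) x := by
    intro l x
    rw [hP]
  have pz : ∀ l k, 2 ^ (l + 3) + 1 ≤ k → C12_p l k = 0 := by
    intro l k h
    unfold C12_p
    rw [if_neg (by omega)]
  have tz : ∀ l k, 2 ^ (l + 2) ≤ k → C12_t l k = 0 := fun l k h => C12_t_zero h
  have t'z : ∀ l k, 2 ^ (l + 3) ≤ k → C12_t' l k = 0 := fun l k h => C12_t'_zero h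
  have hTT : ∀ l x, T l (T' l x) = T l x := by
    intro l x
    rw [hT'm, hTm, hTm, C12_comp hG (t'z l)]
    exact C12_ext H (fun k hk => by rw [tz l k hk, zero_mul]) (tz l) (fun k => C12_tt' l k) x
  have hPT : ∀ l x, P l (T' l x) = T' l x := by
    intro l x
    rw [hT'm, hPm, C12_comp hG (t'z l)]
    exact C12_ext H (fun k hk => by rw [pz l k hk, zero_mul]) (t'z l) (fun k => C12_pt' l k) x
  have hTP : ∀ l x, T l (P l x) = T l x := by
    intro l x
    rw [hPm, hTm, hTm, C12_comp hG (pz l)]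
    exact C12_ext H (fun k hk => by rw [tz l k hk, zero_mul]) (tz l) (fun k => C12_tp l k) x
  have hTn : ∀ l x, ‖T l x‖ ≤ 6 * ‖x‖ := by
    intro l x
    rw [hT]
    show ‖C12_V H (l + 1) x - C12_V H l x‖ ≤ _
    have h1 := norm_sub_le (C12_V H (l + 1) x) (C12_V H l x)
    have h2 := C12_V_norm hG (l + 1) x
    have h3 := C12_V_norm hG l x
    linarith
  have hT'n : ∀ l x, ‖T' l x‖ ≤ 6 * ‖x‖ := by
    intro l x
    rw [hT']
    show ‖C12_V H (l + 2) x - C12_V H (l - 1) x‖ ≤ _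
    have h1 := norm_sub_le (C12_V H (l + 2) x) (C12_V H (l - 1) x)
    have h2 := C12_V_norm hG (l + 2) x
    have h3 := C12_V_norm hG (l - 1) x
    linarith
  have hPn : ∀ l x, ‖P l x‖ ≤ (2 ^ (l + 3) + 1 : ℝ) * ‖x‖ := by
    intro l x
    rw [hPm, C12_apply]
    refine (norm_sum_le _ _).trans ?_
    calc ∑ k ∈ Finset.range (2 ^ (l + 3) + 1), ‖((C12_p l k : ℝ) : ℂ) • H k x‖
        ≤ ∑ k ∈ Finset.range (2 ^ (l + 3) + 1), ‖x‖ := by
          apply Finset.sum_le_sum
          intro k _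
          rw [norm_smul]
          have h1 : ‖((C12_p l k : ℝ) : ℂ)‖ ≤ 1 := by
            unfold C12_p
            split_ifs <;> simp
          calc ‖((C12_p l k : ℝ) : ℂ)‖ * ‖H k x‖ ≤ 1 * ‖x‖ :=
                mul_le_mul h1 (hG.bd k x) (norm_nonneg _) (by norm_num)
            _ = ‖x‖ := one_mul _
      _ = _ := by
          rw [Finset.sum_const, Finset.card_range, nsmul_eq_mul]
          push_cast
          ring
  have hmain : ∀ l, ∃ (m : ℕ) (σ : X →L[ℂ] (Fin m → ℂ)) (β : (Fin m → ℂ) →L[ℂ] X), 0 < m ∧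
      (∀ x, ‖σ x‖ ≤ ‖x‖) ∧ (∀ x, β (σ (T' l x)) = T l x) ∧ (∀ c, ‖β c‖ ≤ 2 * 6 * D * ‖c‖) ∧
      ∀ c, ∃ x, β c = T l x := by
    intro l
    obtain ⟨d, hd⟩ : ∃ d : ℝ, d = 2 ^ (l + 3) + 1 := ⟨_, rfl⟩
    have hd1 : 1 ≤ d := by
      rw [hd]
      have : (0 : ℝ) < 2 ^ (l + 3) := by positivity
      linarith
    obtain ⟨m, σ, B, hm, hσ, hB, hBσ⟩ := hdisc l (1 / (24 * d ^ 2)) (by positivity)
    obtain ⟨β, hβ1, hβ2, hβ3⟩ := factor_abs (T l) (T' l) (P l) σ B 6 D d (1 / (24 * d ^ 2))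
      (by norm_num) hD hd1 (by positivity) (by
        have : d ≠ 0 := by positivity
        apply le_of_eq
        field_simp
        norm_num) (hTn l) (by rw [hd]; exact hPn l) hB (hTT l) (hPT l) (hTP l) (by
        intro x
        apply hBσ
        intro k hk0 hk
        rw [hPm]
        apply C12_H_mult hG
        unfold C12_p
        rw [if_neg (by omega)])
    exact ⟨m, σ, β, hm, hσ, hβ1, hβ2, hβ3⟩
  choose m σ β hm hσ hβ1 hβ2 hβ3 using hmain
  refine ⟨m, fun l => (σ l).comp (T' l), β, max 6 (12 * D), hm, ?_, ?_, ?_, ?_⟩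
  · intro l x
    show ‖σ l (T' l x)‖ ≤ _
    calc ‖σ l (T' l x)‖ ≤ ‖T' l x‖ := hσ l _
      _ ≤ 6 * ‖x‖ := hT'n l x
      _ ≤ _ := mul_le_mul_of_nonneg_right (le_max_left _ _) (norm_nonneg _)
  · intro l c
    calc ‖β l c‖ ≤ 2 * 6 * D * ‖c‖ := hβ2 l c
      _ = 12 * D * ‖c‖ := by ring
      _ ≤ _ := mul_le_mul_of_nonneg_right (le_max_right _ _) (norm_nonneg _)
  · intro l j h c
    show σ l (T' l (β j c)) = 0
    obtain ⟨x, hx⟩ := hβ3 j c
    rw [hx, hTm, hT'm, C12_comp hG (tz j)]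
    have : C12_mult H (fun k => C12_t' l k * C12_t j k) (2 ^ (l + 3)) x = 0 := by
      rw [C12_apply]
      apply Finset.sum_eq_zero
      intro k _
      rw [C12_t't l j k h]
      simp
    rw [this, map_zero]
  · intro x
    have h1 : ∀ L, ∑ l ∈ Finset.range L, β l (((σ l).comp (T' l)) x) = C12_V H L x := by
      intro L
      have h2 : ∀ l ∈ Finset.range L, β l (((σ l).comp (T' l)) x) =
          C12_V H (l + 1) x - C12_V H l x := by
        intro l _
        show β l (σ l (T' l x)) = _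
        rw [hβ1, hT]
        rfl
      rw [Finset.sum_congr rfl h2, Finset.sum_range_sub (fun l => C12_V H l x)]
      have h3 : C12_V H 0 x = 0 := by
        unfold C12_V
        rw [C12_apply]
        apply Finset.sum_eq_zero
        intro k _
        rw [C12_vv_zero (Or.inl rfl)]
        simp
      rw [h3, sub_zero]
    refine (C12_V_tendsto hG x).congr ?_
    intro L
    exact (h1 L).symm

end Pool.Agent.BallAlg
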