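import Mathlib
import Pool.Agent.BallAlg.Defs

set_option autoImplicit false

open MeasureTheory Complex
open scoped ENNReal NNReal

namespace Pool.Agent.BallAlg

open Pool.Agent.HpBall Pool.Agent.HpBall2

theorem C07_tendsto (w : c0) : Filter.Tendsto (fun n : ℕ => w n) Filter.atTop (nhds 0) := by
  have := w.zero_at_infty'
  rw [Filter.cocompact_eq_cofinite, Nat.cofinite_eq_atTop] at this
  exact this

theorem C07_norm_le (w : c0) {C : ℝ} (hC : 0 ≤ C) (h : ∀ n, ‖w n‖ ≤ C) : ‖w‖ ≤ C := by
  rw [← ZeroAtInftyContinuousMap.norm_toBCF_eq_norm]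
  exact (BoundedContinuousFunction.norm_le hC).2 h

theorem C07_apply_le (w : c0) (n : ℕ) : ‖w n‖ ≤ ‖w‖ := by
  rw [← ZeroAtInftyContinuousMap.norm_toBCF_eq_norm]
  exact BoundedContinuousFunction.norm_coe_le_norm w.toBCF n

/-- element of `c0` from a null sequence -/
noncomputable def C07_mk (a : ℕ → ℂ) (h : Filter.Tendsto a Filter.atTop (nhds 0)) : c0 where
  toFun := a
  continuous_toFun := continuous_of_discreteTopology
  zero_at_infty' := by
    rw [Filter.cocompact_eq_cofinite, Nat.cofinite_eq_atTop]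
    exact h

theorem C07_mk_apply (a : ℕ → ℂ) (h : Filter.Tendsto a Filter.atTop (nhds 0)) (n : ℕ) :
    C07_mk a h n = a n := rfl

/-- the `i`-th row -/
noncomputable def C07_row (i : ℕ) : c0 →L[ℂ] c0 :=
  LinearMap.mkContinuous
    { toFun := fun w => C07_mk (fun k => w (Nat.pair i k)) (by
        refine (C07_tendsto w).comp ?_
        exact Filter.tendsto_atTop_mono (fun k => Nat.right_le_pair i k) Filter.tendsto_id)
      map_add' := fun w w' => by ext k; rfl
      map_smul' := fun c w => by ext k; rfl } 1 (fun w => by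
        rw [one_mul]
        exact C07_norm_le _ (norm_nonneg _) (fun n => C07_apply_le w _))

theorem C07_row_apply (i : ℕ) (w : c0) (k : ℕ) : C07_row i w k = w (Nat.pair i k) := rfl

theorem C07_row_tendsto (w : c0) :
    Filter.Tendsto (fun i => C07_row i w) Filter.atTop (nhds 0) := by
  rw [tendsto_zero_iff_norm_tendsto_zero, Metric.tendsto_atTop]
  intro ε hε
  obtain ⟨N, hN⟩ := Metric.tendsto_atTop.1 (C07_tendsto w) (ε / 2) (by positivity)
  refine ⟨N, fun i hi => ?_⟩
  rw [Real.dist_eq, sub_zero, abs_of_nonneg (norm_nonneg _)]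
  refine lt_of_le_of_lt (C07_norm_le (C := ε / 2) _ (by positivity) (fun k => ?_)) (by linarith)
  have := hN (Nat.pair i k) (hi.trans (Nat.left_le_pair i k))
  rw [dist_zero_right] at this
  rw [C07_row_apply]
  exact this.le

theorem C07_row_ext {w w' : c0} (h : ∀ i, C07_row i w = C07_row i w') : w = w' := by
  ext n
  have h1 := congrArg (fun x : c0 => x (Nat.unpair n).2) (h (Nat.unpair n).1)
  simp only [C07_row_apply, Nat.pair_unpair] at h1
  exact h1

theorem C07_glue {X : Type} [NormedAddCommGroup X] [NormedSpace ℂ X] [CompleteSpace X]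
    (L : ℕ → X →L[ℂ] c0)
    (h0 : ∀ x, Filter.Tendsto (fun i => L i x) Filter.atTop (nhds 0)) :
    ∃ G : X →L[ℂ] c0, ∀ x i, C07_row i (G x) = L i x := by
  have hbd : ∃ C, ∀ i, ‖L i‖ ≤ C := by
    apply banach_steinhaus
    intro x
    obtain ⟨C, hC⟩ := ((h0 x).norm).bddAbove_range
    exact ⟨C, fun i => hC ⟨i, rfl⟩⟩
  obtain ⟨C, hC⟩ := hbd
  have hten : ∀ x, Filter.Tendsto (fun n : ℕ => L (Nat.unpair n).1 x (Nat.unpair n).2)
      Filter.atTop (nhds 0) := by
    intro x
    rw [← Nat.cofinite_eq_atTop, Metric.tendsto_nhds]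
    intro ε hε
    obtain ⟨I, hI⟩ := Metric.tendsto_atTop.1 (h0 x) ε hε
    have hK : ∀ i, ∃ K, ∀ k ≥ K, ‖L i x k‖ < ε := by
      intro i
      obtain ⟨K, hK⟩ := Metric.tendsto_atTop.1 (C07_tendsto (L i x)) ε hε
      exact ⟨K, fun k hk => by simpa using hK k hk⟩
    choose K hK using hK
    rw [Filter.eventually_cofinite]
    have hfin : (⋃ i ∈ Finset.range I, (fun k => Nat.pair i k) '' (Finset.range (K i) : Set ℕ)).Finite := by
      refine Set.Finite.biUnion (Finset.finite_toSet _) (fun i _ => ?_)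
      exact (Finset.finite_toSet _).image _
    refine hfin.subset ?_
    intro n hn
    simp only [Set.mem_ofPred_eq, dist_zero_right, not_lt] at hn
    have h1 : (Nat.unpair n).1 < I := by
      by_contra hcon
      push Not at hcon
      have h2 := hI _ hcon
      rw [dist_zero_right] at h2
      exact absurd (hn.trans (C07_apply_le _ _)) (not_le.2 h2)
    have h3 : (Nat.unpair n).2 < K (Nat.unpair n).1 := by
      by_contra hcon
      push Not at hcon
      exact absurd hn (not_le.2 (hK _ _ hcon))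
    simp only [Set.mem_iUnion]
    refine ⟨(Nat.unpair n).1, Finset.mem_range.2 h1, (Nat.unpair n).2, ?_, Nat.pair_unpair n⟩
    exact Finset.mem_coe.2 (Finset.mem_range.2 h3)
  refine ⟨LinearMap.mkContinuous
    { toFun := fun x => C07_mk _ (hten x)
      map_add' := fun x y => ?_
      map_smul' := fun c x => ?_ } (max C 0) (fun x => ?_), fun x i => ?_⟩
  · ext n
    simp only [C07_mk_apply, map_add, ZeroAtInftyContinuousMap.add_apply]
  · ext n
    simp only [C07_mk_apply, map_smul, ZeroAtInftyContinuousMap.smul_apply, RingHom.id_apply]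
  · refine C07_norm_le _ (by positivity) (fun n => ?_)
    show ‖L (Nat.unpair n).1 x (Nat.unpair n).2‖ ≤ _
    refine (C07_apply_le _ _).trans (((L _).le_opNorm x).trans ?_)
    gcongr
    exact (hC _).trans (le_max_left _ _)
  · ext k
    show L (Nat.unpair (Nat.pair i k)).1 x (Nat.unpair (Nat.pair i k)).2 = L i x k
    rw [Nat.unpair_pair]

/-- TARGET -/
theorem c0_hotel (q : c0 →L[ℂ] c0) (hq : ∀ c, q (q c) = q c) :
    ∃ (S : c0 × c0 →L[ℂ] c0) (R : c0 →L[ℂ] c0 × c0), (∀ w, S (R w) = w) ∧
      (∀ z v, q z = z → R (S (z, v)) = (z, v)) ∧ ∀ w, q (R w).1 = (R w).1 := by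
  -- rows of S
  let LS : ℕ → (c0 × c0 →L[ℂ] c0) := fun i => match i with
    | 0 => ContinuousLinearMap.fst ℂ c0 c0 +
        (((ContinuousLinearMap.id ℂ c0) - q).comp (C07_row 0)).comp (ContinuousLinearMap.snd ℂ c0 c0)
    | (i + 1) => (q.comp (C07_row i)).comp (ContinuousLinearMap.snd ℂ c0 c0) +
        (((ContinuousLinearMap.id ℂ c0) - q).comp (C07_row (i + 1))).comp
          (ContinuousLinearMap.snd ℂ c0 c0)
  have LS0 : ∀ z v, LS 0 (z, v) = z + (C07_row 0 v - q (C07_row 0 v)) := fun z v => rfl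
  have LS1 : ∀ i z v, LS (i + 1) (z, v) =
      q (C07_row i v) + (C07_row (i + 1) v - q (C07_row (i + 1) v)) := fun i z v => rfl
  let LR : ℕ → (c0 →L[ℂ] c0) := fun i =>
    ((ContinuousLinearMap.id ℂ c0) - q).comp (C07_row i) + q.comp (C07_row (i + 1))
  have LRi : ∀ i w, LR i w = (C07_row i w - q (C07_row i w)) + q (C07_row (i + 1) w) :=
    fun i w => rfl
  have hq0 : ∀ v : c0, Filter.Tendsto (fun i => q (C07_row i v)) Filter.atTop (nhds 0) := by
    intro v
    have := (q.continuous.tendsto 0).comp (C07_row_tendsto v)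
    rw [map_zero] at this
    exact this
  have hS0 : ∀ x, Filter.Tendsto (fun i => LS i x) Filter.atTop (nhds 0) := by
    rintro ⟨z, v⟩
    rw [← Filter.tendsto_add_atTop_iff_nat 1]
    simp only [LS1]
    have h1 := (hq0 v).add (((Filter.tendsto_add_atTop_iff_nat 1).2 (C07_row_tendsto v)).sub
      ((Filter.tendsto_add_atTop_iff_nat 1).2 (hq0 v)))
    simpa using h1
  have hR0 : ∀ x, Filter.Tendsto (fun i => LR i x) Filter.atTop (nhds 0) := by
    intro w
    simp only [LRi]
    have h1 := ((C07_row_tendsto w).sub (hq0 w)).add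
      ((Filter.tendsto_add_atTop_iff_nat 1).2 (hq0 w))
    simpa using h1
  obtain ⟨S, hS⟩ := C07_glue LS hS0
  obtain ⟨G, hG⟩ := C07_glue LR hR0
  refine ⟨S, (q.comp (C07_row 0)).prod G, ?_, ?_, ?_⟩
  · intro w
    apply C07_row_ext
    intro i
    show C07_row i (S (q (C07_row 0 w), G w)) = _
    rw [hS]
    cases i with
    | zero =>
      rw [LS0, hG, LRi]
      simp only [map_add, map_sub, hq]
      abel
    | succ i =>
      rw [LS1, hG, hG, LRi, LRi]
      simp only [map_add, map_sub, hq]
      abel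
  · intro z v hz
    show (q (C07_row 0 (S (z, v))), G (S (z, v))) = (z, v)
    rw [Prod.mk.injEq]
    constructor
    · rw [hS, LS0]
      simp only [map_add, map_sub, hq, hz]
      abel
    · apply C07_row_ext
      intro i
      rw [hG, LRi, hS, hS]
      cases i with
      | zero =>
        rw [LS0, LS1]
        simp only [map_add, map_sub, hq, hz]
        abel
      | succ i =>
        rw [LS1, LS1]
        simp only [map_add, map_sub, hq]
        abel
  · intro w
    show q (q (C07_row 0 w)) = q (C07_row 0 w)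
    exact hq _

end Pool.Agent.BallAlg
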