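import Mathlib
import Pool.Agent.BallAlg.Defs

set_option autoImplicit false

open MeasureTheory Complex
open scoped ENNReal NNReal

namespace Pool.Agent.BallAlg

open Pool.Agent.HpBall Pool.Agent.HpBall2

section C08

variable (m : ℕ → ℕ)

def C08_s (L : ℕ) : ℕ := ∑ j ∈ Finset.range L, m j

theorem C08_s_zero : C08_s m 0 = 0 := rfl

theorem C08_s_succ (L : ℕ) : C08_s m (L + 1) = C08_s m L + m L := Finset.sum_range_succ _ _

theorem C08_s_strictMono (hm : ∀ l, 0 < m l) : StrictMono (C08_s m) :=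
  strictMono_nat_of_lt_succ (fun n => by rw [C08_s_succ]; have := hm n; omega)

theorem C08_le_s (hm : ∀ l, 0 < m l) (L : ℕ) : L ≤ C08_s m L := (C08_s_strictMono m hm).le_apply

def C08_lev (k : ℕ) : ℕ := Nat.findGreatest (fun L => C08_s m L ≤ k) k

theorem C08_lev_le (k : ℕ) : C08_s m (C08_lev m k) ≤ k :=
  Nat.findGreatest_spec (P := fun L => C08_s m L ≤ k) (m := 0) (Nat.zero_le _) (Nat.zero_le _)

theorem C08_lt_lev (hm : ∀ l, 0 < m l) (k : ℕ) : k < C08_s m (C08_lev m k + 1) := by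
  by_contra h
  rw [not_lt] at h
  have h1 : C08_lev m k + 1 ≤ k := (C08_le_s m hm _).trans h
  have h2 := Nat.le_findGreatest (P := fun L => C08_s m L ≤ k) h1 h
  have h3 : Nat.findGreatest (fun L => C08_s m L ≤ k) k = C08_lev m k := rfl
  omega

theorem C08_lev_unique (hm : ∀ l, 0 < m l) {k l : ℕ} (h1 : C08_s m l ≤ k) (h2 : k < C08_s m (l + 1)) :
    C08_lev m k = l := by
  have h3 := C08_lev_le m k
  have h4 := C08_lt_lev m hm k
  have h5 := (C08_s_strictMono m hm).lt_iff_lt.mp (h3.trans_lt h2)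
  have h6 := (C08_s_strictMono m hm).lt_iff_lt.mp (h1.trans_lt h4)
  omega

theorem C08_tendsto_lev (hm : ∀ l, 0 < m l) : Filter.Tendsto (C08_lev m) Filter.atTop Filter.atTop := by
  rw [Filter.tendsto_atTop]
  intro L
  filter_upwards [Filter.eventually_ge_atTop (C08_s m L)] with k hk
  have h6 := (C08_s_strictMono m hm).lt_iff_lt.mp (hk.trans_lt (C08_lt_lev m hm k))
  omega

def C08_pk (hm : ∀ l, 0 < m l) (k : ℕ) : Σ l, Fin (m l) :=
  ⟨C08_lev m k, ⟨k - C08_s m (C08_lev m k), by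
    have h1 := C08_lev_le m k
    have h2 := C08_lt_lev m hm k
    rw [C08_s_succ] at h2
    omega⟩⟩

theorem C08_pk_add (hm : ∀ l, 0 < m l) (l : ℕ) (i : Fin (m l)) :
    C08_pk m hm (C08_s m l + i) = ⟨l, i⟩ := by
  have h : C08_lev m (C08_s m l + i) = l := by
    apply C08_lev_unique m hm (Nat.le_add_right _ _)
    rw [C08_s_succ]
    have := i.2
    omega
  unfold C08_pk
  refine Sigma.ext h ?_
  refine (Fin.heq_ext_iff (congrArg m h)).mpr ?_
  show C08_s m l + i - C08_s m (C08_lev m (C08_s m l + i)) = i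
  rw [h, Nat.add_sub_cancel_left]

theorem C08_pk_surj (hm : ∀ l, 0 < m l) (k : ℕ) : ∃ l, ∃ i : Fin (m l), k = C08_s m l + i := by
  refine ⟨(C08_pk m hm k).1, (C08_pk m hm k).2, ?_⟩
  show k = C08_s m (C08_lev m k) + (k - C08_s m (C08_lev m k))
  have := C08_lev_le m k
  omega

/-- block of a sequence -/
noncomputable def C08_blk (c : c0) (l : ℕ) : Fin (m l) → ℂ := fun i => c (C08_s m l + i)

theorem C08_norm_le (c : c0) (k : ℕ) : ‖c k‖ ≤ ‖c‖ := c.toBCF.norm_coe_le_norm k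

theorem C08_norm_le' (c : c0) (M : ℝ) (hM : 0 ≤ M) (h : ∀ k, ‖c k‖ ≤ M) : ‖c‖ ≤ M := by
  rw [← ZeroAtInftyContinuousMap.norm_toBCF_eq_norm]
  exact (BoundedContinuousFunction.norm_le hM).mpr h

theorem C08_blk_norm (c : c0) (l : ℕ) : ‖C08_blk m c l‖ ≤ ‖c‖ :=
  (pi_norm_le_iff_of_nonneg (norm_nonneg _)).mpr (fun i => C08_norm_le c _)

theorem C08_tendsto (c : c0) : Filter.Tendsto (fun k => c k) Filter.atTop (nhds 0) := by
  have := c.zero_at_infty'
  rwa [Filter.cocompact_eq_cofinite, Nat.cofinite_eq_atTop] at this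

theorem C08_blk_tendsto (hm : ∀ l, 0 < m l) (c : c0) :
    Filter.Tendsto (fun l => ‖C08_blk m c l‖) Filter.atTop (nhds 0) := by
  rw [Metric.tendsto_atTop]
  intro ε hε
  obtain ⟨K, hK⟩ := Metric.tendsto_atTop.mp (C08_tendsto c) (ε / 2) (half_pos hε)
  refine ⟨K, fun l hl => ?_⟩
  rw [dist_zero_right, norm_norm]
  have : ‖C08_blk m c l‖ ≤ ε / 2 := by
    rw [pi_norm_le_iff_of_nonneg (half_pos hε).le]
    intro i
    have h1 := hK (C08_s m l + i) (by have := C08_le_s m hm l; omega)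
    rw [dist_zero_right] at h1
    exact h1.le
  linarith

/-- sequence from blocks -/
noncomputable def C08_mk (hm : ∀ l, 0 < m l) (v : ∀ l, Fin (m l) → ℂ)
    (hv : Filter.Tendsto (fun l => ‖v l‖) Filter.atTop (nhds 0)) : c0 where
  toFun := fun k => v (C08_pk m hm k).1 (C08_pk m hm k).2
  continuous_toFun := continuous_of_discreteTopology
  zero_at_infty' := by
    rw [Filter.cocompact_eq_cofinite, Nat.cofinite_eq_atTop]
    apply squeeze_zero_norm (a := fun k => ‖v (C08_lev m k)‖)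
    · intro k
      exact norm_le_pi_norm (v (C08_pk m hm k).1) (C08_pk m hm k).2
    · exact hv.comp (C08_tendsto_lev m hm)

theorem C08_blk_mk (hm : ∀ l, 0 < m l) (v : ∀ l, Fin (m l) → ℂ)
    (hv : Filter.Tendsto (fun l => ‖v l‖) Filter.atTop (nhds 0)) (l : ℕ) :
    C08_blk m (C08_mk m hm v hv) l = v l := by
  funext i
  show v (C08_pk m hm (C08_s m l + i)).1 (C08_pk m hm (C08_s m l + i)).2 = v l i
  rw [C08_pk_add]

theorem C08_ext (hm : ∀ l, 0 < m l) (c c' : c0) (h : ∀ l, C08_blk m c l = C08_blk m c' l) :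
    c = c' := by
  apply DFunLike.ext
  intro k
  obtain ⟨l, i, rfl⟩ := C08_pk_surj m hm k
  exact congrFun (h l) i

theorem C08_mk_norm (hm : ∀ l, 0 < m l) (v : ∀ l, Fin (m l) → ℂ)
    (hv : Filter.Tendsto (fun l => ‖v l‖) Filter.atTop (nhds 0)) (M : ℝ) (hM : 0 ≤ M)
    (h : ∀ l, ‖v l‖ ≤ M) : ‖C08_mk m hm v hv‖ ≤ M :=
  C08_norm_le' _ M hM (fun k => (norm_le_pi_norm (v (C08_pk m hm k).1) (C08_pk m hm k).2).trans (h _))

theorem C08_blk_add (c c' : c0) (l : ℕ) : C08_blk m (c + c') l = C08_blk m c l + C08_blk m c' l := rfl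

theorem C08_blk_sub (c c' : c0) (l : ℕ) : C08_blk m (c - c') l = C08_blk m c l - C08_blk m c' l := rfl

theorem C08_blk_smul (r : ℂ) (c : c0) (l : ℕ) : C08_blk m (r • c) l = r • C08_blk m c l := rfl

theorem C08_blk_zero (l : ℕ) : C08_blk m (0 : c0) l = 0 := rfl

theorem C08_blk_unit (hm : ∀ l, 0 < m l) (l : ℕ) (i : Fin (m l)) :
    C08_blk m (unit (C08_s m l + i)) l = Pi.single i 1 := by
  funext j
  show (Pi.single (C08_s m l + i) (1 : ℂ) : ℕ → ℂ) (C08_s m l + j) = _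
  rw [Pi.single_apply, Pi.single_apply]
  congr 1
  apply propext
  rw [Fin.ext_iff]
  omega

theorem C08_blk_unit_ne (hm : ∀ l, 0 < m l) (l l' : ℕ) (i : Fin (m l)) (h : l' ≠ l) :
    C08_blk m (unit (C08_s m l + i)) l' = 0 := by
  funext j
  show (Pi.single (C08_s m l + i) (1 : ℂ) : ℕ → ℂ) (C08_s m l' + j) = 0
  rw [Pi.single_apply, if_neg]
  intro he
  have h1 := C08_pk_add m hm l' j
  rw [he, C08_pk_add m hm l i] at h1
  exact h (congrArg Sigma.fst h1).symm

end C08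

section C08b

variable {X : Type} [NormedAddCommGroup X] [NormedSpace ℂ X]
  {m : ℕ → ℕ} {α : ∀ l, X →L[ℂ] (Fin (m l) → ℂ)}
    {β : ∀ l, (Fin (m l) → ℂ) →L[ℂ] X} {C : ℝ} {w : ℕ}

def C08_near (w j : ℕ) : Finset ℕ := Finset.Ico (j + 1 - w) (j + w)

theorem C08_near_card (w j : ℕ) : ((C08_near w j).card : ℝ) ≤ 2 * w := by
  unfold C08_near
  rw [Nat.card_Ico]
  have : j + w - (j + 1 - w) ≤ 2 * w := by omega
  exact_mod_cast this

theorem C08_band0 (hband : ∀ l j, l + w ≤ j ∨ j + w ≤ l → ∀ c, α l (β j c) = 0) {j l : ℕ}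
    (h : l ∉ C08_near w j) (c : Fin (m l) → ℂ) : α j (β l c) = 0 := by
  apply hband
  unfold C08_near at h
  rw [Finset.mem_Ico] at h
  omega

theorem C08_sum_near (hband : ∀ l j, l + w ≤ j ∨ j + w ≤ l → ∀ c, α l (β j c) = 0) (j L : ℕ)
    (hL : j + w ≤ L) (v : ∀ l, Fin (m l) → ℂ) :
    ∑ l ∈ Finset.range L, α j (β l (v l)) = ∑ l ∈ C08_near w j, α j (β l (v l)) := by
  symm
  apply Finset.sum_subset
  · intro l hl
    unfold C08_near at hl
    rw [Finset.mem_Ico] at hl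
    rw [Finset.mem_range]
    omega
  · intro l _ hl
    exact C08_band0 hband hl _

theorem C08_near_bound (hC : 0 ≤ C) (hα : ∀ l x, ‖α l x‖ ≤ C * ‖x‖)
    (hβ : ∀ l c, ‖β l c‖ ≤ C * ‖c‖) (j : ℕ) (v : ∀ l, Fin (m l) → ℂ) (M : ℝ) (hM : 0 ≤ M)
    (h : ∀ l ∈ C08_near w j, ‖v l‖ ≤ M) :
    ‖∑ l ∈ C08_near w j, α j (β l (v l))‖ ≤ 2 * w * C ^ 2 * M := by
  refine (norm_sum_le _ _).trans ?_
  have h1 : ∀ l ∈ C08_near w j, ‖α j (β l (v l))‖ ≤ C ^ 2 * M := by
    intro l hl
    calc ‖α j (β l (v l))‖ ≤ C * ‖β l (v l)‖ := hα _ _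
      _ ≤ C * (C * ‖v l‖) := mul_le_mul_of_nonneg_left (hβ _ _) hC
      _ ≤ C * (C * M) := by
        apply mul_le_mul_of_nonneg_left _ hC
        exact mul_le_mul_of_nonneg_left (h l hl) hC
      _ = C ^ 2 * M := by ring
  refine (Finset.sum_le_sum h1).trans ?_
  rw [Finset.sum_const, nsmul_eq_mul]
  calc ((C08_near w j).card : ℝ) * (C ^ 2 * M) ≤ (2 * w) * (C ^ 2 * M) :=
        mul_le_mul_of_nonneg_right (C08_near_card w j) (by positivity)
    _ = 2 * w * C ^ 2 * M := by ring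

theorem C08_near_tendsto (hC : 0 ≤ C) (hα : ∀ l x, ‖α l x‖ ≤ C * ‖x‖)
    (hβ : ∀ l c, ‖β l c‖ ≤ C * ‖c‖) (v : ∀ l, Fin (m l) → ℂ)
    (hv : Filter.Tendsto (fun l => ‖v l‖) Filter.atTop (nhds 0)) :
    Filter.Tendsto (fun j => ‖∑ l ∈ C08_near w j, α j (β l (v l))‖) Filter.atTop (nhds 0) := by
  rw [Metric.tendsto_atTop]
  intro ε hε
  have hD : 0 < 2 * (w : ℝ) * C ^ 2 + 1 := by positivity
  obtain ⟨K, hK⟩ := Metric.tendsto_atTop.mp hv (ε / (2 * w * C ^ 2 + 1)) (div_pos hε hD)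
  refine ⟨K + w, fun j hj => ?_⟩
  rw [dist_zero_right, norm_norm]
  have h1 := C08_near_bound (w := w) hC hα hβ j v (ε / (2 * w * C ^ 2 + 1)) (div_pos hε hD).le (by
    intro l hl
    unfold C08_near at hl
    rw [Finset.mem_Ico] at hl
    have h2 := hK l (by omega)
    rw [dist_zero_right, norm_norm] at h2
    exact h2.le)
  refine h1.trans_lt ?_
  rw [mul_div_assoc', div_lt_iff₀ hD]
  nlinarith

/-- the resolution of `β l v` -/
theorem C08_resol (hband : ∀ l j, l + w ≤ j ∨ j + w ≤ l → ∀ c, α l (β j c) = 0)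
    (hsum : ∀ x, Filter.Tendsto (fun L => ∑ l ∈ Finset.range L, β l (α l x)) Filter.atTop (nhds x))
    (x : X) (L₀ : ℕ) (h0 : ∀ j, L₀ ≤ j → α j x = 0) (L : ℕ) (hL : L₀ ≤ L) :
    ∑ j ∈ Finset.range L, β j (α j x) = x := by
  have h1 : ∀ L' ≥ L, ∑ j ∈ Finset.range L', β j (α j x) = ∑ j ∈ Finset.range L, β j (α j x) := by
    intro L' hL'
    symm
    apply Finset.sum_subset (Finset.range_mono hL')
    intro j _ hj
    rw [Finset.mem_range, not_lt] at hj
    rw [h0 j (hL.trans hj), map_zero]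
  have h2 : Filter.Tendsto (fun L => ∑ l ∈ Finset.range L, β l (α l x)) Filter.atTop
      (nhds (∑ j ∈ Finset.range L, β j (α j x))) := by
    apply tendsto_const_nhds.congr'
    filter_upwards [Filter.eventually_ge_atTop L] with L' hL'
    exact (h1 L' hL').symm
  exact tendsto_nhds_unique h2 (hsum x)

theorem C08_resol_beta (hband : ∀ l j, l + w ≤ j ∨ j + w ≤ l → ∀ c, α l (β j c) = 0)
    (hsum : ∀ x, Filter.Tendsto (fun L => ∑ l ∈ Finset.range L, β l (α l x)) Filter.atTop (nhds x))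
    (l : ℕ) (v : Fin (m l) → ℂ) (L : ℕ) (hL : l + w ≤ L) :
    ∑ j ∈ Finset.range L, β j (α j (β l v)) = β l v :=
  C08_resol hband hsum (β l v) (l + w) (fun j hj => hband j l (Or.inr hj) v) L hL

theorem C08_alpha_tendsto (hC : 0 ≤ C) (hα : ∀ l x, ‖α l x‖ ≤ C * ‖x‖)
    (hband : ∀ l j, l + w ≤ j ∨ j + w ≤ l → ∀ c, α l (β j c) = 0)
    (hsum : ∀ x, Filter.Tendsto (fun L => ∑ l ∈ Finset.range L, β l (α l x)) Filter.atTop (nhds x))
    (x : X) : Filter.Tendsto (fun l => ‖α l x‖) Filter.atTop (nhds 0) := by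
  rw [Metric.tendsto_atTop]
  intro ε hε
  obtain ⟨L, hL⟩ := Metric.tendsto_atTop.mp (hsum x) (ε / (C + 1)) (by positivity)
  refine ⟨L + w, fun l hl => ?_⟩
  rw [dist_zero_right, norm_norm]
  have h1 := hL L le_rfl
  have h2 : α l x = α l (x - ∑ j ∈ Finset.range L, β j (α j x)) := by
    rw [map_sub, map_sum]
    have : ∑ j ∈ Finset.range L, α l (β j (α j x)) = 0 := by
      apply Finset.sum_eq_zero
      intro j hj
      rw [Finset.mem_range] at hj
      exact hband l j (Or.inr (by omega)) _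
    rw [this, sub_zero]
  rw [h2]
  rw [dist_eq_norm, norm_sub_rev] at h1
  calc ‖α l (x - ∑ j ∈ Finset.range L, β j (α j x))‖
      ≤ C * ‖x - ∑ j ∈ Finset.range L, β j (α j x)‖ := hα _ _
    _ ≤ C * (ε / (C + 1)) := mul_le_mul_of_nonneg_left h1.le hC
    _ < ε := by
      rw [mul_div_assoc', div_lt_iff₀ (by positivity)]
      nlinarith

/-- the analysis operator -/
noncomputable def C08_a (hm : ∀ l, 0 < m l) (hC : 0 ≤ C) (hα : ∀ l x, ‖α l x‖ ≤ C * ‖x‖)
    (hband : ∀ l j, l + w ≤ j ∨ j + w ≤ l → ∀ c, α l (β j c) = 0)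
    (hsum : ∀ x, Filter.Tendsto (fun L => ∑ l ∈ Finset.range L, β l (α l x)) Filter.atTop (nhds x)) :
    X →L[ℂ] c0 :=
  LinearMap.mkContinuous
    { toFun := fun x => C08_mk m hm (fun l => α l x) (C08_alpha_tendsto hC hα hband hsum x)
      map_add' := by
        intro x y
        apply C08_ext m hm
        intro l
        rw [C08_blk_add, C08_blk_mk, C08_blk_mk, C08_blk_mk, map_add]
      map_smul' := by
        intro r x
        apply C08_ext m hm
        intro l
        rw [RingHom.id_apply, C08_blk_smul, C08_blk_mk, C08_blk_mk, map_smul] } C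
    (fun x => C08_mk_norm m hm _ _ _ (mul_nonneg hC (norm_nonneg _)) (fun l => hα l x))

theorem C08_blk_a (hm : ∀ l, 0 < m l) (hC : 0 ≤ C) (hα : ∀ l x, ‖α l x‖ ≤ C * ‖x‖)
    (hband : ∀ l j, l + w ≤ j ∨ j + w ≤ l → ∀ c, α l (β j c) = 0)
    (hsum : ∀ x, Filter.Tendsto (fun L => ∑ l ∈ Finset.range L, β l (α l x)) Filter.atTop (nhds x))
    (x : X) (l : ℕ) : C08_blk m (C08_a hm hC hα hband hsum x) l = α l x :=
  C08_blk_mk m hm _ _ l

/-- the projection -/
noncomputable def C08_Q (hm : ∀ l, 0 < m l) (hC : 0 ≤ C) (hα : ∀ l x, ‖α l x‖ ≤ C * ‖x‖)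
    (hβ : ∀ l c, ‖β l c‖ ≤ C * ‖c‖) (w : ℕ) : c0 →L[ℂ] c0 :=
  LinearMap.mkContinuous
    { toFun := fun c => C08_mk m hm (fun j => ∑ l ∈ C08_near w j, α j (β l (C08_blk m c l)))
        (C08_near_tendsto hC hα hβ _ (C08_blk_tendsto m hm c))
      map_add' := by
        intro x y
        apply C08_ext m hm
        intro l
        rw [C08_blk_add, C08_blk_mk, C08_blk_mk, C08_blk_mk, ← Finset.sum_add_distrib]
        refine Finset.sum_congr rfl (fun j _ => ?_)
        rw [C08_blk_add, map_add, map_add]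
      map_smul' := by
        intro r x
        apply C08_ext m hm
        intro l
        rw [RingHom.id_apply, C08_blk_smul, C08_blk_mk, C08_blk_mk, Finset.smul_sum]
        refine Finset.sum_congr rfl (fun j _ => ?_)
        rw [C08_blk_smul, map_smul, map_smul] } (2 * w * C ^ 2)
    (fun c => C08_mk_norm m hm _ _ _ (by positivity) (fun j =>
      C08_near_bound hC hα hβ j _ _ (norm_nonneg _) (fun l _ => C08_blk_norm m c l)))

theorem C08_blk_Q (hm : ∀ l, 0 < m l) (hC : 0 ≤ C) (hα : ∀ l x, ‖α l x‖ ≤ C * ‖x‖)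
    (hβ : ∀ l c, ‖β l c‖ ≤ C * ‖c‖) (w : ℕ) (c : c0) (j : ℕ) :
    C08_blk m (C08_Q hm hC hα hβ w c) j = ∑ l ∈ C08_near w j, α j (β l (C08_blk m c l)) :=
  C08_blk_mk m hm _ _ j


theorem C08_QQ (hm : ∀ l, 0 < m l) (hC : 0 ≤ C) (hα : ∀ l x, ‖α l x‖ ≤ C * ‖x‖)
    (hβ : ∀ l c, ‖β l c‖ ≤ C * ‖c‖)
    (hband : ∀ l j, l + w ≤ j ∨ j + w ≤ l → ∀ c, α l (β j c) = 0)
    (hsum : ∀ x, Filter.Tendsto (fun L => ∑ l ∈ Finset.range L, β l (α l x)) Filter.atTop (nhds x))
    (c : c0) : C08_Q hm hC hα hβ w (C08_Q hm hC hα hβ w c) = C08_Q hm hC hα hβ w c := by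
  apply C08_ext m hm
  intro k
  rw [C08_blk_Q, C08_blk_Q]
  have h1 : ∀ j ∈ C08_near w k, α k (β j (C08_blk m (C08_Q hm hC hα hβ w c) j))
      = ∑ l ∈ Finset.range (k + 3 * w), α k (β j (α j (β l (C08_blk m c l)))) := by
    intro j hj
    unfold C08_near at hj
    rw [Finset.mem_Ico] at hj
    rw [C08_blk_Q, ← C08_sum_near hband j (k + 3 * w) (by omega), map_sum, map_sum]
  rw [Finset.sum_congr rfl h1, Finset.sum_comm, ← C08_sum_near hband k (k + 3 * w) (by omega)]
  refine Finset.sum_congr rfl ?_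
  intro l hl
  rw [Finset.mem_range] at hl
  rw [← C08_sum_near hband k (k + 6 * w) (by omega) (fun j => α j (β l (C08_blk m c l))),
    ← map_sum, C08_resol_beta hband hsum l _ (k + 6 * w) (by omega)]

theorem C08_Qa (hm : ∀ l, 0 < m l) (hC : 0 ≤ C) (hα : ∀ l x, ‖α l x‖ ≤ C * ‖x‖)
    (hβ : ∀ l c, ‖β l c‖ ≤ C * ‖c‖)
    (hband : ∀ l j, l + w ≤ j ∨ j + w ≤ l → ∀ c, α l (β j c) = 0)
    (hsum : ∀ x, Filter.Tendsto (fun L => ∑ l ∈ Finset.range L, β l (α l x)) Filter.atTop (nhds x))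
    (x : X) : C08_Q hm hC hα hβ w (C08_a hm hC hα hband hsum x) = C08_a hm hC hα hband hsum x := by
  apply C08_ext m hm
  intro k
  rw [C08_blk_Q, C08_blk_a]
  have h1 : Filter.Tendsto (fun L => α k (∑ l ∈ Finset.range L, β l (α l x))) Filter.atTop
      (nhds (α k x)) := ((α k).continuous.tendsto x).comp (hsum x)
  have h2 : Filter.Tendsto (fun L => α k (∑ l ∈ Finset.range L, β l (α l x))) Filter.atTop
      (nhds (∑ l ∈ C08_near w k, α k (β l (C08_blk m (C08_a hm hC hα hband hsum x) l)))) := by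
    apply tendsto_const_nhds.congr'
    filter_upwards [Filter.eventually_ge_atTop (k + w)] with L hL
    rw [← C08_sum_near hband k L hL, map_sum]
    refine Finset.sum_congr rfl (fun l _ => ?_)
    rw [C08_blk_a]
  exact tendsto_nhds_unique h2 h1

/-- the synthesis vectors -/
noncomputable def C08_b (β : ∀ l, (Fin (m l) → ℂ) →L[ℂ] X) (hm : ∀ l, 0 < m l) (k : ℕ) : X :=
  β (C08_pk m hm k).1 (Pi.single (C08_pk m hm k).2 1)

theorem C08_b_add (hm : ∀ l, 0 < m l) (l : ℕ) (i : Fin (m l)) :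
    C08_b β hm (C08_s m l + i) = β l (Pi.single i 1) := by
  unfold C08_b
  rw [C08_pk_add]

theorem C08_ab (hm : ∀ l, 0 < m l) (hC : 0 ≤ C) (hα : ∀ l x, ‖α l x‖ ≤ C * ‖x‖)
    (hβ : ∀ l c, ‖β l c‖ ≤ C * ‖c‖)
    (hband : ∀ l j, l + w ≤ j ∨ j + w ≤ l → ∀ c, α l (β j c) = 0)
    (hsum : ∀ x, Filter.Tendsto (fun L => ∑ l ∈ Finset.range L, β l (α l x)) Filter.atTop (nhds x))
    (k : ℕ) : C08_a hm hC hα hband hsum (C08_b β hm k) = C08_Q hm hC hα hβ w (unit k) := by
  obtain ⟨l, i, rfl⟩ := C08_pk_surj m hm k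
  apply C08_ext m hm
  intro j
  rw [C08_blk_Q, C08_blk_a, C08_b_add]
  by_cases h : l ∈ C08_near w j
  · rw [Finset.sum_eq_single_of_mem l h, C08_blk_unit m hm]
    intro l' _ hne
    rw [C08_blk_unit_ne m hm l l' i hne, map_zero, map_zero]
  · rw [C08_band0 hband h]
    symm
    apply Finset.sum_eq_zero
    intro l' hl'
    have hne : l' ≠ l := fun he => h (he ▸ hl')
    rw [C08_blk_unit_ne m hm l l' i hne, map_zero, map_zero]

theorem C08_part (hm : ∀ l, 0 < m l) (c : c0) (l r : ℕ) (hr : r ≤ m l) :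
    ∑ x ∈ Finset.range r, c (C08_s m l + x) • C08_b β hm (C08_s m l + x)
      = β l (fun i => if (i : ℕ) < r then C08_blk m c l i else 0) := by
  have h1 : (fun i : Fin (m l) => if (i : ℕ) < r then C08_blk m c l i else 0)
      = ∑ i : Fin (m l), Pi.single i (if (i : ℕ) < r then C08_blk m c l i else 0) := by
    rw [Finset.univ_sum_single]
  rw [h1, map_sum]
  have h2 : ∀ i : Fin (m l), β l (Pi.single i (if (i : ℕ) < r then C08_blk m c l i else 0))
      = (fun x : ℕ => if x < r then c (C08_s m l + x) • C08_b β hm (C08_s m l + x) else 0) i := by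
    intro i
    show _ = if (i : ℕ) < r then c (C08_s m l + i) • C08_b β hm (C08_s m l + i) else 0
    by_cases h : (i : ℕ) < r
    · rw [if_pos h, if_pos h, C08_b_add, ← map_smul, ← Pi.single_smul, smul_eq_mul, mul_one]
      rfl
    · rw [if_neg h, if_neg h, Pi.single_zero, map_zero]
  rw [Finset.sum_congr rfl (fun i _ => h2 i),
    ← Finset.sum_range (fun x : ℕ => if x < r then c (C08_s m l + x) • C08_b β hm (C08_s m l + x) else 0),
    ← Finset.sum_filter]
  congr 1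
  ext x
  rw [Finset.mem_range, Finset.mem_filter, Finset.mem_range]
  omega

theorem C08_full (hm : ∀ l, 0 < m l) (c : c0) (L : ℕ) :
    ∑ k ∈ Finset.range (C08_s m L), c k • C08_b β hm k
      = ∑ l ∈ Finset.range L, β l (C08_blk m c l) := by
  induction L with
  | zero => rw [C08_s_zero, Finset.sum_range_zero, Finset.sum_range_zero]
  | succ L ih =>
    rw [C08_s_succ, Finset.sum_range_add, ih, Finset.sum_range_succ, C08_part hm c L (m L) le_rfl]
    congr 2
    funext i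
    rw [if_pos i.2]

theorem C08_sz (hm : ∀ l, 0 < m l) (hC : 0 ≤ C) (hα : ∀ l x, ‖α l x‖ ≤ C * ‖x‖)
    (hβ : ∀ l c, ‖β l c‖ ≤ C * ‖c‖)
    (hband : ∀ l j, l + w ≤ j ∨ j + w ≤ l → ∀ c, α l (β j c) = 0)
    (hsum : ∀ x, Filter.Tendsto (fun L => ∑ l ∈ Finset.range L, β l (α l x)) Filter.atTop (nhds x))
    (z : c0) (hz : C08_Q hm hC hα hβ w z = 0) :
    Filter.Tendsto (fun L => ∑ l ∈ Finset.range L, β l (C08_blk m z l)) Filter.atTop (nhds 0) := by
  rw [Metric.tendsto_atTop]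
  intro ε hε
  set D : ℝ := 2 * w * C * (2 * w * C ^ 2) + 1 with hD
  have hD0 : 0 < D := by positivity
  obtain ⟨K, hK⟩ := Metric.tendsto_atTop.mp (C08_blk_tendsto m hm z) (ε / D) (div_pos hε hD0)
  refine ⟨K + 2 * w, fun L hL => ?_⟩
  rw [dist_zero_right]
  set S := ∑ l ∈ Finset.range L, β l (C08_blk m z l) with hS
  -- value of the coefficients
  have hcoef : ∀ j, α j S = ∑ l ∈ C08_near w j, α j (β l (if l < L then C08_blk m z l else 0)) := by
    intro j
    rw [hS, map_sum, ← C08_sum_near hband j (max L (j + w)) (le_max_right _ _)]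
    rw [← Finset.sum_subset (Finset.range_mono (le_max_left L (j + w)))]
    · refine Finset.sum_congr rfl (fun l hl => ?_)
      rw [Finset.mem_range] at hl
      rw [if_pos hl]
    · intro l _ hl
      rw [Finset.mem_range] at hl
      rw [if_neg hl, map_zero, map_zero]
  have hzero : ∀ j, j ∉ C08_near w L → α j S = 0 := by
    intro j hj
    unfold C08_near at hj
    rw [Finset.mem_Ico] at hj
    rcases le_or_gt (j + w) L with h | h
    · have h1 : C08_blk m (C08_Q hm hC hα hβ w z) j = 0 := by rw [hz]; rfl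
      rw [C08_blk_Q, ← C08_sum_near hband j L h] at h1
      rw [hS, map_sum, h1]
    · rw [hS, map_sum]
      apply Finset.sum_eq_zero
      intro l hl
      rw [Finset.mem_range] at hl
      exact hband j l (Or.inr (by omega)) _
  have hrep : S = ∑ j ∈ C08_near w L, β j (α j S) := by
    have h1 := C08_resol hband hsum S (L + w) (fun j hj => hzero j (by
      unfold C08_near; rw [Finset.mem_Ico]; omega)) (L + w) le_rfl
    conv_lhs => rw [← h1]
    symm
    apply Finset.sum_subset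
    · intro l hl
      unfold C08_near at hl
      rw [Finset.mem_Ico] at hl
      rw [Finset.mem_range]
      omega
    · intro j _ hj
      rw [hzero j hj, map_zero]
  have hb : ∀ j ∈ C08_near w L, ‖β j (α j S)‖ ≤ C * (2 * w * C ^ 2 * (ε / D)) := by
    intro j hj
    unfold C08_near at hj
    rw [Finset.mem_Ico] at hj
    refine (hβ _ _).trans (mul_le_mul_of_nonneg_left ?_ hC)
    rw [hcoef j]
    apply C08_near_bound hC hα hβ j _ _ (div_pos hε hD0).le
    intro l hl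
    unfold C08_near at hl
    rw [Finset.mem_Ico] at hl
    split_ifs with h
    · have h2 := hK l (by omega)
      rw [dist_zero_right, norm_norm] at h2
      exact h2.le
    · rw [norm_zero]; exact (div_pos hε hD0).le
  have hfin : ‖S‖ ≤ 2 * w * (C * (2 * w * C ^ 2 * (ε / D))) := by
    conv_lhs => rw [hrep]
    refine (norm_sum_le _ _).trans ((Finset.sum_le_sum hb).trans ?_)
    rw [Finset.sum_const, nsmul_eq_mul]
    exact mul_le_mul_of_nonneg_right (C08_near_card w L) (by positivity)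
  refine hfin.trans_lt ?_
  have h3 : 2 * (w : ℝ) * (C * (2 * w * C ^ 2 * (ε / D))) = (2 * w * C * (2 * w * C ^ 2)) * ε / D := by
    ring
  rw [h3, div_lt_iff₀ hD0, hD]
  nlinarith

end C08b

/-- TARGET -/
theorem lusky {X : Type} [NormedAddCommGroup X] [NormedSpace ℂ X] [CompleteSpace X]
    (m : ℕ → ℕ) (hm : ∀ l, 0 < m l) (α : ∀ l, X →L[ℂ] (Fin (m l) → ℂ))
    (β : ∀ l, (Fin (m l) → ℂ) →L[ℂ] X) (C : ℝ) (hα : ∀ l x, ‖α l x‖ ≤ C * ‖x‖)
    (hβ : ∀ l c, ‖β l c‖ ≤ C * ‖c‖) (w : ℕ)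
    (hband : ∀ l j, l + w ≤ j ∨ j + w ≤ l → ∀ c, α l (β j c) = 0)
    (hsum : ∀ x, Filter.Tendsto (fun L => ∑ l ∈ Finset.range L, β l (α l x)) Filter.atTop (nhds x)) :
    ∃ (a : X →L[ℂ] c0) (q : c0 →L[ℂ] c0) (b : ℕ → X), (∀ c, q (q c) = q c) ∧
      (∀ x, q (a x) = 0) ∧ (∀ k, a (b k) + q (unit k) = unit k) ∧
      ∀ x z, q z = z → Filter.Tendsto (fun N => ∑ k ∈ Finset.range N, ((a x + z) k) • b k)
        Filter.atTop (nhds x) := by
  have hC : 0 ≤ C := by
    have h1 := hβ 0 (Pi.single (⟨0, hm 0⟩ : Fin (m 0)) 1)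
    have h2 : ‖(Pi.single (⟨0, hm 0⟩ : Fin (m 0)) (1 : ℂ) : Fin (m 0) → ℂ)‖ = 1 := by
      rw [Pi.norm_single, norm_one]
    rw [h2, mul_one] at h1
    exact (norm_nonneg _).trans h1
  set a := C08_a hm hC hα hband hsum with ha
  set Q := C08_Q hm hC hα hβ w with hQ
  refine ⟨a, ContinuousLinearMap.id ℂ c0 - Q, C08_b β hm, ?_, ?_, ?_, ?_⟩
  · intro c
    show (c - Q c) - Q (c - Q c) = c - Q c
    rw [map_sub, hQ, C08_QQ hm hC hα hβ hband hsum, sub_self, sub_zero]
  · intro x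
    show a x - Q (a x) = 0
    rw [hQ, ha, C08_Qa hm hC hα hβ hband hsum, sub_self]
  · intro k
    show a (C08_b β hm k) + (unit k - Q (unit k)) = unit k
    rw [hQ, ha, C08_ab hm hC hα hβ hband hsum]
    abel
  · intro x z hz
    have hz0 : Q z = 0 := by
      have : z - Q z = z := hz
      rwa [sub_eq_self] at this
    have h1 : Filter.Tendsto (fun L => ∑ l ∈ Finset.range L, β l (C08_blk m (a x + z) l))
        Filter.atTop (nhds x) := by
      have h2 : (fun L => ∑ l ∈ Finset.range L, β l (C08_blk m (a x + z) l))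
          = fun L => ∑ l ∈ Finset.range L, β l (α l x) + ∑ l ∈ Finset.range L, β l (C08_blk m z l) := by
        funext L
        rw [← Finset.sum_add_distrib]
        refine Finset.sum_congr rfl (fun l _ => ?_)
        rw [C08_blk_add, ha, C08_blk_a, map_add]
      rw [h2]
      have := (hsum x).add (C08_sz hm hC hα hβ hband hsum z hz0)
      rwa [add_zero] at this
    have h3 : (fun N => ∑ k ∈ Finset.range N, ((a x + z) k) • C08_b β hm k)
        = fun N => ∑ l ∈ Finset.range (C08_lev m N), β l (C08_blk m (a x + z) l)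
          + β (C08_lev m N) (fun i => if (i : ℕ) < N - C08_s m (C08_lev m N) then
              C08_blk m (a x + z) (C08_lev m N) i else 0) := by
      funext N
      have h4 := C08_lev_le m N
      have h5 := C08_lt_lev m hm N
      rw [C08_s_succ] at h5
      have h6 : N = C08_s m (C08_lev m N) + (N - C08_s m (C08_lev m N)) := by omega
      conv_lhs => rw [h6]
      rw [Finset.sum_range_add, C08_full, C08_part hm _ _ _ (by omega)]
    rw [h3]
    have h7 : Filter.Tendsto (fun N => β (C08_lev m N) (fun i => if (i : ℕ) < N - C08_s m (C08_lev m N) then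
              C08_blk m (a x + z) (C08_lev m N) i else 0)) Filter.atTop (nhds 0) := by
      apply squeeze_zero_norm (a := fun N => C * ‖C08_blk m (a x + z) (C08_lev m N)‖)
      · intro N
        refine (hβ _ _).trans (mul_le_mul_of_nonneg_left ?_ hC)
        rw [pi_norm_le_iff_of_nonneg (norm_nonneg _)]
        intro i
        split_ifs
        · exact norm_le_pi_norm (C08_blk m (a x + z) (C08_lev m N)) i
        · rw [norm_zero]; exact norm_nonneg _
      · have := ((C08_blk_tendsto m hm (a x + z)).comp (C08_tendsto_lev m hm)).const_mul C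
        rw [mul_zero] at this
        exact this
    have := (h1.comp (C08_tendsto_lev m hm)).add h7
    rwa [add_zero] at this

end Pool.Agent.BallAlg
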