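import Mathlib
import Pool.Agent.BallAlg.Defs
import Pool.Agent.BallAlg.Model
import Pool.Agent.BallAlg.GradBall
import Pool.Agent.BallAlg.Disc
import Pool.Agent.BallAlg.Hotel
import Pool.Agent.BallAlg.Lusky
import Pool.Agent.BallAlg.Cz
import Pool.Agent.BallAlg.BasisAbs
import Pool.Agent.BallAlg.GradFactor
import Pool.Agent.BallAlg.Final

set_option autoImplicit false

open MeasureTheory Complex
open scoped ENNReal NNReal

namespace Pool.Agent.BallAlg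

open Pool.Agent.HpBall Pool.Agent.HpBall2

theorem basis_of_grad {X : Type} [NormedAddCommGroup X] [NormedSpace ℂ X] [CompleteSpace X]
    (H : ℕ → X →L[ℂ] X) (hG : Grad X H) (D : ℝ) (hD : 0 < D)
    (hdisc : ∀ (l : ℕ) (ε : ℝ), 0 < ε → ∃ (m : ℕ) (σ : X →L[ℂ] (Fin m → ℂ))
      (B : (Fin m → ℂ) →L[ℂ] X), 0 < m ∧ (∀ x, ‖σ x‖ ≤ ‖x‖) ∧ (∀ c, ‖B c‖ ≤ D * ‖c‖) ∧
      ∀ x, (∀ k, k ≠ 0 → (2 * k < 2 ^ l ∨ 2 ^ (l + 3) < k) → H k x = 0) →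
        ‖B (σ x) - x‖ ≤ ε * ‖x‖)
    (U : c0 →L[ℂ] X) (V : X →L[ℂ] c0) (hVU : ∀ c, V (U c) = c) :
    ∃ e : ℕ → X, ∀ x, ∃! a : ℕ → ℂ,
      Filter.Tendsto (fun N => ∑ i ∈ Finset.range N, a i • e i) Filter.atTop (nhds x) := by
  obtain ⟨m, α, β, C, hm, hα, hβ, hband, hsum⟩ := grad_factor H hG D hD hdisc
  obtain ⟨a, q, b, h1, h2, h3, h4⟩ := lusky m hm α β C hα hβ 3 hband hsum
  obtain ⟨S, R, hSR, hRS, hR⟩ := c0_hotel q h1
  exact basis_abs a q b h1 h2 h3 h4 S R hSR hRS hR U V hVU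

theorem ball_algebra_basis (n : ℕ) (hn : 1 ≤ n) (X : Type) [NormedAddCommGroup X]
    [NormedSpace ℂ X] [CompleteSpace X] (M : BModel n X) :
    ∃ e : ℕ → X, ∀ x, ∃! a : ℕ → ℂ,
      Filter.Tendsto (fun N => ∑ i ∈ Finset.range N, a i • e i) Filter.atTop (nhds x) := by
  obtain ⟨H, hG, hH⟩ := exists_grad n hn M
  obtain ⟨D, hD, hdisc⟩ := disc n hn M H hG hH
  obtain ⟨U, V, hVU⟩ := exists_c0 n hn M
  exact basis_of_grad H hG D hD hdisc U V hVU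

end Pool.Agent.BallAlg
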